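import Mathlib

/-! Smoothing by binomial weights. -/

set_option autoImplicit false
open Finset

namespace Pool.Agent.H91.BC

/-- Averages of the increments of f along a binomial walk with step w. -/
noncomputable def II (f : ℝ → ℝ) (w : ℝ) : ℕ → ℝ → ℝ
  | 0 => fun x => f (x + w) - f x
  | m + 1 => fun x => (II f w m x + II f w m (x + w)) / 2

lemma II_closed (f : ℝ → ℝ) (w : ℝ) (m : ℕ) (x : ℝ) :
    2 ^ m * II f w m x = ∑ j ∈ range (m + 1), (m.choose j : ℝ) * (f (x + (j + 1) * w) - f (x + j * w)) := by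
  induction m generalizing x with
  | zero => simp [II]
  | succ m ih =>
    have h1 : 2 ^ (m + 1) * II f w (m + 1) x = 2 ^ m * II f w m x + 2 ^ m * II f w m (x + w) := by
      simp only [II]
      ring
    rw [h1, ih x, ih (x + w)]
    have h2 := sum_choose_succ_mul (R := ℝ)
      (fun j _ => f (x + ((j : ℝ) + 1) * w) - f (x + (j : ℝ) * w)) m
    rw [h2]
    congr 1
    refine sum_congr rfl (fun j _ => ?_)
    push_cast
    have e1 : x + w + ((j : ℝ) + 1) * w = x + ((j : ℝ) + 1 + 1) * w := by ring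
    have e2 : x + w + (j : ℝ) * w = x + ((j : ℝ) + 1) * w := by ring
    rw [e1, e2]

lemma choose_diff (m j : ℕ) : ((m : ℝ) + 1) * ((m.choose j : ℝ) - (m.choose (j + 1) : ℝ))
    = ((m + 1).choose (j + 1) : ℝ) * (2 * ((j : ℝ) + 1) - (m + 1)) := by
  have h1 : ((m : ℝ) + 1) * (m.choose j : ℝ) = ((m + 1).choose (j + 1) : ℝ) * ((j : ℝ) + 1) := by
    exact_mod_cast Nat.add_one_mul_choose_eq m j
  have h2 : ((m + 1).choose (j + 1) : ℝ) = (m.choose j : ℝ) + (m.choose (j + 1) : ℝ) := by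
    exact_mod_cast Nat.choose_succ_succ m j
  have h3 : ((m : ℝ) + 1) * (m.choose (j + 1) : ℝ)
      = ((m + 1).choose (j + 1) : ℝ) * ((m : ℝ) + 1 - ((j : ℝ) + 1)) := by
    have : ((m : ℝ) + 1) * (m.choose (j + 1) : ℝ)
        = ((m : ℝ) + 1) * (((m + 1).choose (j + 1) : ℝ)) - ((m : ℝ) + 1) * (m.choose j : ℝ) := by
      rw [h2]; ring
    rw [this, h1]
    ring
  rw [mul_sub, h1, h3]
  ring

lemma abel (m : ℕ) (a : ℕ → ℝ) :
    ((m : ℝ) + 1) * ∑ j ∈ range (m + 1), (m.choose j : ℝ) * (a (j + 1) - a j)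
      = ∑ j ∈ range (m + 2), ((m + 1).choose j : ℝ) * (2 * (j : ℝ) - (m + 1)) * a j := by
  have h1 : ∑ j ∈ range (m + 1), (m.choose j : ℝ) * (a (j + 1) - a j)
      = ∑ j ∈ range (m + 1), (m.choose j : ℝ) * a (j + 1)
        - ∑ j ∈ range (m + 1), (m.choose j : ℝ) * a j := by
    rw [← sum_sub_distrib]
    refine sum_congr rfl (fun j _ => ?_)
    ring
  have h2 : ∑ j ∈ range (m + 1), (m.choose j : ℝ) * a j
      = ∑ j ∈ range (m + 1), (m.choose (j + 1) : ℝ) * a (j + 1) + a 0 := by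
    have e1 := sum_range_succ' (fun j => (m.choose j : ℝ) * a j) (m + 1)
    have e2 := sum_range_succ (fun j => (m.choose j : ℝ) * a j) (m + 1)
    rw [e1] at e2
    simp only [Nat.choose_zero_right, Nat.cast_one, one_mul, Nat.choose_succ_self, Nat.cast_zero,
      zero_mul, add_zero] at e2
    exact e2.symm
  rw [h1, h2]
  have e3 := sum_range_succ' (fun j => ((m + 1).choose j : ℝ) * (2 * (j : ℝ) - (m + 1)) * a j) (m + 1)
  rw [e3]
  have e4 : ((m : ℝ) + 1) * (∑ j ∈ range (m + 1), (m.choose j : ℝ) * a (j + 1)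
      - (∑ j ∈ range (m + 1), (m.choose (j + 1) : ℝ) * a (j + 1) + a 0))
      = ∑ j ∈ range (m + 1), ((m : ℝ) + 1) * ((m.choose j : ℝ) - (m.choose (j + 1) : ℝ)) * a (j + 1)
        - ((m : ℝ) + 1) * a 0 := by
    rw [mul_sub, mul_add, mul_sum, mul_sum, ← sub_sub, ← sum_sub_distrib]
    congr 1
    refine sum_congr rfl (fun j _ => ?_)
    ring
  rw [e4]
  have e5 : ∀ j ∈ range (m + 1),
      ((m : ℝ) + 1) * ((m.choose j : ℝ) - (m.choose (j + 1) : ℝ)) * a (j + 1)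
      = ((m + 1).choose (j + 1) : ℝ) * (2 * ((j + 1 : ℕ) : ℝ) - (m + 1)) * a (j + 1) := by
    intro j _
    rw [choose_diff]
    push_cast
    ring
  rw [sum_congr rfl e5]
  simp
  ring

lemma second_moment (n : ℕ) :
    ∑ j ∈ range (n + 1), (n.choose j : ℝ) * (2 * (j : ℝ) - n) ^ 2 = (n : ℝ) * 2 ^ n := by
  induction n with
  | zero => simp
  | succ n ih =>
    have h2 := sum_choose_succ_mul (R := ℝ)
      (fun j _ => (2 * (j : ℝ) - ((n + 1 : ℕ) : ℝ)) ^ 2) n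
    rw [h2, ← sum_add_distrib]
    have h3 : ∀ j ∈ range (n + 1), (n.choose j : ℝ) * (2 * (j : ℝ) - ((n + 1 : ℕ) : ℝ)) ^ 2
        + (n.choose j : ℝ) * (2 * ((j + 1 : ℕ) : ℝ) - ((n + 1 : ℕ) : ℝ)) ^ 2
        = 2 * ((n.choose j : ℝ) * (2 * (j : ℝ) - n) ^ 2) + 2 * (n.choose j : ℝ) := by
      intro j _
      push_cast
      ring
    rw [sum_congr rfl h3, sum_add_distrib, ← mul_sum, ← mul_sum, ih]
    have h4 : ∑ j ∈ range (n + 1), (n.choose j : ℝ) = 2 ^ n := by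
      exact_mod_cast Nat.sum_range_choose n
    rw [h4]
    push_cast
    ring

lemma first_moment (n : ℕ) :
    ∑ j ∈ range (n + 1), (n.choose j : ℝ) * |2 * (j : ℝ) - n| ≤ √n * 2 ^ n := by
  have h1 := sum_mul_sq_le_sq_mul_sq (range (n + 1)) (fun j => √(n.choose j : ℝ))
    (fun j => √(n.choose j : ℝ) * |2 * (j : ℝ) - n|)
  have h2 : ∀ j : ℕ, √(n.choose j : ℝ) * (√(n.choose j : ℝ) * |2 * (j : ℝ) - n|)
      = (n.choose j : ℝ) * |2 * (j : ℝ) - n| := by
    intro j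
    rw [← mul_assoc, Real.mul_self_sqrt (by positivity)]
  have h3 : ∀ j : ℕ, (√(n.choose j : ℝ)) ^ 2 = (n.choose j : ℝ) := fun j =>
    Real.sq_sqrt (by positivity)
  have h4 : ∀ j : ℕ, (√(n.choose j : ℝ) * |2 * (j : ℝ) - n|) ^ 2
      = (n.choose j : ℝ) * (2 * (j : ℝ) - n) ^ 2 := by
    intro j
    rw [mul_pow, h3, sq_abs]
  simp only [h2, h3, h4] at h1
  rw [second_moment] at h1
  have h5 : ∑ j ∈ range (n + 1), (n.choose j : ℝ) = 2 ^ n := by
    exact_mod_cast Nat.sum_range_choose n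
  rw [h5] at h1
  have h6 : (2 : ℝ) ^ n * (n * 2 ^ n) = (√n * 2 ^ n) ^ 2 := by
    rw [mul_pow, Real.sq_sqrt (by positivity)]
    ring
  rw [h6] at h1
  exact (le_abs_self _).trans (abs_le_of_sq_le_sq h1 (by positivity))

theorem II_bound (f : ℝ → ℝ) (hf : ∀ x, |f x| ≤ 1) (w : ℝ) (m : ℕ) (x : ℝ) :
    |II f w m x| ≤ 2 / √((m : ℝ) + 1) := by
  have h1 := II_closed f w m x
  have h2 := abel m (fun j => f (x + j * w))
  have h3 : ∑ j ∈ range (m + 1), (m.choose j : ℝ) * (f (x + (j + 1) * w) - f (x + j * w))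
      = ∑ j ∈ range (m + 1), (m.choose j : ℝ) * (f (x + ((j + 1 : ℕ) : ℝ) * w) - f (x + j * w)) := by
    refine sum_congr rfl (fun j _ => ?_)
    push_cast
    rfl
  rw [h3] at h1
  rw [← h1] at h2
  have h4 : |((m : ℝ) + 1) * (2 ^ m * II f w m x)| ≤ √((m + 1 : ℕ) : ℝ) * 2 ^ (m + 1) := by
    rw [h2]
    refine (abs_sum_le_sum_abs _ _).trans ?_
    refine le_trans (sum_le_sum (fun j _ => ?_)) (first_moment (m + 1))
    rw [abs_mul, abs_mul, abs_of_nonneg (by positivity : (0 : ℝ) ≤ ((m + 1).choose j : ℝ))]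
    push_cast
    exact mul_le_of_le_one_right (by positivity) (hf _)
  have hs : 0 < √((m : ℝ) + 1) := Real.sqrt_pos.2 (by positivity)
  have hss : √((m : ℝ) + 1) * √((m : ℝ) + 1) = (m : ℝ) + 1 := Real.mul_self_sqrt (by positivity)
  rw [abs_mul, abs_mul, abs_of_pos (by positivity : (0 : ℝ) < (m : ℝ) + 1),
    abs_of_pos (by positivity : (0 : ℝ) < 2 ^ m)] at h4
  push_cast at h4
  rw [le_div_iff₀ hs]
  have h5 : √((m : ℝ) + 1) * 2 ^ m * (|II f w m x| * √((m : ℝ) + 1))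
      ≤ √((m : ℝ) + 1) * 2 ^ m * 2 := by
    calc √((m : ℝ) + 1) * 2 ^ m * (|II f w m x| * √((m : ℝ) + 1))
        = (√((m : ℝ) + 1) * √((m : ℝ) + 1)) * (2 ^ m * |II f w m x|) := by ring
      _ = ((m : ℝ) + 1) * (2 ^ m * |II f w m x|) := by rw [hss]
      _ ≤ √((m : ℝ) + 1) * 2 ^ (m + 1) := h4
      _ = √((m : ℝ) + 1) * 2 ^ m * 2 := by ring
  exact le_of_mul_le_mul_left h5 (by positivity)

/-- The numerical recursion. -/
lemma rec_ineq {a : ℝ} (ha : 1 ≤ a) : 1 / √(a + 1) / 2 + 1 / √a / 2 ≤ 1 / √(a + 1 / 4) := by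
  have h0 : 0 ≤ 1 / √(a + 1 / 4) := by positivity
  refine (le_abs_self _).trans (abs_le_of_sq_le_sq ?_ h0)
  have e1 : (1 / √(a + 1)) ^ 2 = 1 / (a + 1) := by
    rw [div_pow, one_pow, Real.sq_sqrt (by linarith)]
  have e2 : (1 / √a) ^ 2 = 1 / a := by
    rw [div_pow, one_pow, Real.sq_sqrt (by linarith)]
  have e3 : (1 / √(a + 1 / 4)) ^ 2 = 1 / (a + 1 / 4) := by
    rw [div_pow, one_pow, Real.sq_sqrt (by linarith)]
  rw [e3]
  have e4 : (1 / √(a + 1) / 2 + 1 / √a / 2) ^ 2 ≤ ((1 / √(a + 1)) ^ 2 + (1 / √a) ^ 2) / 2 := by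
    nlinarith [sq_nonneg (1 / √(a + 1) - 1 / √a)]
  refine e4.trans ?_
  rw [e1, e2]
  rw [div_add_div _ _ (by linarith) (by linarith), div_div, div_le_div_iff₀ (by positivity)
    (by positivity)]
  nlinarith

end Pool.Agent.H91.BC
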