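import Pool.Agent.H91.BC.Smooth

/-! The weak central limit theorem for the Bernoulli convolutions near one. -/

set_option autoImplicit false
open MeasureTheory ProbabilityTheory Filter Topology Set
open scoped ENNReal NNReal

namespace Pool.Agent.H91.BC

lemma cos_exp (a : ℝ) : |Real.cos a - Real.exp (-(a ^ 2 / 2))| ≤ 2 * a ^ 4 := by
  by_cases ha : |a| ≤ 1
  · have h1 := Real.cos_bound ha
    have h2 : a ^ 2 ≤ 1 := by
      rw [← sq_abs]
      exact pow_le_one₀ (abs_nonneg a) ha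
    have h3 : |(-(a ^ 2 / 2))| ≤ 1 := by
      rw [abs_neg, abs_of_nonneg (by positivity)]
      linarith
    have h4 := Real.abs_exp_sub_one_sub_id_le h3
    have h5 : |a| ^ 4 = a ^ 4 := by
      rw [show (4 : ℕ) = 2 * 2 by norm_num, pow_mul, pow_mul, sq_abs]
    rw [h5] at h1
    have h6 : (-(a ^ 2 / 2)) ^ 2 = a ^ 4 / 4 := by ring
    rw [h6] at h4
    rw [abs_le] at h1 h4 ⊢
    have h7 : 0 ≤ a ^ 4 := by positivity
    constructor <;> linarith [h1.1, h1.2, h4.1, h4.2]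
  · rw [not_le] at ha
    have h1 : 1 ≤ a ^ 4 := by
      have h5 : |a| ^ 4 = a ^ 4 := by
        rw [show (4 : ℕ) = 2 * 2 by norm_num, pow_mul, pow_mul, sq_abs]
      rw [← h5]
      exact one_le_pow₀ ha.le
    have h2 := Real.abs_cos_le_one a
    have h3 : Real.exp (-(a ^ 2 / 2)) ≤ 1 := Real.exp_le_one_iff.2 (by
      have : 0 ≤ a ^ 2 := sq_nonneg a
      linarith)
    have h4 := Real.exp_pos (-(a ^ 2 / 2))
    rw [abs_le] at h2 ⊢
    constructor <;> linarith [h2.1, h2.2]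

lemma prod_diff (z w : ℕ → ℝ) (hz : ∀ i, |z i| ≤ 1) (hw : ∀ i, |w i| ≤ 1) (n : ℕ) :
    |∏ i ∈ Finset.range n, z i - ∏ i ∈ Finset.range n, w i|
      ≤ ∑ i ∈ Finset.range n, |z i - w i| := by
  induction n with
  | zero => simp
  | succ n ih =>
    rw [Finset.prod_range_succ, Finset.prod_range_succ, Finset.sum_range_succ]
    have h1 : (∏ i ∈ Finset.range n, z i) * z n - (∏ i ∈ Finset.range n, w i) * w n
        = (∏ i ∈ Finset.range n, z i - ∏ i ∈ Finset.range n, w i) * z n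
          + (∏ i ∈ Finset.range n, w i) * (z n - w n) := by ring
    rw [h1]
    refine (abs_add_le _ _).trans ?_
    rw [abs_mul, abs_mul]
    have h2 : |∏ i ∈ Finset.range n, w i| ≤ 1 := by
      rw [Finset.abs_prod]
      exact Finset.prod_le_one (fun i _ => abs_nonneg _) (fun i _ => hw i)
    have h3 := hz n
    have h4 : |∏ i ∈ Finset.range n, z i - ∏ i ∈ Finset.range n, w i| * |z n|
        ≤ ∑ i ∈ Finset.range n, |z i - w i| :=
      (mul_le_of_le_one_right (abs_nonneg _) h3).trans ih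
    have h5 : |∏ i ∈ Finset.range n, w i| * |z n - w n| ≤ |z n - w n| :=
      mul_le_of_le_one_left (abs_nonneg _) h2
    linarith

/-- The normalised Bernoulli convolution. -/
noncomputable def zlaw (t : ℝ) : Measure ℝ := (nu t).map (fun y => √(1 - t ^ 2) * y)

lemma zlaw_prob {t : ℝ} (h0 : 0 < t) (h1 : t < 1) : IsProbabilityMeasure (zlaw t) := by
  have := nu_prob h0 h1
  exact Measure.isProbabilityMeasure_map (by fun_prop)

lemma charFun_zlaw {t : ℝ} (h0 : 0 < t) (h1 : t < 1) (x : ℝ) :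
    ‖charFun (zlaw t) x - Complex.exp (-(x ^ 2 / 2 : ℝ))‖ ≤ 2 * ((1 - t ^ 2) * x ^ 4) := by
  set s : ℝ := √(1 - t ^ 2) with hs
  have ht2 : t ^ 2 < 1 := pow_lt_one₀ h0.le h1 (by norm_num)
  have hs2 : s ^ 2 = 1 - t ^ 2 := Real.sq_sqrt (by linarith)
  have e0 : charFun (zlaw t) x = charFun (nu t) (s * x) := by
    unfold zlaw
    rw [show (fun y : ℝ => √(1 - t ^ 2) * y) = (s * ·) from rfl, charFun_map_mul]
  rw [e0]
  have e1 : Tendsto (fun n => ∏ i ∈ Finset.range n, (Real.cos (t ^ i * (s * x)) : ℂ)) atTop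
      (𝓝 (charFun (nu t) (s * x))) := tendsto_prod_cos h0 h1 (s * x)
  set a : ℕ → ℝ := fun i => t ^ i * (s * x) with ha
  have hsum2 : HasSum (fun i => a i ^ 2 / 2) (x ^ 2 / 2) := by
    have g1 := (hasSum_geometric_of_lt_one (sq_nonneg t) ht2).mul_left ((s * x) ^ 2 / 2)
    have g2 : (s * x) ^ 2 / 2 * (1 - t ^ 2)⁻¹ = x ^ 2 / 2 := by
      rw [mul_pow, hs2]
      have : (1 - t ^ 2) ≠ 0 := by linarith
      field_simp
    rw [g2] at g1
    refine g1.congr_fun (fun i => ?_)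
    simp only [ha]
    rw [mul_pow, ← pow_mul, ← pow_mul]
    ring
  have hsum4 : ∀ n, ∑ i ∈ Finset.range n, a i ^ 4 ≤ (1 - t ^ 2) * x ^ 4 := by
    intro n
    have g1 : ∀ i, a i ^ 4 ≤ (t ^ 2) ^ i * ((1 - t ^ 2) ^ 2 * x ^ 4) := by
      intro i
      simp only [ha]
      have g2 : (t ^ i * (s * x)) ^ 4 = (t ^ 2) ^ i * (t ^ 2) ^ i * ((s ^ 2) ^ 2 * x ^ 4) := by
        ring
      rw [g2, hs2]
      have g3 : (t ^ 2) ^ i ≤ 1 := pow_le_one₀ (sq_nonneg t) ht2.le
      have g4 : 0 ≤ (t ^ 2) ^ i := by positivity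
      have g5 : 0 ≤ (1 - t ^ 2) ^ 2 * x ^ 4 := by positivity
      exact mul_le_mul_of_nonneg_right (mul_le_of_le_one_left g4 g3) g5
    calc ∑ i ∈ Finset.range n, a i ^ 4
        ≤ ∑ i ∈ Finset.range n, (t ^ 2) ^ i * ((1 - t ^ 2) ^ 2 * x ^ 4) :=
          Finset.sum_le_sum (fun i _ => g1 i)
      _ = (∑ i ∈ Finset.range n, (t ^ 2) ^ i) * ((1 - t ^ 2) ^ 2 * x ^ 4) := by
          rw [Finset.sum_mul]
      _ ≤ (1 - t ^ 2)⁻¹ * ((1 - t ^ 2) ^ 2 * x ^ 4) := by
          refine mul_le_mul_of_nonneg_right ?_ (by positivity)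
          have := (hasSum_geometric_of_lt_one (sq_nonneg t) ht2)
          exact sum_le_hasSum _ (fun i _ => by positivity) this
      _ = (1 - t ^ 2) * x ^ 4 := by
          have : (1 - t ^ 2) ≠ 0 := by linarith
          field_simp
  have e2 : Tendsto (fun n => Complex.exp (-((∑ i ∈ Finset.range n, a i ^ 2 / 2 : ℝ) : ℂ))) atTop
      (𝓝 (Complex.exp (-((x ^ 2 / 2 : ℝ) : ℂ)))) := by
    have g1 := hsum2.tendsto_sum_nat
    have g2 : Continuous (fun y : ℝ => Complex.exp (-(y : ℂ))) := by fun_prop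
    exact (g2.tendsto _).comp g1
  refine le_of_tendsto (e1.sub e2).norm (Eventually.of_forall (fun n => ?_))
  have e3 : (∏ i ∈ Finset.range n, (Real.cos (t ^ i * (s * x)) : ℂ))
      - Complex.exp (-((∑ i ∈ Finset.range n, a i ^ 2 / 2 : ℝ) : ℂ))
      = ((∏ i ∈ Finset.range n, Real.cos (a i)
        - ∏ i ∈ Finset.range n, Real.exp (-(a i ^ 2 / 2)) : ℝ) : ℂ) := by
    have g1 : ∏ i ∈ Finset.range n, Real.exp (-(a i ^ 2 / 2))
        = Real.exp (-(∑ i ∈ Finset.range n, a i ^ 2 / 2)) := by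
      rw [← Real.exp_sum, Finset.sum_neg_distrib]
    rw [g1, Complex.ofReal_sub, Complex.ofReal_prod, Complex.ofReal_exp, Complex.ofReal_neg]
  rw [e3, Complex.norm_real, Real.norm_eq_abs]
  refine (prod_diff _ _ (fun i => Real.abs_cos_le_one _) (fun i => ?_) n).trans ?_
  · rw [abs_of_pos (Real.exp_pos _)]
    exact Real.exp_le_one_iff.2 (by
      have : 0 ≤ a i ^ 2 := sq_nonneg _
      linarith)
  · refine (Finset.sum_le_sum (fun i _ => cos_exp (a i))).trans ?_
    rw [← Finset.mul_sum]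
    exact mul_le_mul_of_nonneg_left (hsum4 n) (by norm_num)

/-- The normalised law as a bundled probability measure. -/
noncomputable def zpm (t : ℝ) (h0 : 0 < t) (h1 : t < 1) : ProbabilityMeasure ℝ :=
  ⟨zlaw t, zlaw_prob h0 h1⟩

/-- The standard Gaussian as a bundled probability measure. -/
noncomputable def gpm : ProbabilityMeasure ℝ := ⟨gaussianReal 0 1, inferInstance⟩

/-- Weak convergence to the Gaussian law along sequences tending to one. -/
lemma weak_clt {t : ℕ → ℝ} (h0 : ∀ n, 0 < t n) (h1 : ∀ n, t n < 1)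
    (ht : Tendsto t atTop (𝓝 1)) :
    Tendsto (fun n => zpm (t n) (h0 n) (h1 n)) atTop (𝓝 gpm) := by
  refine ProbabilityMeasure.tendsto_of_tendsto_charFun (fun x => ?_)
  have e1 : charFun (gpm : Measure ℝ) x = Complex.exp (-(x ^ 2 / 2 : ℝ)) := by
    change charFun (gaussianReal 0 1) x = _
    rw [charFun_gaussianReal]
    congr 1
    push_cast
    ring
  rw [e1, tendsto_iff_norm_sub_tendsto_zero]
  refine squeeze_zero (fun n => norm_nonneg _) (fun n => charFun_zlaw (h0 n) (h1 n) x) ?_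
  have e2 : Tendsto (fun n => 2 * ((1 - t n ^ 2) * x ^ 4)) atTop
      (𝓝 (2 * ((1 - 1 ^ 2) * x ^ 4))) :=
    (((tendsto_const_nhds.sub (ht.pow 2)).mul_const _).const_mul _)
  simpa using e2

end Pool.Agent.H91.BC
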