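import Pool.Agent.H91.BC.Main

/-! Decomposition of a law into a part of bounded density and a small part. -/

set_option autoImplicit false
open MeasureTheory ProbabilityTheory Filter Topology Set
open scoped ENNReal NNReal

namespace Pool.Agent.H91.BC

/-- A part of density at most K plus a part of mass at most eta. -/
def Dec (ρ : Measure ℝ) (K η : ℝ≥0∞) : Prop :=
  ∃ α β : Measure ℝ, ρ = α + β ∧ α ≤ K • (volume : Measure ℝ) ∧ β univ ≤ η

lemma Dec.bound {ρ : Measure ℝ} {K η : ℝ≥0∞} (h : Dec ρ K η) (s : Set ℝ) :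
    ρ s ≤ K * volume s + η := by
  obtain ⟨α, β, h1, h2, h3⟩ := h
  rw [h1, Measure.add_apply]
  refine add_le_add ?_ ((measure_mono (subset_univ s)).trans h3)
  have := h2 s
  simpa using this

lemma Dec.mono {ρ : Measure ℝ} {K η K' η' : ℝ≥0∞} (h : Dec ρ K η) (hK : K ≤ K') (hη : η ≤ η') :
    Dec ρ K' η' := by
  obtain ⟨α, β, h1, h2, h3⟩ := h
  refine ⟨α, β, h1, h2.trans ?_, h3.trans hη⟩
  refine Measure.le_iff.2 (fun s hs => ?_)
  simp only [Measure.smul_apply, smul_eq_mul]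
  gcongr

/-- Convolution with a finite measure keeps a density bound. -/
lemma conv_le {μ τ : Measure ℝ} [SFinite μ] [SFinite τ] {K : ℝ≥0∞}
    (h : μ ≤ K • (volume : Measure ℝ)) : μ ∗ τ ≤ (K * τ univ) • (volume : Measure ℝ) := by
  rw [Measure.conv_comm]
  refine Measure.le_iff.2 (fun s hs => ?_)
  rw [← lintegral_indicator_one hs, Measure.lintegral_conv (measurable_one.indicator hs)]
  have h1 : ∀ x : ℝ, ∫⁻ y, s.indicator 1 (x + y) ∂μ ≤ K * volume s := by
    intro x
    have h2 : ∫⁻ y, s.indicator (1 : ℝ → ℝ≥0∞) (x + y) ∂μ = μ ((fun y => x + y) ⁻¹' s) := by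
      rw [← lintegral_indicator_one ((measurable_const_add x) hs)]
      rfl
    rw [h2]
    have h3 := h ((fun y => x + y) ⁻¹' s)
    simp only [Measure.smul_apply, smul_eq_mul] at h3
    rw [measure_preimage_add (volume : Measure ℝ) x s] at h3
    exact h3
  calc ∫⁻ x, ∫⁻ y, s.indicator 1 (x + y) ∂μ ∂τ ≤ ∫⁻ _x, K * volume s ∂τ := lintegral_mono h1
    _ = K * volume s * τ univ := by rw [lintegral_const]
    _ = ((K * τ univ) • (volume : Measure ℝ)) s := by
      simp only [Measure.smul_apply, smul_eq_mul]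
      ring

lemma conv_univ (μ τ : Measure ℝ) [SFinite μ] [SFinite τ] : (μ ∗ τ) univ = μ univ * τ univ := by
  rw [Measure.conv, Measure.map_apply (by fun_prop) MeasurableSet.univ, preimage_univ,
      ← univ_prod_univ, Measure.prod_prod]

lemma Dec.conv {ρ₁ ρ₂ : Measure ℝ} [IsProbabilityMeasure ρ₁] [IsProbabilityMeasure ρ₂]
    {K₁ K₂ η₁ η₂ : ℝ≥0∞} (h₁ : Dec ρ₁ K₁ η₁) (h₂ : Dec ρ₂ K₂ η₂) :
    Dec (ρ₁ ∗ ρ₂) (K₁ + K₂ * η₁) (η₁ * η₂) := by
  obtain ⟨α₁, β₁, e1, e2, e3⟩ := h₁
  obtain ⟨α₂, β₂, f1, f2, f3⟩ := h₂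
  have i1 : IsFiniteMeasure α₁ := isFiniteMeasure_of_le ρ₁ (by rw [e1]; exact Measure.le_add_right le_rfl)
  have i2 : IsFiniteMeasure β₁ := isFiniteMeasure_of_le ρ₁ (by rw [e1]; exact Measure.le_add_left le_rfl)
  have i3 : IsFiniteMeasure α₂ := isFiniteMeasure_of_le ρ₂ (by rw [f1]; exact Measure.le_add_right le_rfl)
  have i4 : IsFiniteMeasure β₂ := isFiniteMeasure_of_le ρ₂ (by rw [f1]; exact Measure.le_add_left le_rfl)
  refine ⟨α₁ ∗ ρ₂ + β₁ ∗ α₂, β₁ ∗ β₂, ?_, ?_, ?_⟩
  · rw [add_assoc, ← Measure.conv_add, ← f1, ← Measure.add_conv, ← e1]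
  · rw [add_smul]
    refine add_le_add ?_ ?_
    · have := conv_le (τ := ρ₂) e2
      rwa [measure_univ, mul_one] at this
    · rw [Measure.conv_comm]
      refine (conv_le (τ := β₁) f2).trans ?_
      refine Measure.le_iff.2 (fun s hs => ?_)
      simp only [Measure.smul_apply, smul_eq_mul]
      gcongr
  · rw [conv_univ]
    exact mul_le_mul' e3 f3

lemma Dec.scale {ρ : Measure ℝ} {K η : ℝ≥0∞} (h : Dec ρ K η) {c : ℝ} (hc : 1 / 2 ≤ c) :
    Dec (ρ.map (fun y => c * y)) (2 * K) η := by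
  obtain ⟨α, β, h1, h2, h3⟩ := h
  refine ⟨α.map (fun y => c * y), β.map (fun y => c * y), ?_, ?_, ?_⟩
  · rw [h1, Measure.map_add _ _ (by fun_prop)]
  · have hc0 : c ≠ 0 := by linarith
    have e1 : α.map (fun y => c * y) ≤ (K • (volume : Measure ℝ)).map (fun y => c * y) :=
      Measure.map_mono h2 (by fun_prop)
    refine e1.trans ?_
    rw [Measure.map_smul]
    have e2 := Real.map_volume_mul_left hc0
    rw [show (fun y : ℝ => c * y) = (c * ·) from rfl, e2, smul_smul, mul_comm 2 K]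
    refine Measure.le_iff.2 (fun s hs => ?_)
    simp only [Measure.smul_apply, smul_eq_mul]
    gcongr
    rw [abs_of_pos (by positivity)]
    have e3 : c⁻¹ ≤ 2 := by
      rw [inv_le_comm₀ (by linarith) (by norm_num)]
      linarith
    calc ENNReal.ofReal c⁻¹ ≤ ENNReal.ofReal 2 := ENNReal.ofReal_le_ofReal e3
      _ = 2 := by simp
  · rw [Measure.map_apply (by fun_prop) MeasurableSet.univ, preimage_univ]
    exact h3

/-- Iterated convolution. -/
noncomputable def convs : (k : ℕ) → (Fin k → Measure ℝ) → Measure ℝ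
  | 0, _ => Measure.dirac 0
  | k + 1, ρ => (ρ 0) ∗ (convs k (fun i => ρ i.succ))

lemma convs_prob : ∀ (k : ℕ) (ρ : Fin k → Measure ℝ), (∀ i, IsProbabilityMeasure (ρ i)) →
    IsProbabilityMeasure (convs k ρ) := by
  intro k
  induction k with
  | zero => intro ρ _; unfold convs; infer_instance
  | succ k ih =>
    intro ρ h
    have h0 := h 0
    have h1 := ih (fun i => ρ i.succ) (fun i => h i.succ)
    unfold convs
    infer_instance

lemma charFun_convs : ∀ (k : ℕ) (ρ : Fin k → Measure ℝ), (∀ i, IsProbabilityMeasure (ρ i)) →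
    ∀ x : ℝ, charFun (convs k ρ) x = ∏ i, charFun (ρ i) x := by
  intro k
  induction k with
  | zero => intro ρ _ x; simp [convs]
  | succ k ih =>
    intro ρ h x
    have h0 := h 0
    have h1 := convs_prob k (fun i => ρ i.succ) (fun i => h i.succ)
    rw [Fin.prod_univ_succ, ← ih (fun i => ρ i.succ) (fun i => h i.succ) x]
    change charFun ((ρ 0) ∗ (convs k (fun i => ρ i.succ))) x = _
    rw [charFun_conv]

lemma Dec_convs {K C η : ℝ≥0∞} (hC : K + C * η ≤ C) :
    ∀ (k : ℕ) (ρ : Fin k → Measure ℝ), (∀ i, IsProbabilityMeasure (ρ i)) →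
    (∀ i, Dec (ρ i) K η) → Dec (convs k ρ) C (η ^ k) := by
  intro k
  induction k with
  | zero =>
    intro ρ _ _
    refine ⟨0, Measure.dirac 0, by simp [convs], Measure.zero_le _, by simp⟩
  | succ k ih =>
    intro ρ h hd
    have h0 := h 0
    have h1 := convs_prob k (fun i => ρ i.succ) (fun i => h i.succ)
    have h2 := (hd 0).conv (ih (fun i => ρ i.succ) (fun i => h i.succ) (fun i => hd i.succ))
    rw [← pow_succ'] at h2
    exact h2.mono hC le_rfl

/-- The Bernoulli convolution is the convolution of k scaled copies for the k-th power. -/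
lemma nu_eq_convs {t : ℝ} (h0 : 0 < t) (h1 : t < 1) {k : ℕ} (hk : 1 ≤ k) :
    nu t = convs k (fun i => (nu (t ^ k)).map (fun y => t ^ (i : ℕ) * y)) := by
  have hk0 : 0 < t ^ k := pow_pos h0 k
  have hk1 : t ^ k < 1 := pow_lt_one₀ h0.le h1 (by omega)
  have hp := nu_prob h0 h1
  have hpk := nu_prob hk0 hk1
  have hpi : ∀ i : Fin k, IsProbabilityMeasure ((nu (t ^ k)).map (fun y => t ^ (i : ℕ) * y)) :=
    fun i => Measure.isProbabilityMeasure_map (by fun_prop)
  have hpc := convs_prob k _ hpi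
  refine Measure.ext_of_charFun ?_
  funext x
  rw [charFun_convs k _ hpi]
  have : NeZero k := ⟨by omega⟩
  have e1 : HasProd (fun n : ℕ => (Real.cos (t ^ n * x) : ℂ)) (charFun (nu t) x) :=
    hasProd_charFun (summable_geo h0 h1) x
  have e2 : HasProd ((fun n : ℕ => (Real.cos (t ^ n * x) : ℂ)) ∘
      ((Equiv.prodComm (Fin k) ℕ).trans (Nat.divModEquiv k).symm)) (charFun (nu t) x) :=
    (Equiv.hasProd_iff _).2 e1
  have e3 : ∀ i : Fin k, HasProd (fun m : ℕ => ((fun n : ℕ => (Real.cos (t ^ n * x) : ℂ)) ∘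
      ((Equiv.prodComm (Fin k) ℕ).trans (Nat.divModEquiv k).symm)) (i, m))
      (charFun ((nu (t ^ k)).map (fun y => t ^ (i : ℕ) * y)) x) := by
    intro i
    rw [show (fun y : ℝ => t ^ (i : ℕ) * y) = (t ^ (i : ℕ) * ·) from rfl, charFun_map_mul]
    have e4 := hasProd_charFun (summable_geo hk0 hk1) (t ^ (i : ℕ) * x)
    have e5 : (fun m : ℕ => ((fun n : ℕ => (Real.cos (t ^ n * x) : ℂ)) ∘
        ((Equiv.prodComm (Fin k) ℕ).trans (Nat.divModEquiv k).symm)) (i, m))
        = (fun m : ℕ => (Real.cos ((t ^ k) ^ m * (t ^ (i : ℕ) * x)) : ℂ)) := by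
      funext m
      have e6 : ((Equiv.prodComm (Fin k) ℕ).trans (Nat.divModEquiv k).symm) (i, m)
          = m * k + (i : ℕ) := rfl
      simp only [Function.comp]
      rw [e6, ← pow_mul, ← mul_assoc, ← pow_add]
      congr 3
      ring
    rw [e5]
    exact e4
  have e5 := e2.prod_fiberwise e3
  exact e5.unique (hasProd_fintype _)

end Pool.Agent.H91.BC
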