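import Pool.Agent.H91.BC.Pure

/-! Singularity is a G-delta condition on the parameters. -/

set_option autoImplicit false
open MeasureTheory ProbabilityTheory Filter Topology Set
open scoped ENNReal NNReal

namespace Pool.Agent.H91.BC

section
variable {X : Type*} [TopologicalSpace X] {ι : Type} {B : Set X} {a : X → ι → ℝ}

/-- local domination -/
def LD (B : Set X) (a : X → ι → ℝ) : Prop :=
  ∀ p ∈ B, ∃ W ∈ 𝓝 p, ∃ u : ι → ℝ, Summable u ∧ ∀ q ∈ W, ∀ i, |a q i| ≤ u i

lemma LD.summable (hd : LD B a) {p : X} (hp : p ∈ B) : Summable (a p) := by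
  obtain ⟨W, hW, u, hu, h⟩ := hd p hp
  exact Summable.of_norm_bounded hu (fun i => by
    rw [Real.norm_eq_abs]; exact h p (mem_of_mem_nhds hW) i)

lemma LD.continuousAt (hB : IsOpen B) (hc : ∀ i, ContinuousOn (fun p => a p i) B)
    (hd : LD B a) {p : X} (hp : p ∈ B) (ω : ι → Bool) :
    ContinuousAt (fun q => ser (a q) ω) p := by
  obtain ⟨W, hW, u, hu, h⟩ := hd p hp
  have h1 : ContinuousOn (fun q => ser (a q) ω) (B ∩ W) := by
    unfold ser
    refine continuousOn_tsum (u := u) (fun i => ?_) hu (fun i q hq => ?_)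
    · exact continuousOn_const.mul ((hc i).mono inter_subset_left)
    · rw [Real.norm_eq_abs, abs_sgn_mul]
      exact h q hq.2 i
  exact h1.continuousAt (inter_mem (hB.mem_nhds hp) hW)

lemma law_open_lsc [FirstCountableTopology X] [Countable ι] (hB : IsOpen B)
    (hc : ∀ i, ContinuousOn (fun p => a p i) B) (hd : LD B a) {U : Set ℝ} (hU : IsOpen U)
    {p : X} (hp : p ∈ B) {c : ℝ≥0∞} (h : c < law (a p) U) :
    ∀ᶠ q in 𝓝 p, q ∈ B ∧ c < law (a q) U := by
  by_contra hcon
  have h1 : ∃ᶠ q in 𝓝 p, q ∈ B ∧ law (a q) U ≤ c := by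
    have h2 : ∃ᶠ q in 𝓝 p, ¬(q ∈ B ∧ c < law (a q) U) := not_eventually.1 hcon
    refine (h2.and_eventually (hB.mem_nhds hp)).mono (fun q hq => ?_)
    refine ⟨hq.2, ?_⟩
    by_contra h3
    exact hq.1 ⟨hq.2, not_le.1 h3⟩
  obtain ⟨x, hx, hxB⟩ := exists_seq_forall_of_frequently h1
  have e1 : ∀ q ∈ B, law (a q) U = ∫⁻ ω, U.indicator (fun _ => (1 : ℝ≥0∞)) (ser (a q) ω)
      ∂(Measure.infinitePi (fun _ : ι => (PMF.uniformOfFintype Bool).toMeasure)) := by
    intro q hq
    unfold law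
    rw [Measure.map_apply (measurable_ser (hd.summable hq)) hU.measurableSet]
    rw [← lintegral_indicator_one ((measurable_ser (hd.summable hq)) hU.measurableSet)]
    rfl
  have e2 : law (a p) U ≤ c := by
    rw [e1 p hp]
    calc ∫⁻ ω, U.indicator (fun _ => (1 : ℝ≥0∞)) (ser (a p) ω)
          ∂(Measure.infinitePi (fun _ : ι => (PMF.uniformOfFintype Bool).toMeasure))
        ≤ ∫⁻ ω, liminf (fun n => U.indicator (fun _ => (1 : ℝ≥0∞)) (ser (a (x n)) ω)) atTop
          ∂(Measure.infinitePi (fun _ : ι => (PMF.uniformOfFintype Bool).toMeasure)) := by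
          refine lintegral_mono (fun ω => ?_)
          by_cases hω : ser (a p) ω ∈ U
          · have h4 : ∀ᶠ n in atTop, ser (a (x n)) ω ∈ U :=
              ((hd.continuousAt hB hc hp ω).tendsto.comp hx).eventually (hU.mem_nhds hω)
            change U.indicator (fun _ => (1 : ℝ≥0∞)) (ser (a p) ω) ≤ _
            rw [indicator_of_mem hω]
            refine le_liminf_of_le (by isBoundedDefault) ?_
            filter_upwards [h4] with n hn
            rw [indicator_of_mem hn]
          · change U.indicator (fun _ => (1 : ℝ≥0∞)) (ser (a p) ω) ≤ _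
            rw [indicator_of_notMem hω]
            exact bot_le
      _ ≤ liminf (fun n => ∫⁻ ω, U.indicator (fun _ => (1 : ℝ≥0∞)) (ser (a (x n)) ω)
          ∂(Measure.infinitePi (fun _ : ι => (PMF.uniformOfFintype Bool).toMeasure))) atTop := by
          refine lintegral_liminf_le (fun n => ?_)
          exact (measurable_const.indicator hU.measurableSet).comp
            (measurable_ser (hd.summable (hxB n).1))
      _ ≤ c := by
          refine liminf_le_of_le (by isBoundedDefault) (fun b hb => ?_)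
          obtain ⟨n, hn⟩ := hb.exists
          rw [← e1 (x n) (hxB n).1] at hn
          exact hn.trans (hxB n).2
  exact absurd h (not_lt.2 e2)

/-- Concentration at level n. -/
def Conc (ρ : Measure ℝ) (n : ℕ) : Prop :=
  ∃ U : Set ℝ, IsOpen U ∧ volume U < (2⁻¹ : ℝ≥0∞) ^ n ∧ 1 - (2⁻¹ : ℝ≥0∞) ^ n < ρ U

lemma conc_of_sing {ρ : Measure ℝ} [IsProbabilityMeasure ρ] (h : ρ ⟂ₘ volume) (n : ℕ) :
    Conc ρ n := by
  obtain ⟨s, hs, h1, h2⟩ := h
  have hpos : (0 : ℝ≥0∞) < (2⁻¹ : ℝ≥0∞) ^ n := by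
    refine ENNReal.pow_pos ?_ n
    simp
  obtain ⟨U, hsU, hU, hlt⟩ := Set.exists_isOpen_lt_of_lt sᶜ ((2⁻¹ : ℝ≥0∞) ^ n) (by rwa [h2])
  refine ⟨U, hU, hlt, ?_⟩
  have h3 : ρ sᶜ = 1 := by
    rw [prob_compl_eq_one_iff hs]
    exact h1
  refine lt_of_lt_of_le ?_ (h3.symm.le.trans (measure_mono hsU))
  exact ENNReal.sub_lt_self ENNReal.one_ne_top one_ne_zero hpos.ne'

lemma sing_of_conc {ρ : Measure ℝ} [IsProbabilityMeasure ρ] (h : ∀ n, Conc ρ n) :
    ρ ⟂ₘ volume := by
  choose U hU h1 h2 using h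
  have hsum : ∑' n : ℕ, (2⁻¹ : ℝ≥0∞) ^ n ≠ ∞ := by
    rw [ENNReal.tsum_geometric]
    simp
  have e1 : volume (limsup U atTop) = 0 := by
    refine measure_limsup_atTop_eq_zero (ne_top_of_le_ne_top hsum ?_)
    exact ENNReal.tsum_le_tsum (fun n => (h1 n).le)
  have e2 : ρ (limsup (fun n => (U n)ᶜ) atTop) = 0 := by
    refine measure_limsup_atTop_eq_zero (ne_top_of_le_ne_top hsum ?_)
    refine ENNReal.tsum_le_tsum (fun n => ?_)
    rw [prob_compl_eq_one_sub (hU n).measurableSet]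
    have h3 := (h2 n).le
    have h4 : (1 : ℝ≥0∞) ≤ ρ (U n) + (2⁻¹ : ℝ≥0∞) ^ n := tsub_le_iff_right.1 h3
    exact tsub_le_iff_left.2 h4
  have hm : MeasurableSet (limsup U atTop) :=
    MeasurableSet.measurableSet_limsup (fun n => (hU n).measurableSet)
  refine ⟨(limsup U atTop)ᶜ, hm.compl, ?_, ?_⟩
  · refine measure_mono_null ?_ e2
    intro y hy
    rw [mem_compl_iff, mem_limsup_iff_frequently_mem] at hy
    rw [mem_limsup_iff_frequently_mem]
    have h5 : ∀ᶠ n in atTop, y ∉ U n := not_frequently.1 hy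
    exact h5.frequently
  · rw [compl_compl]
    exact e1

/-- The set of parameters with a singular law is a G-delta set. -/
theorem isGδ_sing [FirstCountableTopology X] [Countable ι] (hB : IsOpen B)
    (hc : ∀ i, ContinuousOn (fun p => a p i) B) (hd : LD B a) :
    IsGδ {p | p ∈ B ∧ law (a p) ⟂ₘ volume} := by
  have h1 : {p | p ∈ B ∧ law (a p) ⟂ₘ volume} = ⋂ n : ℕ, {p | p ∈ B ∧ Conc (law (a p)) n} := by
    ext p
    simp only [mem_ofPred_eq, mem_iInter]
    constructor
    · rintro ⟨hp, hs⟩ n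
      have := law_prob (hd.summable hp)
      exact ⟨hp, conc_of_sing hs n⟩
    · intro h
      have hp := (h 0).1
      have := law_prob (hd.summable hp)
      exact ⟨hp, sing_of_conc (fun n => (h n).2)⟩
  rw [h1]
  refine IsGδ.iInter_of_isOpen (fun n => ?_)
  rw [isOpen_iff_mem_nhds]
  rintro p ⟨hp, U, hU, h2, h3⟩
  filter_upwards [law_open_lsc hB hc hd hU hp h3] with q hq
  exact ⟨hq.1, U, hU, h2, hq.2⟩

end

end Pool.Agent.H91.BC
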