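import Mathlib

/-! Laws of random signed series: characteristic function, sub-series, convolution. -/

set_option autoImplicit false
open MeasureTheory ProbabilityTheory Filter Topology Set
open scoped ENNReal

namespace Pool.Agent.H91.BC

/-- The random series: sum of plus or minus a i, the signs read from omega. -/
noncomputable def ser {ι : Type} (a : ι → ℝ) (ω : ι → Bool) : ℝ :=
  ∑' i, (if ω i then (1 : ℝ) else -1) * a i

/-- The law of the random series under independent fair signs. -/
noncomputable def law {ι : Type} (a : ι → ℝ) : Measure ℝ :=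
  Measure.map (ser a) (Measure.infinitePi (fun _ : ι => (PMF.uniformOfFintype Bool).toMeasure))

lemma abs_sgn_mul (b : Bool) (r : ℝ) : |(if b then (1 : ℝ) else -1) * r| = |r| := by
  cases b <;> simp

lemma summable_ser {ι : Type} {a : ι → ℝ} (ha : Summable a) (ω : ι → Bool) :
    Summable (fun i => (if ω i then (1 : ℝ) else -1) * a i) := by
  refine Summable.of_norm_bounded ha.abs (fun i => ?_)
  rw [Real.norm_eq_abs, abs_sgn_mul]

lemma continuous_ser {ι : Type} {a : ι → ℝ} (ha : Summable a) : Continuous (ser a) := by
  unfold ser
  refine continuous_tsum (u := fun i => |a i|) (fun i => ?_) ha.abs (fun i ω => ?_)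
  · refine Continuous.mul ?_ continuous_const
    exact (continuous_of_discreteTopology (f := fun b : Bool => if b then (1 : ℝ) else -1)).comp
      (continuous_apply i)
  · rw [Real.norm_eq_abs, abs_sgn_mul]

lemma measurable_ser {ι : Type} [Countable ι] {a : ι → ℝ} (ha : Summable a) :
    Measurable (ser a) := (continuous_ser ha).measurable

instance {ι : Type} : IsProbabilityMeasure
    (Measure.infinitePi (fun _ : ι => (PMF.uniformOfFintype Bool).toMeasure)) := inferInstance

lemma law_prob {ι : Type} [Countable ι] {a : ι → ℝ} (ha : Summable a) :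
    IsProbabilityMeasure (law a) :=
  Measure.isProbabilityMeasure_map (measurable_ser ha).aemeasurable

lemma charFun_coin (r x : ℝ) :
    charFun (Measure.map (fun b : Bool => (if b then (1 : ℝ) else -1) * r)
      (PMF.uniformOfFintype Bool).toMeasure) x = (Real.cos (r * x) : ℂ) := by
  rw [charFun_apply_real, integral_map (by fun_prop) (by fun_prop)]
  rw [PMF.integral_eq_sum]
  simp only [PMF.uniformOfFintype_apply, Fintype.card_bool, Fintype.sum_bool]
  simp only [if_true, Bool.false_eq_true, if_false]
  rw [Complex.ofReal_cos, Complex.cos]
  simp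
  ring_nf

lemma charFun_finite {ι : Type} [Countable ι] (a : ι → ℝ) (F : Finset ι) (x : ℝ) :
    charFun (Measure.map (fun ω : ι → Bool => ∑ i ∈ F, (if ω i then (1 : ℝ) else -1) * a i)
      (Measure.infinitePi (fun _ : ι => (PMF.uniformOfFintype Bool).toMeasure))) x
      = ∏ i ∈ F, (Real.cos (a i * x) : ℂ) := by
  have hX : iIndepFun (fun (i : ι) (ω : ι → Bool) => (if ω i then (1 : ℝ) else -1) * a i)
      (Measure.infinitePi (fun _ : ι => (PMF.uniformOfFintype Bool).toMeasure)) := by
    refine iIndepFun_infinitePi (P := fun _ : ι => (PMF.uniformOfFintype Bool).toMeasure)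
      (X := fun i (b : Bool) => (if b then (1 : ℝ) else -1) * a i) (fun i => ?_)
    exact measurable_of_countable _
  have h := (hX.restrict F).charFun_map_fun_finsetSum_eq_prod (fun i _ => by
    refine Measurable.aemeasurable ?_
    exact (measurable_of_countable (fun b : Bool => (if b then (1 : ℝ) else -1) * a i)).comp
      (measurable_pi_apply i))
  rw [h]
  simp only [Finset.prod_apply]
  refine Finset.prod_congr rfl (fun i _ => ?_)
  have h2 : Measure.map (fun ω : ι → Bool => (if ω i then (1 : ℝ) else -1) * a i)
      (Measure.infinitePi (fun _ : ι => (PMF.uniformOfFintype Bool).toMeasure))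
      = Measure.map (fun b : Bool => (if b then (1 : ℝ) else -1) * a i)
      (PMF.uniformOfFintype Bool).toMeasure := by
    have h3 := Measure.infinitePi_map_eval
      (fun _ : ι => (PMF.uniformOfFintype Bool).toMeasure) i
    have h4 := Measure.map_map (μ := Measure.infinitePi
      (fun _ : ι => (PMF.uniformOfFintype Bool).toMeasure))
      (g := fun b : Bool => (if b then (1 : ℝ) else -1) * a i) (f := fun ω : ι → Bool => ω i)
      (measurable_of_countable _) (measurable_pi_apply i)
    rw [h3] at h4
    rw [h4]
    rfl
  rw [h2]
  exact charFun_coin _ _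

/-- The characteristic function of the law is the product of the cosines. -/
theorem hasProd_charFun {ι : Type} [Countable ι] {a : ι → ℝ} (ha : Summable a) (x : ℝ) :
    HasProd (fun i => (Real.cos (a i * x) : ℂ)) (charFun (law a) x) := by
  unfold HasProd
  simp only [SummationFilter.unconditional_filter]
  have h1 : ∀ F : Finset ι, ∏ i ∈ F, (Real.cos (a i * x) : ℂ)
      = ∫ ω, Complex.exp (x * (∑ i ∈ F, (if ω i then (1 : ℝ) else -1) * a i : ℝ) * Complex.I)
        ∂(Measure.infinitePi (fun _ : ι => (PMF.uniformOfFintype Bool).toMeasure)) := by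
    intro F
    rw [← charFun_finite, charFun_apply_real, integral_map]
    · refine Measurable.aemeasurable (Finset.measurable_sum _ (fun i _ => ?_))
      exact (measurable_of_countable (fun b : Bool => (if b then (1 : ℝ) else -1) * a i)).comp
        (measurable_pi_apply i)
    · fun_prop
  have h2 : charFun (law a) x
      = ∫ ω, Complex.exp (x * (ser a ω : ℝ) * Complex.I)
        ∂(Measure.infinitePi (fun _ : ι => (PMF.uniformOfFintype Bool).toMeasure)) := by
    unfold law
    rw [charFun_apply_real, integral_map (measurable_ser ha).aemeasurable (by fun_prop)]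
  rw [h2]
  simp_rw [h1]
  refine tendsto_integral_filter_of_dominated_convergence (fun _ => (1 : ℝ)) ?_ ?_
    (integrable_const _) ?_
  · refine Eventually.of_forall (fun F => ?_)
    refine Measurable.aestronglyMeasurable ?_
    refine Complex.measurable_exp.comp ?_
    refine Measurable.mul_const (Measurable.const_mul ?_ _) _
    refine Complex.measurable_ofReal.comp (Finset.measurable_sum _ (fun i _ => ?_))
    exact (measurable_of_countable (fun b : Bool => (if b then (1 : ℝ) else -1) * a i)).comp
      (measurable_pi_apply i)
  · refine Eventually.of_forall (fun F => Eventually.of_forall (fun ω => ?_))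
    rw [← Complex.ofReal_mul, Complex.norm_exp_ofReal_mul_I]
  · refine Eventually.of_forall (fun ω => ?_)
    have h3 : Tendsto (fun F : Finset ι => ∑ i ∈ F, (if ω i then (1 : ℝ) else -1) * a i) atTop
        (𝓝 (ser a ω)) := (summable_ser ha ω).hasSum
    have h4 : Continuous (fun y : ℝ => Complex.exp (x * (y : ℝ) * Complex.I)) := by fun_prop
    exact (h4.tendsto _).comp h3

/-- Scaling. -/
lemma law_smul {ι : Type} [Countable ι] {a : ι → ℝ} (ha : Summable a) (c : ℝ) :
    law (fun i => c * a i) = (law a).map (fun y => c * y) := by
  unfold law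
  rw [Measure.map_map (by fun_prop) (measurable_ser ha)]
  congr 1
  funext ω
  simp only [Function.comp, ser]
  rw [← tsum_mul_left]
  refine tsum_congr (fun i => ?_)
  ring

/-- Splitting a series along an injective map. -/
theorem law_split {ι κ : Type} [Countable ι] [Countable κ] {a : κ → ℝ} (ha : Summable a)
    {f : ι → κ} (hf : Function.Injective f) :
    law a = (law (fun i => a (f i))) ∗ (law (fun k : ((range f)ᶜ : Set κ) => a k)) := by
  have h1 : Summable (fun i => a (f i)) := ha.comp_injective hf
  have h2 : Summable (fun k : ((range f)ᶜ : Set κ) => a k) := ha.subtype _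
  have := law_prob ha
  have := law_prob h1
  have := law_prob h2
  refine Measure.ext_of_charFun ?_
  funext x
  rw [charFun_conv]
  have e1 := hasProd_charFun ha x
  have e2 := hasProd_charFun h1 x
  have e3 := hasProd_charFun h2 x
  have e4 : HasProd ((fun k => (Real.cos (a k * x) : ℂ)) ∘ ((↑) : range f → κ))
      (charFun (law (fun i => a (f i))) x) := by
    exact (hf.hasProd_range_iff (f := fun k => (Real.cos (a k * x) : ℂ))).2 e2
  exact e1.unique (e4.mul_compl e3)

/-- Reindexing by an equivalence. -/
theorem law_equiv {ι κ : Type} [Countable ι] [Countable κ] {a : κ → ℝ} (ha : Summable a)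
    (e : ι ≃ κ) : law (fun i => a (e i)) = law a := by
  have h1 : Summable (fun i => a (e i)) := ha.comp_injective e.injective
  have := law_prob ha
  have := law_prob h1
  refine Measure.ext_of_charFun ?_
  funext x
  have e1 := hasProd_charFun ha x
  have e2 := hasProd_charFun h1 x
  exact e2.unique ((e.hasProd_iff (f := fun k => (Real.cos (a k * x) : ℂ))).2 e1)

/-- If a sub-series has an absolutely continuous law, so has the series. -/
theorem ac_of_sub {ι κ : Type} [Countable ι] [Countable κ] {a : κ → ℝ} (ha : Summable a)
    {f : ι → κ} (hf : Function.Injective f) (h : law (fun i => a (f i)) ≪ volume) :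
    law a ≪ volume := by
  have h1 : Summable (fun i => a (f i)) := ha.comp_injective hf
  have h2 : Summable (fun k : ((range f)ᶜ : Set κ) => a k) := ha.subtype _
  have := law_prob h1
  have := law_prob h2
  rw [law_split ha hf, Measure.conv_comm]
  exact Measure.conv_absolutelyContinuous h

/-- If the law of the series is singular, so is the law of every sub-series. -/
theorem sing_sub {ι κ : Type} [Countable ι] [Countable κ] {a : κ → ℝ} (ha : Summable a)
    {f : ι → κ} (hf : Function.Injective f) (h : law a ⟂ₘ volume) :
    law (fun i => a (f i)) ⟂ₘ volume := by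
  have h1 : Summable (fun i => a (f i)) := ha.comp_injective hf
  have h2 : Summable (fun k : ((range f)ᶜ : Set κ) => a k) := ha.subtype _
  have := law_prob h1
  have := law_prob h2
  set ρ := law (fun i => a (f i)) with hρ
  set τ := law (fun k : ((range f)ᶜ : Set κ) => a k) with hτ
  set α : Measure ℝ := volume.withDensity (ρ.rnDeriv volume) with hα
  have hdec : ρ = ρ.singularPart volume + α := Measure.haveLebesgueDecomposition_add ρ volume
  have hαac : α ≪ volume := withDensity_absolutelyContinuous _ _
  have : IsFiniteMeasure α := by
    refine isFiniteMeasure_of_le ρ ?_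
    conv_rhs => rw [hdec]
    exact Measure.le_add_left le_rfl
  have hsplit : law a = τ ∗ ρ := by rw [law_split ha hf, Measure.conv_comm]
  have h3 : τ ∗ α ≪ volume := Measure.conv_absolutelyContinuous hαac
  have h4 : τ ∗ α ≤ law a := by
    rw [hsplit]
    conv_rhs => rw [hdec]
    rw [Measure.conv_add]
    exact Measure.le_add_left le_rfl
  have h5 : τ ∗ α ⟂ₘ volume := h.mono_ac (Measure.absolutelyContinuous_of_le h4)
    Measure.AbsolutelyContinuous.rfl
  have h6 : τ ∗ α = 0 := Measure.eq_zero_of_absolutelyContinuous_of_mutuallySingular h3 h5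
  have h7 : α univ = 0 := by
    have h8 : (τ ∗ α) univ = 0 := by rw [h6]; rfl
    rw [Measure.conv, Measure.map_apply (by fun_prop) MeasurableSet.univ, preimage_univ,
      ← univ_prod_univ, Measure.prod_prod, measure_univ, one_mul] at h8
    exact h8
  rw [Measure.measure_univ_eq_zero] at h7
  rw [hdec, h7, add_zero]
  exact Measure.mutuallySingular_singularPart _ _

end Pool.Agent.H91.BC
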