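import Pool.Agent.H91.BC.Near

/-! The equivalences. -/

set_option autoImplicit false
open MeasureTheory ProbabilityTheory Filter Topology Set
open scoped ENNReal NNReal

namespace Pool.Agent.H91.BC

lemma nu_prob {t : ℝ} (h0 : 0 < t) (h1 : t < 1) : IsProbabilityMeasure (nu t) :=
  law_prob (summable_geo h0 h1)

lemma not_both {ρ : Measure ℝ} [IsProbabilityMeasure ρ] (h1 : ρ ≪ volume) (h2 : ρ ⟂ₘ volume) :
    False := by
  have h3 := Measure.eq_zero_of_absolutelyContinuous_of_mutuallySingular h1 h2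
  exact IsProbabilityMeasure.ne_zero ρ h3

lemma sing_iff {t : ℝ} (h0 : 0 < t) (h1 : t < 1) : ¬ nu t ≪ volume ↔ nu t ⟂ₘ volume := by
  constructor
  · intro h
    exact (pure_type h0 h1).resolve_left h
  · intro h h2
    have := nu_prob h0 h1
    exact not_both h2 h

lemma sing_pow {t : ℝ} (h0 : 0 < t) (h1 : t < 1) (h : nu t ⟂ₘ volume) {k : ℕ} (hk : 1 ≤ k) :
    nu (t ^ k) ⟂ₘ volume := by
  have h7 : nu (t ^ k) = law (fun n : ℕ => t ^ (k * n)) := by
    unfold nu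
    congr 1
    funext n
    rw [pow_mul]
  rw [h7]
  refine sing_sub (summable_geo h0 h1) (f := fun n : ℕ => k * n) ?_ h
  intro a b hab
  exact Nat.eq_of_mul_eq_mul_left hk hab

/-- Absolute continuity near one. -/
def P1 : Prop := ∃ t₀ : ℝ, t₀ < 1 ∧ ∀ t : ℝ, t₀ < t → 0 < t → t < 1 → nu t ≪ volume

lemma acc_of_not_P1 (h : ¬ P1) : Acc := by
  intro t₀ ht
  by_contra hcon
  apply h
  refine ⟨t₀, ht, fun t h1 h2 h3 => ?_⟩
  by_contra h4
  exact hcon ⟨t, h1, h2, h3, (sing_iff h2 h3).1 h4⟩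

lemma meagre_q (h : Acc) {q : ℝ} (hq : 0 < q) :
    IsMeagre {t : ℝ | t ∈ Ioo (0 : ℝ) 1 ∧ ¬ nu (t ^ q) ⟂ₘ volume} := by
  refine (meagre_diff (isGδ_rpow q hq) (dense_one h hq)).mono ?_
  rintro t ⟨ht, hn⟩
  exact ⟨ht, fun h2 => hn h2.2⟩

/-- Generic singularity of all rational powers. -/
lemma S1 (h : ¬ P1) :
    IsMeagre {t : ℝ | t ∈ Ioo (0 : ℝ) 1 ∧ ∃ q : ℚ, 0 < q ∧ ¬ nu (t ^ (q : ℝ)) ⟂ₘ volume} := by
  have h1 : IsMeagre (⋃ q : {q : ℚ // 0 < q},
      {t : ℝ | t ∈ Ioo (0 : ℝ) 1 ∧ ¬ nu (t ^ ((q : ℚ) : ℝ)) ⟂ₘ volume}) :=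
    isMeagre_iUnion (fun q => meagre_q (acc_of_not_P1 h) (by exact_mod_cast q.2))
  refine h1.mono ?_
  rintro t ⟨ht, q, hq, hn⟩
  exact mem_iUnion.2 ⟨⟨q, hq⟩, ht, hn⟩

/-- Generic singularity of the r-fold convolutions. -/
lemma S2 (h : ¬ P1) {r : ℕ} (hr : 1 ≤ r) :
    IsMeagre {p : (Fin r → ℝ) × (Fin r → ℝ) | p ∈ box r ∧ ¬ nur p ⟂ₘ volume} := by
  refine (meagre_diff (isGδ_box r) (dense_box (acc_of_not_P1 h) hr)).mono ?_
  rintro p ⟨hp, hn⟩
  exact ⟨hp, fun h2 => hn h2.2⟩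

lemma nur_prob {r : ℕ} {p : (Fin r → ℝ) × (Fin r → ℝ)} (hp : p ∈ box r) :
    IsProbabilityMeasure (nur p) := law_prob ((box_LD r).summable hp)

theorem tfae :
    List.TFAE [P1,
      ¬ IsMeagre {t : ℝ | t ∈ Ioo (1 / 2 : ℝ) 1 ∧ nu t ≪ volume},
      ∀ t ∈ Ioo (0 : ℝ) 1, ∃ k : ℕ, 1 ≤ k ∧ nu (t ^ (1 / (k : ℝ))) ≪ volume,
      ¬ IsMeagre {t : ℝ | t ∈ Ioo (0 : ℝ) 1 ∧ ∃ q : ℚ, 0 < q ∧ nu (t ^ (q : ℝ)) ≪ volume},
      ∃ r : ℕ, 1 ≤ r ∧ ¬ IsMeagre {p : (Fin r → ℝ) × (Fin r → ℝ) | p ∈ box r ∧ nur p ≪ volume}] := by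
  tfae_have 1 → 2 := by
    rintro ⟨t₀, ht, h⟩ hm
    have h1 : Ioo (max t₀ (1 / 2)) 1 ⊆ {t : ℝ | t ∈ Ioo (1 / 2 : ℝ) 1 ∧ nu t ≪ volume} := by
      rintro t ⟨h2, h3⟩
      rw [max_lt_iff] at h2
      exact ⟨⟨h2.2, h3⟩, h t h2.1 (by linarith [h2.2]) h3⟩
    refine not_isMeagre_of_isOpen isOpen_Ioo ?_ (hm.mono h1)
    rw [nonempty_Ioo]
    exact max_lt ht (by norm_num)
  tfae_have 1 → 3 := by
    rintro ⟨t₀, ht, h⟩ t ht1
    have h1 : Tendsto (fun k : ℕ => t ^ (1 / ((k : ℝ) + 1))) atTop (𝓝 (t ^ (0 : ℝ))) := by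
      refine (Real.continuousAt_const_rpow ht1.1.ne').tendsto.comp ?_
      exact tendsto_one_div_add_atTop_nhds_zero_nat
    rw [Real.rpow_zero] at h1
    obtain ⟨k, hk⟩ := (h1.eventually (lt_mem_nhds ht)).exists
    refine ⟨k + 1, by omega, ?_⟩
    push_cast
    have h2 : (0 : ℝ) < 1 / ((k : ℝ) + 1) := by positivity
    exact h _ hk (Real.rpow_pos_of_pos ht1.1 _) (Real.rpow_lt_one ht1.1.le ht1.2 h2)
  tfae_have 3 → 4 := by
    intro h hm
    have h1 : Ioo (0 : ℝ) 1 ⊆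
        {t : ℝ | t ∈ Ioo (0 : ℝ) 1 ∧ ∃ q : ℚ, 0 < q ∧ nu (t ^ (q : ℝ)) ≪ volume} := by
      intro t ht
      obtain ⟨k, hk, h2⟩ := h t ht
      refine ⟨ht, 1 / (k : ℚ), ?_, ?_⟩
      · have : (0 : ℚ) < k := by exact_mod_cast hk
        positivity
      · push_cast
        exact h2
    exact not_isMeagre_of_isOpen isOpen_Ioo (nonempty_Ioo.2 one_pos) (hm.mono h1)
  tfae_have 2 → 4 := by
    intro h hm
    apply h
    refine hm.mono ?_
    rintro t ⟨ht, h1⟩
    refine ⟨⟨by linarith [ht.1], ht.2⟩, 1, one_pos, ?_⟩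
    simpa using h1
  tfae_have 4 → 1 := by
    intro h
    by_contra hn
    apply h
    refine (S1 hn).mono ?_
    rintro t ⟨ht, q, hq, h1⟩
    refine ⟨ht, q, hq, fun h2 => ?_⟩
    have hq' : (0 : ℝ) < q := by exact_mod_cast hq
    have := nu_prob (Real.rpow_pos_of_pos ht.1 (q : ℝ)) (Real.rpow_lt_one ht.1.le ht.2 hq')
    exact not_both h1 h2
  tfae_have 5 → 1 := by
    rintro ⟨r, hr, h⟩
    by_contra hn
    apply h
    refine (S2 hn hr).mono ?_
    rintro p ⟨hp, h1⟩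
    refine ⟨hp, fun h2 => ?_⟩
    have := nur_prob hp
    exact not_both h1 h2
  tfae_have 1 → 5 := by
    rintro ⟨t₀, ht, h⟩
    refine ⟨1, le_rfl, fun hm => ?_⟩
    have h1 : IsOpen {p : (Fin 1 → ℝ) × (Fin 1 → ℝ) | p ∈ box 1 ∧ t₀ < p.1 0} :=
      (isOpen_box 1).inter (isOpen_lt continuous_const ((continuous_apply 0).comp continuous_fst))
    refine not_isMeagre_of_isOpen h1 ?_ (hm.mono ?_)
    · obtain ⟨t, h2, h3⟩ := exists_between (max_lt ht one_pos)
      rw [max_lt_iff] at h2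
      exact ⟨(fun _ => t, fun _ => 1), fun j => ⟨h2.2, h3, one_pos⟩, h2.1⟩
    · rintro p ⟨hp, h2⟩
      refine ⟨hp, ?_⟩
      have hp0 := hp 0
      have h3 : nu (p.1 0) ≪ volume := h _ h2 hp0.1 hp0.2.1
      have h4 : nur p = (nu (p.1 0)).map (fun y => p.2 0 * y) := by
        unfold nu
        rw [← law_smul (summable_geo hp0.1 hp0.2.1)]
        unfold nur
        have h5 := law_equiv (a := fun n : ℕ => p.2 0 * p.1 0 ^ n)
          ((summable_geo hp0.1 hp0.2.1).mul_left _) (Equiv.uniqueProd ℕ (Fin 1))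
        rw [← h5]
        congr 1
        funext x
        have : x.1 = 0 := Subsingleton.elim _ _
        rw [this]
        rfl
      rw [h4]
      have h6 := map_aff_ac hp0.2.2.ne' 0 h3
      simpa using h6
  tfae_finish

/-- The exceptional set of Q1. -/
def Sg : Set ℝ := {t : ℝ | t ∈ Ioo (1 / 2 : ℝ) 1 ∧ ¬ nu t ≪ volume}

lemma isMeagre_of_countable {s : Set ℝ} (hs : s.Countable) : IsMeagre s := by
  have h1 : IsMeagre (⋃ x ∈ s, ({x} : Set ℝ)) := by
    refine isMeagre_biUnion hs (fun x _ => ?_)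
    have h2 : Dense ({x}ᶜ : Set ℝ) := dense_compl_singleton x
    exact residual_of_dense_open isOpen_compl_singleton h2
  simpa using h1

theorem P1_of_countable (h : Sg.Countable) : P1 := by
  have h1 := (tfae.out 1 0 :
    ¬ IsMeagre {t : ℝ | t ∈ Ioo (1 / 2 : ℝ) 1 ∧ nu t ≪ volume} ↔ P1)
  rw [← h1]
  intro hm
  have h2 : Ioo (1 / 2 : ℝ) 1 ⊆ {t : ℝ | t ∈ Ioo (1 / 2 : ℝ) 1 ∧ nu t ≪ volume} ∪ Sg := by
    intro t ht
    by_cases h3 : nu t ≪ volume
    · exact Or.inl ⟨ht, h3⟩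
    · exact Or.inr ⟨ht, h3⟩
  exact not_isMeagre_of_isOpen isOpen_Ioo (nonempty_Ioo.2 (by norm_num))
    ((hm.union (isMeagre_of_countable h)).mono h2)

theorem isGδ_Sg : IsGδ Sg := by
  have h1 : Sg = {t : ℝ | t ∈ Ioo (1 / 2 : ℝ) 1 ∧ nu t ⟂ₘ volume} := by
    ext t
    constructor
    · rintro ⟨ht, h⟩
      exact ⟨ht, (sing_iff (by linarith [ht.1]) ht.2).1 h⟩
    · rintro ⟨ht, h⟩
      exact ⟨ht, (sing_iff (by linarith [ht.1]) ht.2).2 h⟩
  rw [h1]
  exact isGδ_sing (B := Ioo (1 / 2 : ℝ) 1) (a := fun t (n : ℕ) => t ^ n) isOpen_Ioo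
    (fun n => (continuous_pow n).continuousOn)
    (geo_LD (f := fun t : ℝ => t) isOpen_Ioo continuousOn_id
      (fun t ht => ⟨by linarith [ht.1], ht.2⟩))

/-- A G-delta set of reals is countable iff it has no dense in itself subset. -/
theorem countable_iff_scattered {S : Set ℝ} (hS : IsGδ S) :
    S.Countable ↔ ∀ D ⊆ S, D.Nonempty → ∃ x ∈ D, ∃ ε > 0, ∀ y ∈ D, |y - x| < ε → y = x := by
  constructor
  · intro hc D hD hne
    by_contra hcon
    have hcon' : ∀ x ∈ D, ∀ ε : ℝ, ε > 0 → ∃ y ∈ D, |y - x| < ε ∧ y ≠ x := by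
      intro x hx ε hε
      by_contra h1
      apply hcon
      refine ⟨x, hx, ε, hε, fun y hy h2 => ?_⟩
      by_contra h3
      exact h1 ⟨y, hy, h2, h3⟩
    set K : Set ℝ := closure D with hK
    have : CompleteSpace K := isClosed_closure.completeSpace_coe
    have hKne : Nonempty K := ⟨⟨hne.some, subset_closure hne.some_mem⟩⟩
    -- every point of K is a limit of other points of K
    have hacc : ∀ x : K, Dense ({x}ᶜ : Set K) := by
      intro x y
      by_cases hxy : y = x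
      · subst hxy
        rw [Metric.mem_closure_iff]
        intro ε hε
        obtain ⟨d, hd, h1⟩ := Metric.mem_closure_iff.1 y.2 (ε / 2) (by positivity)
        by_cases hdy : d = (y : ℝ)
        · obtain ⟨e, he, h2, h3⟩ := hcon' d hd (ε / 2) (by positivity)
          refine ⟨⟨e, subset_closure he⟩, ?_, ?_⟩
          · intro h4
            apply h3
            have : e = (y : ℝ) := congrArg Subtype.val h4
            rw [this, hdy]
          · rw [Subtype.dist_eq, Real.dist_eq, ← hdy, abs_sub_comm]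
            linarith
        · refine ⟨⟨d, subset_closure hd⟩, ?_, ?_⟩
          · intro h4
            exact hdy (congrArg Subtype.val h4)
          · rw [Subtype.dist_eq]
            change dist (y : ℝ) d < ε
            linarith
      · exact subset_closure hxy
    set G : Set K := Subtype.val ⁻¹' S with hG
    have hGδ : IsGδ G := hS.preimage continuous_subtype_val
    have hGd : Dense G := by
      intro x
      rw [Metric.mem_closure_iff]
      intro ε hε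
      obtain ⟨d, hd, h1⟩ := Metric.mem_closure_iff.1 x.2 ε hε
      exact ⟨⟨d, subset_closure hd⟩, hD hd, h1⟩
    have hGc : G.Countable := hc.preimage_of_injOn Subtype.val_injective.injOn
    have h1 : Dense (⋂ x ∈ G, ({x}ᶜ : Set K)) :=
      dense_biInter_of_isOpen (fun x _ => isOpen_compl_singleton) hGc (fun x _ => hacc x)
    have h2 : IsGδ (⋂ x ∈ G, ({x}ᶜ : Set K)) :=
      IsGδ.biInter hGc (fun x _ => isOpen_compl_singleton.isGδ)
    have h3 : Dense (G ∩ ⋂ x ∈ G, ({x}ᶜ : Set K)) := hGd.inter_of_Gδ hGδ h2 h1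
    obtain ⟨z, hz1, hz2⟩ := h3.nonempty
    exact (mem_iInter₂.1 hz2 z hz1) rfl
  · intro h
    by_contra hnc
    set D : Set ℝ := {x | x ∈ S ∧ ∀ ε : ℝ, 0 < ε → ¬ (S ∩ Ioo (x - ε) (x + ε)).Countable} with hD
    have h1 : (S \ D).Countable := by
      have h2 : S \ D ⊆ ⋃ q : {q : ℚ × ℚ // (S ∩ Ioo (q.1 : ℝ) (q.2 : ℝ)).Countable},
          S ∩ Ioo ((q : ℚ × ℚ).1 : ℝ) ((q : ℚ × ℚ).2 : ℝ) := by
        rintro x ⟨hx, hxD⟩
        have h3 : ∃ ε : ℝ, 0 < ε ∧ (S ∩ Ioo (x - ε) (x + ε)).Countable := by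
          by_contra h4
          apply hxD
          refine ⟨hx, fun ε hε h5 => h4 ⟨ε, hε, h5⟩⟩
        obtain ⟨ε, hε, h5⟩ := h3
        obtain ⟨q1, h6, h7⟩ := exists_rat_btwn (show x - ε < x by linarith)
        obtain ⟨q2, h8, h9⟩ := exists_rat_btwn (show x < x + ε by linarith)
        refine mem_iUnion.2 ⟨⟨(q1, q2), h5.mono ?_⟩, hx, h7, h8⟩
        rintro y ⟨hy, hy1, hy2⟩
        exact ⟨hy, by linarith, by linarith⟩
      refine Countable.mono h2 ?_
      exact countable_iUnion (fun q => q.2)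
    have hDS : D ⊆ S := fun x hx => hx.1
    have hDne : D.Nonempty := by
      by_contra h2
      rw [not_nonempty_iff_eq_empty] at h2
      rw [h2, diff_empty] at h1
      exact hnc h1
    obtain ⟨x, hx, ε, hε, h2⟩ := h D hDS hDne
    have h3 := hx.2 ε hε
    apply h3
    have h4 : S ∩ Ioo (x - ε) (x + ε) ⊆ (S \ D) ∪ {x} := by
      rintro y ⟨hy, hy1, hy2⟩
      by_cases hyD : y ∈ D
      · right
        exact h2 y hyD (by rw [abs_lt]; constructor <;> linarith)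
      · exact Or.inl ⟨hy, hyD⟩
    exact (h1.union (countable_singleton x)).mono h4

theorem countable_iff_low : Sg.Countable ↔ (Sg ∩ Iic (√2 / 2)).Countable := by
  constructor
  · intro h
    exact h.mono inter_subset_left
  · intro h
    have h1 : Sg ⊆ ⋃ n : ℕ, {t : ℝ | 0 ≤ t ∧ t ^ (2 ^ n) ∈ Sg ∩ Iic (√2 / 2)} := by
      rintro t ⟨ht, hs⟩
      have ht0 : 0 < t := by linarith [ht.1]
      have hsing := (sing_iff ht0 ht.2).1 hs
      have hex : ∃ n : ℕ, t ^ (2 ^ n) ≤ √2 / 2 := by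
        have h2 : Tendsto (fun n : ℕ => t ^ (2 ^ n)) atTop (𝓝 0) :=
          (tendsto_pow_atTop_nhds_zero_of_lt_one ht0.le ht.2).comp
            (tendsto_pow_atTop_atTop_of_one_lt (by norm_num))
        have h3 : (0 : ℝ) < √2 / 2 := by positivity
        exact ((h2.eventually (gt_mem_nhds h3)).exists).imp (fun n hn => hn.le)
      classical
      set n := Nat.find hex with hn
      have h4 : t ^ (2 ^ n) ≤ √2 / 2 := Nat.find_spec hex
      have h5 : 1 / 2 < t ^ (2 ^ n) := by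
        rcases Nat.eq_zero_or_pos n with h0 | hpos
        · rw [h0]
          simpa using ht.1
        · have h6 : ¬ t ^ (2 ^ (n - 1)) ≤ √2 / 2 := Nat.find_min hex (by omega)
          have h7 : √2 / 2 < t ^ (2 ^ (n - 1)) := not_le.1 h6
          have h8 : t ^ (2 ^ n) = (t ^ (2 ^ (n - 1))) ^ 2 := by
            rw [← pow_mul, ← pow_succ]
            congr 2
            omega
          rw [h8]
          have h9 : (√2 / 2) ^ 2 = 1 / 2 := by
            rw [div_pow, Real.sq_sqrt (by norm_num)]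
            norm_num
          rw [← h9]
          exact pow_lt_pow_left₀ h7 (by positivity) (by norm_num)
      have hlt : t ^ (2 ^ n) < 1 := pow_lt_one₀ ht0.le ht.2 (by positivity)
      refine mem_iUnion.2 ⟨n, ht0.le, ⟨⟨h5, hlt⟩, ?_⟩, h4⟩
      exact (sing_iff (by linarith) hlt).2 (sing_pow ht0 ht.2 hsing Nat.one_le_two_pow)
    refine Countable.mono h1 (countable_iUnion (fun n => ?_))
    have h2 : InjOn (fun t : ℝ => t ^ (2 ^ n)) {t : ℝ | 0 ≤ t} := by
      intro a ha b hb hab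
      exact (pow_left_inj₀ ha hb (by positivity)).1 hab
    have h3 : {t : ℝ | 0 ≤ t ∧ t ^ (2 ^ n) ∈ Sg ∩ Iic (√2 / 2)}
        = {t : ℝ | 0 ≤ t} ∩ (fun t : ℝ => t ^ (2 ^ n)) ⁻¹' (Sg ∩ Iic (√2 / 2)) := rfl
    rw [h3]
    refine MapsTo.countable_of_injOn (f := fun t : ℝ => t ^ (2 ^ n)) ?_
      (h2.mono inter_subset_left) h
    exact fun t ht => ht.2

end Pool.Agent.H91.BC
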