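import Pool.Agent.H91.BC.Gdelta

/-! Singular parameters near one, genericity. -/

set_option autoImplicit false
open MeasureTheory ProbabilityTheory Filter Topology Set
open scoped ENNReal NNReal

namespace Pool.Agent.H91.BC

/-- the Bernoulli convolution -/
noncomputable def nu (t : ℝ) : Measure ℝ := law (fun n : ℕ => t ^ n)

/-- the convolution of r scaled Bernoulli convolutions -/
noncomputable def nur {r : ℕ} (p : (Fin r → ℝ) × (Fin r → ℝ)) : Measure ℝ :=
  law (fun x : Fin r × ℕ => p.2 x.1 * p.1 x.1 ^ x.2)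

/-- the parameter box -/
def box (r : ℕ) : Set ((Fin r → ℝ) × (Fin r → ℝ)) :=
  {p | ∀ j, 0 < p.1 j ∧ p.1 j < 1 ∧ 0 < p.2 j}

/-- Meagre complement of a dense G-delta subset of an open set. -/
lemma meagre_diff {X : Type*} [TopologicalSpace X] {B G : Set X}
    (hG : IsGδ G) (hd : B ⊆ closure G) : IsMeagre (B \ G) := by
  have h1 : IsGδ (G ∪ (closure B)ᶜ) := hG.union isClosed_closure.isOpen_compl.isGδ
  have h2 : Dense (G ∪ (closure B)ᶜ) := by
    intro x
    by_cases hx : x ∈ closure B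
    · have h3 : closure B ⊆ closure G := closure_minimal hd isClosed_closure
      exact closure_mono subset_union_left (h3 hx)
    · exact subset_closure (Or.inr hx)
  have h3 := residual_of_dense_Gδ h1 h2
  refine mem_of_superset h3 ?_
  rintro x (hx | hx)
  · exact fun h => h.2 hx
  · exact fun h => hx (subset_closure h.1)

lemma geo_LD {Y : Type*} [TopologicalSpace Y] {B : Set Y} (hB : IsOpen B) {f : Y → ℝ}
    (hf : ContinuousOn f B) (h01 : ∀ y ∈ B, 0 < f y ∧ f y < 1) :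
    LD B (fun y (n : ℕ) => f y ^ n) := by
  intro p hp
  obtain ⟨ρ, h1, h2⟩ := exists_between (h01 p hp).2
  have h3 : {y | y ∈ B ∧ f y < ρ} ∈ 𝓝 p := by
    have h4 := (hf.continuousAt (hB.mem_nhds hp)).eventually (gt_mem_nhds h1)
    filter_upwards [h4, hB.mem_nhds hp] with y hy1 hy2
    exact ⟨hy2, hy1⟩
  refine ⟨_, h3, fun n => ρ ^ n, ?_, ?_⟩
  · exact summable_geometric_of_lt_one ((h01 p hp).1.le.trans h1.le) h2
  · rintro q ⟨hq, hq2⟩ n
    rw [abs_of_nonneg (pow_nonneg (h01 q hq).1.le n)]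
    exact pow_le_pow_left₀ (h01 q hq).1.le hq2.le n

/-- G-delta property of the exponent q family. -/
lemma isGδ_rpow (q : ℝ) (hq : 0 < q) :
    IsGδ {t : ℝ | t ∈ Ioo (0 : ℝ) 1 ∧ nu (t ^ q) ⟂ₘ volume} := by
  have hc : ContinuousOn (fun t : ℝ => t ^ q) (Ioo (0 : ℝ) 1) := by
    intro t ht
    exact (Real.continuousAt_rpow_const t q (Or.inl ht.1.ne')).continuousWithinAt
  refine isGδ_sing (B := Ioo (0 : ℝ) 1) (a := fun t (n : ℕ) => (t ^ q) ^ n) isOpen_Ioo
    (fun n => hc.pow n) (geo_LD isOpen_Ioo hc (fun t ht => ?_))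
  exact ⟨Real.rpow_pos_of_pos ht.1 q, Real.rpow_lt_one ht.1.le ht.2 hq⟩

lemma isOpen_box (r : ℕ) : IsOpen (box r) := by
  have : box r = ⋂ j : Fin r, {p | 0 < p.1 j ∧ p.1 j < 1 ∧ 0 < p.2 j} := by
    ext p
    simp [box]
  rw [this]
  refine isOpen_iInter_of_finite (fun j => ?_)
  refine IsOpen.inter ?_ (IsOpen.inter ?_ ?_)
  · exact isOpen_lt continuous_const ((continuous_apply j).comp continuous_fst)
  · exact isOpen_lt ((continuous_apply j).comp continuous_fst) continuous_const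
  · exact isOpen_lt continuous_const ((continuous_apply j).comp continuous_snd)

lemma box_LD (r : ℕ) : LD (box r)
    (fun (p : (Fin r → ℝ) × (Fin r → ℝ)) (x : Fin r × ℕ) => p.2 x.1 * p.1 x.1 ^ x.2) := by
  intro p hp
  have h1 : ∀ j : Fin r, ∃ ρ : ℝ, p.1 j < ρ ∧ ρ < 1 := fun j => exists_between (hp j).2.1
  choose ρ hρ1 hρ2 using h1
  have h3 : {q | q ∈ box r ∧ ∀ j, q.1 j < ρ j ∧ q.2 j < p.2 j + 1} ∈ 𝓝 p := by
    refine inter_mem ((isOpen_box r).mem_nhds hp) ?_
    have h5 : IsOpen {q : (Fin r → ℝ) × (Fin r → ℝ) | ∀ j, q.1 j < ρ j ∧ q.2 j < p.2 j + 1} := by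
      rw [show {q : (Fin r → ℝ) × (Fin r → ℝ) | ∀ j, q.1 j < ρ j ∧ q.2 j < p.2 j + 1}
        = ⋂ j : Fin r, {q | q.1 j < ρ j ∧ q.2 j < p.2 j + 1} by ext q; simp]
      refine isOpen_iInter_of_finite (fun j => ?_)
      exact (isOpen_lt ((continuous_apply j).comp continuous_fst) continuous_const).inter
        (isOpen_lt ((continuous_apply j).comp continuous_snd) continuous_const)
    exact h5.mem_nhds (fun j => ⟨hρ1 j, lt_add_one _⟩)
  refine ⟨_, h3, fun x => (p.2 x.1 + 1) * ρ x.1 ^ x.2, ?_, ?_⟩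
  · rw [summable_prod_of_nonneg]
    · refine ⟨fun j => ?_, Summable.of_finite⟩
      exact (summable_geometric_of_lt_one ((hp j).1.le.trans (hρ1 j).le)
        (hρ2 j)).mul_left (p.2 j + 1)
    · intro x
      have := (hp x.1).2.2
      have h6 := (hp x.1).1.le.trans (hρ1 x.1).le
      change (0 : ℝ) ≤ _
      positivity
  · rintro q ⟨hq, hq2⟩ x
    have e1 := (hq x.1)
    have e2 := (hq2 x.1)
    rw [abs_of_nonneg (mul_nonneg e1.2.2.le (pow_nonneg e1.1.le _))]
    exact mul_le_mul e2.2.le (pow_le_pow_left₀ e1.1.le e2.1.le _) (pow_nonneg e1.1.le _)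
      (by linarith [(hp x.1).2.2])

lemma isGδ_box (r : ℕ) : IsGδ {p | p ∈ box r ∧ nur p ⟂ₘ volume} := by
  refine isGδ_sing (B := box r) (isOpen_box r) (fun x => ?_) (box_LD r)
  refine Continuous.continuousOn ?_
  fun_prop

/-- Sub-progressions of a singular Bernoulli convolution. -/
lemma sing_prog {t : ℝ} (h0 : 0 < t) (h1 : t < 1) (hs : nu t ⟂ₘ volume) {r : ℕ}
    (l m : Fin r → ℕ) (hl : ∀ j, 1 ≤ l j) :
    law (fun x : Fin r × ℕ => t ^ (r * m x.1 + x.1) * (t ^ (r * l x.1)) ^ x.2) ⟂ₘ volume := by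
  have hf : Function.Injective (fun x : Fin r × ℕ => (x.1 : ℕ) + r * (m x.1 + l x.1 * x.2)) := by
    rintro ⟨j, n⟩ ⟨j', n'⟩ h
    simp only at h
    have hr : 0 < r := lt_of_le_of_lt (Nat.zero_le _) j.2
    have h2 : (j : ℕ) = j' := by
      have h3 := congrArg (fun k => k % r) h
      simp only [Nat.add_mul_mod_self_left, Nat.mod_eq_of_lt j.2, Nat.mod_eq_of_lt j'.2] at h3
      exact h3
    have h4 : j = j' := Fin.ext h2
    subst h4
    have h5 : r * (m j + l j * n) = r * (m j + l j * n') := by omega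
    have h6 := Nat.eq_of_mul_eq_mul_left hr h5
    have h7 : l j * n = l j * n' := by omega
    have h8 := Nat.eq_of_mul_eq_mul_left (lt_of_lt_of_le one_pos (hl j)) h7
    rw [h8]
  have h2 := sing_sub (summable_geo h0 h1) hf hs
  have h3 : (fun x : Fin r × ℕ => t ^ (r * m x.1 + x.1) * (t ^ (r * l x.1)) ^ x.2)
      = (fun x : Fin r × ℕ => t ^ ((x.1 : ℕ) + r * (m x.1 + l x.1 * x.2))) := by
    funext x
    rw [← pow_mul, ← pow_add]
    congr 1
    ring
  rw [h3]
  exact h2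

/-- Singular parameters accumulate at one. -/
def Acc : Prop := ∀ t₀ : ℝ, t₀ < 1 → ∃ t : ℝ, t₀ < t ∧ 0 < t ∧ t < 1 ∧ nu t ⟂ₘ volume

lemma one_sub_pow_le {t : ℝ} (h0 : 0 < t) (h1 : t < 1) (r : ℕ) : 1 - t ^ r ≤ r * (1 - t) := by
  have h := one_add_mul_le_pow (a := t - 1) (by linarith) r
  have h2 : 1 + (t - 1) = t := by ring
  rw [h2] at h
  linarith

/-- Density of the singular parameters of the r-fold family. -/
lemma dense_box (h : Acc) {r : ℕ} (hr : 1 ≤ r) :
    box r ⊆ closure {p | p ∈ box r ∧ nur p ⟂ₘ volume} := by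
  intro p hp
  rw [Metric.mem_closure_iff]
  intro ε hε
  set c : ℝ := 1 + ∑ j, p.2 j with hc
  have hc1 : 1 ≤ c := by
    have : 0 ≤ ∑ j, p.2 j := Finset.sum_nonneg (fun j _ => (hp j).2.2.le)
    linarith
  have hrpos : (0 : ℝ) < r := by exact_mod_cast hr
  have hpos : 0 < ε / (2 * c * r) := by positivity
  obtain ⟨t, ht, h0, h1, hs⟩ := h (1 - ε / (2 * c * r)) (by linarith)
  set y := t ^ r with hy
  have hy0 : 0 < y := pow_pos h0 r
  have hy1 : y < 1 := pow_lt_one₀ h0.le h1 (by omega)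
  have hylo : 1 - y ≤ r * (1 - t) := one_sub_pow_le h0 h1 r
  have hcy : c * (1 - y) < ε := by
    have e1 : 1 - t < ε / (2 * c * r) := by linarith
    have e2 : c * (1 - y) ≤ c * (r * (1 - t)) := mul_le_mul_of_nonneg_left hylo (by linarith)
    have e3 : c * (r * (1 - t)) < c * (r * (ε / (2 * c * r))) := by
      refine mul_lt_mul_of_pos_left ?_ (by linarith)
      exact mul_lt_mul_of_pos_left e1 hrpos
    have e4 : c * (r * (ε / (2 * c * r))) = ε / 2 := by
      field_simp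
    linarith
  have hl : ∀ j, ∃ n : ℕ, y ^ (n + 1) < p.1 j ∧ p.1 j ≤ y ^ n := fun j =>
    exists_nat_pow_near_of_lt_one (hp j).1 (hp j).2.1.le hy0 hy1
  have hm : ∀ j, ∃ n : ℕ, y ^ (n + 1) < p.2 j / c ∧ p.2 j / c ≤ y ^ n := fun j => by
    refine exists_nat_pow_near_of_lt_one (div_pos (hp j).2.2 (by linarith)) ?_ hy0 hy1
    rw [div_le_one (by linarith)]
    have : p.2 j ≤ ∑ j, p.2 j :=
      Finset.single_le_sum (fun i _ => (hp i).2.2.le) (Finset.mem_univ j)
    linarith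
  choose l hl1 hl2 using hl
  choose m hm1 hm2 using hm
  refine ⟨(fun j => y ^ (l j + 1), fun j => c * t ^ (r * m j + j)), ⟨?_, ?_⟩, ?_⟩
  · intro j
    refine ⟨pow_pos hy0 _, pow_lt_one₀ hy0.le hy1 (by omega), ?_⟩
    have : 0 < t ^ (r * m j + (j : ℕ)) := pow_pos h0 _
    change 0 < c * t ^ (r * m j + (j : ℕ))
    have hcp : 0 < c := by linarith
    positivity
  · have e1 := sing_prog h0 h1 hs (fun j => l j + 1) m (fun j => by omega)
    have hsum : Summable (fun x : Fin r × ℕ => t ^ (r * m x.1 + (x.1 : ℕ)) *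
        (t ^ (r * (l x.1 + 1))) ^ x.2) := by
      have hb : ((fun j => t ^ (r * (l j + 1)), fun j => t ^ (r * m j + (j : ℕ))) :
          (Fin r → ℝ) × (Fin r → ℝ)) ∈ box r := by
        intro j
        exact ⟨pow_pos h0 _, pow_lt_one₀ h0.le h1 (by
          have : 0 < r * (l j + 1) := Nat.mul_pos (by omega) (by omega)
          omega), pow_pos h0 _⟩
      exact (box_LD r).summable hb
    have e2 := sing_scale hsum (c := c) (by linarith) e1
    have e3 : nur ((fun j => y ^ (l j + 1), fun j => c * t ^ (r * m j + j)) :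
        (Fin r → ℝ) × (Fin r → ℝ)) = law (fun x : Fin r × ℕ => c * (t ^ (r * m x.1 + (x.1 : ℕ)) *
        (t ^ (r * (l x.1 + 1))) ^ x.2)) := by
      unfold nur
      congr 1
      funext x
      simp only [hy]
      rw [← pow_mul t r, mul_assoc]
    rw [e3]
    exact e2
  · rw [Prod.dist_eq, max_lt_iff]
    constructor
    · rw [dist_pi_lt_iff hε]
      intro j
      rw [Real.dist_eq, abs_lt]
      have e1 := hl1 j
      have e2 := hl2 j
      have e3 : y ^ l j - y ^ (l j + 1) ≤ 1 - y := by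
        rw [pow_succ, show y ^ l j - y ^ l j * y = y ^ l j * (1 - y) by ring]
        exact mul_le_of_le_one_left (by linarith) (pow_le_one₀ hy0.le hy1.le)
      have e4 : 1 - y ≤ c * (1 - y) := le_mul_of_one_le_left (by linarith) hc1
      constructor
      · linarith
      · linarith
    · rw [dist_pi_lt_iff hε]
      intro j
      rw [Real.dist_eq]
      have hcp : 0 < c := by linarith
      have e1 := hm1 j
      have e2 := hm2 j
      have e3 : y ^ m j - y ^ (m j + 1) ≤ 1 - y := by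
        rw [pow_succ, show y ^ m j - y ^ m j * y = y ^ m j * (1 - y) by ring]
        exact mul_le_of_le_one_left (by linarith) (pow_le_one₀ hy0.le hy1.le)
      have e4 : t ^ (r * m j + (j : ℕ)) ≤ y ^ m j := by
        rw [hy, ← pow_mul]
        exact pow_le_pow_of_le_one h0.le h1.le (by omega)
      have e5 : y ^ (m j + 1) ≤ t ^ (r * m j + (j : ℕ)) := by
        rw [hy, ← pow_mul]
        refine pow_le_pow_of_le_one h0.le h1.le ?_
        have := j.2
        rw [Nat.mul_succ]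
        omega
      have e6 : p.2 j = c * (p.2 j / c) := by field_simp
      rw [e6, ← mul_sub, abs_mul, abs_of_pos hcp]
      refine lt_of_le_of_lt (mul_le_mul_of_nonneg_left ?_ hcp.le) hcy
      rw [abs_le]
      constructor <;> linarith

/-- Density of singular parameters of the one-parameter family. -/
lemma dense_one (h : Acc) {q : ℝ} (hq : 0 < q) :
    Ioo (0 : ℝ) 1 ⊆ closure {t : ℝ | t ∈ Ioo (0 : ℝ) 1 ∧ nu (t ^ q) ⟂ₘ volume} := by
  intro s hs
  rw [Metric.mem_closure_iff]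
  intro ε hε
  have hcont : ContinuousAt (fun x : ℝ => x ^ (q⁻¹)) (s ^ q) :=
    Real.continuousAt_rpow_const _ _ (Or.inl (Real.rpow_pos_of_pos hs.1 q).ne')
  rw [Metric.continuousAt_iff] at hcont
  obtain ⟨δ, hδ, hcl⟩ := hcont ε hε
  obtain ⟨t, ht, h0, h1, hsing⟩ := h (1 - δ) (by linarith)
  have hsq0 : 0 < s ^ q := Real.rpow_pos_of_pos hs.1 q
  have hsq1 : s ^ q < 1 := Real.rpow_lt_one hs.1.le hs.2 hq
  obtain ⟨n, hn1, hn2⟩ := exists_nat_pow_near_of_lt_one hsq0 hsq1.le h0 h1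
  have e3 : t ^ n - t ^ (n + 1) ≤ 1 - t := by
    rw [pow_succ, show t ^ n - t ^ n * t = t ^ n * (1 - t) by ring]
    exact mul_le_of_le_one_left (by linarith) (pow_le_one₀ h0.le h1.le)
  have hx0 : 0 < t ^ (n + 1) := pow_pos h0 _
  have hx1 : t ^ (n + 1) < 1 := pow_lt_one₀ h0.le h1 (by omega)
  have hd : dist (t ^ (n + 1)) (s ^ q) < δ := by
    rw [Real.dist_eq, abs_lt]
    constructor <;> linarith
  have h5 := hcl hd
  have h6 : (s ^ q) ^ (q⁻¹) = s := by
    rw [← Real.rpow_mul hs.1.le, mul_inv_cancel₀ hq.ne', Real.rpow_one]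
  rw [h6] at h5
  refine ⟨(t ^ (n + 1)) ^ (q⁻¹), ⟨⟨Real.rpow_pos_of_pos hx0 _,
    Real.rpow_lt_one hx0.le hx1 (inv_pos.2 hq)⟩, ?_⟩, ?_⟩
  · rw [← Real.rpow_mul hx0.le, inv_mul_cancel₀ hq.ne', Real.rpow_one]
    have h7 : nu (t ^ (n + 1)) = law (fun k : ℕ => t ^ ((n + 1) * k)) := by
      unfold nu
      congr 1
      funext k
      rw [pow_mul]
    rw [h7]
    refine sing_sub (summable_geo h0 h1) (f := fun k : ℕ => (n + 1) * k) ?_ hsing
    intro a b hab
    exact Nat.eq_of_mul_eq_mul_left (Nat.succ_pos n) hab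
  · rw [dist_comm]
    exact h5

end Pool.Agent.H91.BC
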