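import Pool.Agent.H91.BC.Shift

/-! Overlap of an absolutely continuous law with its translates. -/

set_option autoImplicit false
open MeasureTheory ProbabilityTheory Filter Topology Set
open scoped ENNReal NNReal

namespace Pool.Agent.H91.BC

/-- Continuity of translations in L1. -/
lemma L1trans {f : ℝ → ℝ} (hf : Integrable f) {ε : ℝ} (hε : 0 < ε) :
    ∃ δ > 0, ∀ w : ℝ, |w| ≤ δ → ∫⁻ x, ‖f (x + w) - f x‖ₑ ≤ ENNReal.ofReal ε := by
  obtain ⟨g, hgs, hgi, hgc, hgint⟩ := hf.exists_hasCompactSupport_lintegral_sub_le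
    (ε := ENNReal.ofReal (ε / 4)) (by simp only [ne_eq, ENNReal.ofReal_eq_zero]; linarith)
  obtain ⟨R, hR⟩ := hgs.isCompact.isBounded.subset_closedBall 0
  have huc := hgs.uniformContinuous_of_continuous hgc
  set V : ℝ := (volume (Metric.closedBall (0 : ℝ) (R + 1))).toReal with hV
  have hVfin : volume (Metric.closedBall (0 : ℝ) (R + 1)) ≠ ∞ :=
    (isCompact_closedBall (0 : ℝ) (R + 1)).measure_ne_top
  have hV0 : 0 ≤ V := ENNReal.toReal_nonneg
  rw [Metric.uniformContinuous_iff] at huc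
  obtain ⟨δ, hδ, hδ2⟩ := huc (ε / 2 / (V + 1)) (by positivity)
  refine ⟨min (δ / 2) 1, by positivity, fun w hw => ?_⟩
  have hw1 : |w| < δ := by
    have := hw.trans (min_le_left _ _)
    linarith
  have hw2 : |w| ≤ 1 := hw.trans (min_le_right _ _)
  have e1 : ∫⁻ x, ‖f (x + w) - g (x + w)‖ₑ ≤ ENNReal.ofReal (ε / 4) := by
    rw [lintegral_add_right_eq_self (μ := (volume : Measure ℝ)) (fun x => ‖f x - g x‖ₑ) w]
    exact hgi
  have e2 : ∫⁻ x, ‖g (x + w) - g x‖ₑ ≤ ENNReal.ofReal (ε / 2) := by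
    have h1 : ∀ x, ‖g (x + w) - g x‖ₑ
        ≤ (Metric.closedBall (0 : ℝ) (R + 1)).indicator
          (fun _ => ENNReal.ofReal (ε / 2 / (V + 1))) x := by
      intro x
      by_cases hx : x ∈ Metric.closedBall (0 : ℝ) (R + 1)
      · rw [indicator_of_mem hx, ← ofReal_norm]
        refine ENNReal.ofReal_le_ofReal ?_
        have := hδ2 (a := x + w) (b := x) (by simpa [Real.dist_eq] using hw1)
        rw [dist_eq_norm] at this
        exact this.le
      · rw [indicator_of_notMem hx]
        have hx' : R + 1 < |x| := by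
          rw [Metric.mem_closedBall, Real.dist_eq, sub_zero, not_le] at hx
          exact hx
        have h2 : g x = 0 := by
          refine image_eq_zero_of_notMem_tsupport (fun h3 => ?_)
          have := hR h3
          rw [Metric.mem_closedBall, Real.dist_eq, sub_zero] at this
          linarith
        have h4 : g (x + w) = 0 := by
          refine image_eq_zero_of_notMem_tsupport (fun h3 => ?_)
          have := hR h3
          rw [Metric.mem_closedBall, Real.dist_eq, sub_zero] at this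
          have h5 : |x| ≤ |x + w| + |w| := by
            have := abs_sub (x + w) w
            rwa [add_sub_cancel_right] at this
          linarith
        simp [h2, h4]
    calc ∫⁻ x, ‖g (x + w) - g x‖ₑ ≤ ∫⁻ x, (Metric.closedBall (0 : ℝ) (R + 1)).indicator
          (fun _ => ENNReal.ofReal (ε / 2 / (V + 1))) x := lintegral_mono h1
      _ = ENNReal.ofReal (ε / 2 / (V + 1)) * volume (Metric.closedBall (0 : ℝ) (R + 1)) := by
        rw [lintegral_indicator_const measurableSet_closedBall]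
      _ = ENNReal.ofReal (ε / 2 / (V + 1) * V) := by
        rw [ENNReal.ofReal_mul (by positivity), hV, ENNReal.ofReal_toReal hVfin]
      _ ≤ ENNReal.ofReal (ε / 2) := by
        refine ENNReal.ofReal_le_ofReal ?_
        rw [div_mul_eq_mul_div, div_le_iff₀ (by positivity)]
        nlinarith
  calc ∫⁻ x, ‖f (x + w) - f x‖ₑ
      ≤ ∫⁻ x, (‖f (x + w) - g (x + w)‖ₑ + ‖g (x + w) - g x‖ₑ + ‖f x - g x‖ₑ) := by
        refine lintegral_mono (fun x => ?_)
        have h1 : f (x + w) - f x = (f (x + w) - g (x + w)) + (g (x + w) - g x) + (g x - f x) := by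
          ring
        rw [h1]
        refine (enorm_add_le _ _).trans (add_le_add (enorm_add_le _ _) ?_)
        rw [← enorm_neg]
        simp
    _ = (∫⁻ x, ‖f (x + w) - g (x + w)‖ₑ) + (∫⁻ x, ‖g (x + w) - g x‖ₑ) + (∫⁻ x, ‖f x - g x‖ₑ) := by
        have m1 : AEMeasurable (fun x => ‖f x - g x‖ₑ) volume :=
          (hf.sub hgint).aestronglyMeasurable.enorm
        have m2 : Measurable (fun x => ‖g (x + w) - g x‖ₑ) := by fun_prop
        rw [lintegral_add_right' _ m1, lintegral_add_right _ m2]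
    _ ≤ ENNReal.ofReal (ε / 4) + ENNReal.ofReal (ε / 2) + ENNReal.ofReal (ε / 4) :=
        add_le_add (add_le_add e1 e2) hgi
    _ = ENNReal.ofReal ε := by
        rw [← ENNReal.ofReal_add (by positivity) (by positivity),
          ← ENNReal.ofReal_add (by positivity) (by positivity)]
        congr 1
        ring

/-- Overlap tested by continuous functions. -/
def EC (ρ : Measure ℝ) (w : ℝ) (c : ℝ≥0∞) : Prop :=
  ∀ h : ℝ → ℝ≥0, Continuous h → (∀ x, h x ≤ 1) →
    ∫⁻ x, (h x : ℝ≥0∞) ∂ρ ≤ ∫⁻ x, (h (x - w) : ℝ≥0∞) ∂ρ + c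

/-- Overlap tested by Borel sets. -/
def EO (ρ : Measure ℝ) (w : ℝ) (c : ℝ≥0∞) : Prop :=
  ∀ A : Set ℝ, MeasurableSet A → ρ A ≤ ρ ((fun x => x - w) ⁻¹' A) + c

lemma EC_of_ac {ρ : Measure ℝ} [IsProbabilityMeasure ρ] (h : ρ ≪ volume) :
    ∃ n : ℕ, ∀ w : ℝ, |w| ≤ 1 / ((n : ℝ) + 1) → EC ρ w 2⁻¹ := by
  set F := ρ.rnDeriv volume with hF
  have hFm : Measurable F := Measure.measurable_rnDeriv _ _
  have hρ : (volume : Measure ℝ).withDensity F = ρ := Measure.withDensity_rnDeriv_eq _ _ h
  have hint : ∫⁻ x, F x = 1 := by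
    have h1 : ρ univ = 1 := measure_univ
    rw [← hρ, withDensity_apply _ MeasurableSet.univ, Measure.restrict_univ] at h1
    exact h1
  have hfin : ∀ᵐ x, F x < ∞ := ae_lt_top hFm (by rw [hint]; simp)
  have hFi : Integrable (fun x => (F x).toReal) := by
    refine integrable_toReal_of_lintegral_ne_top hFm.aemeasurable (by rw [hint]; simp)
  obtain ⟨δ, hδ, hδ2⟩ := L1trans hFi (ε := 1 / 2) (by norm_num)
  obtain ⟨n, hn⟩ := exists_nat_one_div_lt hδ
  refine ⟨n, fun w hw g hg hg1 => ?_⟩
  have hb := hδ2 w (hw.trans hn.le)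
  have hgm : Measurable (fun x => (g x : ℝ≥0∞)) := hg.measurable.coe_nnreal_ennreal
  have e1 : ∫⁻ x, (g x : ℝ≥0∞) ∂ρ = ∫⁻ x, F x * g x := by
    rw [← hρ, lintegral_withDensity_eq_lintegral_mul _ hFm hgm]
    rfl
  have e2 : ∫⁻ x, (g (x - w) : ℝ≥0∞) ∂ρ = ∫⁻ x, F (x + w) * g x := by
    have hgm2 : Measurable (fun x => (g (x - w) : ℝ≥0∞)) :=
      (hg.comp (continuous_sub_right w)).measurable.coe_nnreal_ennreal
    rw [← hρ, lintegral_withDensity_eq_lintegral_mul _ hFm hgm2]
    rw [← lintegral_add_right_eq_self (μ := (volume : Measure ℝ)) _ w]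
    refine lintegral_congr (fun x => ?_)
    simp
  rw [e1, e2]
  have hfin2 : ∀ᵐ x, F (x + w) < ∞ :=
    (measurePreserving_add_right (volume : Measure ℝ) w).quasiMeasurePreserving.ae hfin
  calc ∫⁻ x, F x * g x ≤ ∫⁻ x, (F (x + w) * g x + ‖(F (x + w)).toReal - (F x).toReal‖ₑ) := by
        refine lintegral_mono_ae ?_
        filter_upwards [hfin, hfin2] with x h1 h2
        have h3 : F x ≤ F (x + w) + ‖(F (x + w)).toReal - (F x).toReal‖ₑ := by
          rw [← ofReal_norm, Real.norm_eq_abs]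
          conv_lhs => rw [← ENNReal.ofReal_toReal h1.ne]
          conv_rhs => rw [← ENNReal.ofReal_toReal h2.ne]
          rw [← ENNReal.ofReal_add ENNReal.toReal_nonneg (abs_nonneg _)]
          refine ENNReal.ofReal_le_ofReal ?_
          have := neg_abs_le ((F (x + w)).toReal - (F x).toReal)
          rw [ENNReal.toReal_ofReal ENNReal.toReal_nonneg]
          linarith
        have h4 : (g x : ℝ≥0∞) ≤ 1 := by exact_mod_cast hg1 x
        calc F x * g x ≤ (F (x + w) + ‖(F (x + w)).toReal - (F x).toReal‖ₑ) * g x := by gcongr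
          _ = F (x + w) * g x + ‖(F (x + w)).toReal - (F x).toReal‖ₑ * g x := add_mul _ _ _
          _ ≤ F (x + w) * g x + ‖(F (x + w)).toReal - (F x).toReal‖ₑ * 1 := by gcongr
          _ = F (x + w) * g x + ‖(F (x + w)).toReal - (F x).toReal‖ₑ := by rw [mul_one]
    _ = (∫⁻ x, F (x + w) * g x) + (∫⁻ x, ‖(F (x + w)).toReal - (F x).toReal‖ₑ) := by
        have m1 : Measurable (fun x => F (x + w) * g x) :=
          (hFm.comp (measurable_add_const w)).mul hgm
        rw [lintegral_add_left m1]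
    _ ≤ (∫⁻ x, F (x + w) * g x) + 2⁻¹ := by
        gcongr
        refine hb.trans (le_of_eq ?_)
        rw [show (1 / 2 : ℝ) = 2⁻¹ by norm_num, ENNReal.ofReal_inv_of_pos (by norm_num)]
        simp

lemma EO_of_EC {ρ : Measure ℝ} [IsProbabilityMeasure ρ] {w : ℝ} {c : ℝ≥0∞} (h : EC ρ w c) :
    EO ρ w c := by
  intro A hA
  refine ENNReal.le_of_forall_pos_le_add (fun ε hε _ => ?_)
  obtain ⟨K, hKA, hK, hlt⟩ := hA.exists_isClosed_lt_add (measure_ne_top ρ A)
    (ε := (ε : ℝ≥0∞)) (by exact_mod_cast hε.ne')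
  have hpos : ∀ n : ℕ, (0 : ℝ) < 1 / ((n : ℝ) + 1) := fun n => by positivity
  have hm : ρ.map (fun x => x - w) = ρ.map (fun x => x - w) := rfl
  have : IsProbabilityMeasure (ρ.map (fun x => x - w)) :=
    Measure.isProbabilityMeasure_map (by fun_prop)
  have t2 := tendsto_lintegral_thickenedIndicator_of_isClosed (ρ.map (fun x => x - w)) hK hpos
    tendsto_one_div_add_atTop_nhds_zero_nat
  have hstep : ∀ n : ℕ, ρ K ≤ ∫⁻ x, (thickenedIndicator (hpos n) K x : ℝ≥0∞)
      ∂(ρ.map (fun x => x - w)) + c := by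
    intro n
    have e1 := h (fun x => thickenedIndicator (hpos n) K x)
      (thickenedIndicator (hpos n) K).continuous (fun x => thickenedIndicator_le_one _ _ x)
    rw [lintegral_map (by fun_prop) (by fun_prop)]
    refine le_trans ?_ e1
    rw [← lintegral_indicator_one hK.measurableSet]
    refine lintegral_mono (fun x => ?_)
    by_cases hx : x ∈ K
    · rw [indicator_of_mem hx, thickenedIndicator_one (hpos n) K hx]
      simp
    · rw [indicator_of_notMem hx]
      exact bot_le
  have e2 : ρ K ≤ (ρ.map (fun x => x - w)) K + c :=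
    ge_of_tendsto' (t2.add_const c) hstep
  rw [Measure.map_apply (by fun_prop) hK.measurableSet] at e2
  calc ρ A ≤ ρ K + ε := hlt.le
    _ ≤ ρ ((fun x => x - w) ⁻¹' K) + c + ε := by gcongr
    _ ≤ ρ ((fun x => x - w) ⁻¹' A) + c + ε := by gcongr

/-- Overlap gives the decomposition used for the smoothing bound. -/
lemma DD_of_EO {ρ : Measure ℝ} [IsProbabilityMeasure ρ] (h : ρ ≪ volume) {w : ℝ}
    (ho : EO ρ w 2⁻¹) : DD ρ w := by
  set F := ρ.rnDeriv volume with hF
  have hFm : Measurable F := Measure.measurable_rnDeriv _ _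
  have hFm2 : Measurable (fun x => F (x + w)) := hFm.comp (measurable_add_const w)
  have hρ : (volume : Measure ℝ).withDensity F = ρ := Measure.withDensity_rnDeriv_eq _ _ h
  have hint : ∫⁻ x, F x = 1 := by
    have h1 : ρ univ = 1 := measure_univ
    rw [← hρ, withDensity_apply _ MeasurableSet.univ, Measure.restrict_univ] at h1
    exact h1
  set κ₀ := (volume : Measure ℝ).withDensity (fun x => min (F x) (F (x + w))) with hκ₀
  have hmass : 2⁻¹ ≤ κ₀ univ := by
    set A : Set ℝ := {x | F (x + w) < F x} with hA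
    have hAm : MeasurableSet A := measurableSet_lt hFm2 hFm
    have e1 := ho A hAm
    have e2 : ρ A = ∫⁻ x in A, F x := by
      conv_lhs => rw [← hρ]
      exact withDensity_apply _ hAm
    have e3 : ρ ((fun x => x - w) ⁻¹' A) = ∫⁻ x in A, F (x + w) := by
      have hpm : MeasurableSet ((fun x => x - w) ⁻¹' A) := (measurable_sub_const w) hAm
      conv_lhs => rw [← hρ]
      rw [withDensity_apply _ hpm, ← lintegral_indicator hpm, ← lintegral_indicator hAm]
      rw [← lintegral_add_right_eq_self (μ := (volume : Measure ℝ)) _ w]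
      refine lintegral_congr (fun x => ?_)
      by_cases hx : x ∈ A
      · rw [indicator_of_mem hx, indicator_of_mem]
        simpa using hx
      · rw [indicator_of_notMem hx, indicator_of_notMem]
        simpa using hx
    have e4 : κ₀ univ = (∫⁻ x in A, F (x + w)) + (∫⁻ x in Aᶜ, F x) := by
      rw [hκ₀, withDensity_apply _ MeasurableSet.univ, Measure.restrict_univ,
        ← lintegral_add_compl _ hAm]
      congr 1
      · refine setLIntegral_congr_fun hAm (fun x hx => ?_)
        exact min_eq_right (le_of_lt hx)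
      · refine setLIntegral_congr_fun hAm.compl (fun x hx => ?_)
        exact min_eq_left (not_lt.1 hx)
    have e5 : (1 : ℝ≥0∞) = (∫⁻ x in A, F x) + (∫⁻ x in Aᶜ, F x) := by
      rw [lintegral_add_compl _ hAm, hint]
    rw [e2, e3] at e1
    have e6 : (1 : ℝ≥0∞) ≤ κ₀ univ + 2⁻¹ := by
      rw [e5, e4]
      calc (∫⁻ x in A, F x) + (∫⁻ x in Aᶜ, F x)
          ≤ ((∫⁻ x in A, F (x + w)) + 2⁻¹) + (∫⁻ x in Aᶜ, F x) := by gcongr
        _ = (∫⁻ x in A, F (x + w)) + (∫⁻ x in Aᶜ, F x) + 2⁻¹ := by ring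
    have e7 : (1 : ℝ≥0∞) - 2⁻¹ ≤ κ₀ univ := tsub_le_iff_right.2 e6
    rwa [ENNReal.one_sub_inv_two] at e7
  have hκle : κ₀ ≤ ρ := by
    rw [← hρ]
    exact withDensity_mono (Eventually.of_forall (fun x => min_le_left _ _))
  have hκle2 : κ₀.map (fun x => x + w) ≤ ρ := by
    refine Measure.le_iff.2 (fun s hs => ?_)
    have hpm : MeasurableSet ((fun x => x + w) ⁻¹' s) := (measurable_add_const w) hs
    rw [Measure.map_apply (by fun_prop) hs, hκ₀, withDensity_apply _ hpm]
    conv_rhs => rw [← hρ]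
    rw [withDensity_apply _ hs, ← lintegral_indicator hpm, ← lintegral_indicator hs]
    rw [← lintegral_add_right_eq_self (μ := (volume : Measure ℝ)) (s.indicator F) w]
    refine lintegral_mono (fun x => ?_)
    by_cases hx : x + w ∈ s
    · rw [indicator_of_mem hx, indicator_of_mem (by exact hx)]
      exact min_le_right _ _
    · rw [indicator_of_notMem (by exact hx)]
      exact bot_le
  have hfin : κ₀ univ ≠ ∞ := ne_top_of_le_ne_top (measure_ne_top ρ univ) (hκle univ)
  have hne : κ₀ univ ≠ 0 := by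
    intro h0
    rw [h0] at hmass
    simp at hmass
  set c : ℝ≥0∞ := (2 * κ₀ univ)⁻¹ with hc
  have hc1 : c ≤ 1 := by
    rw [hc, ENNReal.inv_le_one]
    calc (1 : ℝ≥0∞) = 2 * 2⁻¹ := (ENNReal.mul_inv_cancel (by norm_num) (by norm_num)).symm
      _ ≤ 2 * κ₀ univ := by gcongr
  set κ : Measure ℝ := c • κ₀ with hκ
  have hκu : κ univ = 2⁻¹ := by
    rw [hκ, Measure.smul_apply, smul_eq_mul, hc, ENNReal.mul_inv (Or.inl (by norm_num))
      (Or.inl (by norm_num)), mul_assoc, ENNReal.inv_mul_cancel hne hfin, mul_one]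
  have hκle' : κ ≤ κ₀ := by
    refine Measure.le_iff.2 (fun s _ => ?_)
    rw [hκ, Measure.smul_apply, smul_eq_mul]
    calc c * κ₀ s ≤ 1 * κ₀ s := by gcongr
      _ = κ₀ s := one_mul _
  have h1 : κ ≤ ρ := hκle'.trans hκle
  have h2 : κ.map (fun x => x + w) ≤ ρ := (Measure.map_mono hκle' (by fun_prop)).trans hκle2
  have hfκ : IsFiniteMeasure κ := isFiniteMeasure_of_le ρ h1
  set β : Measure ℝ := (2⁻¹ : ℝ≥0) • (κ + κ.map (fun x => x + w)) with hβ
  have hβle : β ≤ ρ := by
    refine Measure.le_iff.2 (fun s _ => ?_)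
    rw [hβ, Measure.smul_apply, Measure.add_apply]
    have e1 : (2⁻¹ : ℝ≥0) • (κ s + (κ.map (fun x => x + w)) s)
        = (2⁻¹ : ℝ≥0∞) * (κ s + (κ.map (fun x => x + w)) s) := by
      rw [ENNReal.smul_def, smul_eq_mul]
      congr 1
      simp
    rw [e1]
    calc (2⁻¹ : ℝ≥0∞) * (κ s + (κ.map (fun x => x + w)) s) ≤ 2⁻¹ * (ρ s + ρ s) := by
          gcongr
      _ = ρ s := by
          rw [← two_mul, ← mul_assoc, ENNReal.inv_mul_cancel (by norm_num) (by norm_num), one_mul]
  have hfβ : IsFiniteMeasure β := isFiniteMeasure_of_le ρ hβle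
  have hβu : β univ = 2⁻¹ := by
    rw [hβ, Measure.smul_apply, Measure.add_apply, Measure.map_apply (by fun_prop)
      MeasurableSet.univ, preimage_univ, hκu, ENNReal.inv_two_add_inv_two]
    rw [ENNReal.smul_def, smul_eq_mul]
    simp
  refine ⟨κ, ρ - β, hκu, ?_, ?_⟩
  · rw [Measure.sub_apply MeasurableSet.univ hβle, hβu, measure_univ, ENNReal.one_sub_inv_two]
  · rw [add_comm, Measure.sub_add_cancel_of_le hβle]

end Pool.Agent.H91.BC
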