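import Pool.Agent.H91.BC.Law

/-! Pure type of the Bernoulli convolutions (Jessen and Wintner), by self-similarity. -/

set_option autoImplicit false
open MeasureTheory ProbabilityTheory Filter Topology Set
open scoped ENNReal NNReal

namespace Pool.Agent.H91.BC

lemma aff_null {a : ℝ} (ha : a ≠ 0) (b : ℝ) {s : Set ℝ} (hs : volume s = 0) :
    volume {y : ℝ | a * y + b ∈ s} = 0 := by
  have h1 : {y : ℝ | a * y + b ∈ s} = (fun y => a * y) ⁻¹' ((fun y => y + b) ⁻¹' s) := rfl
  rw [h1, Real.volume_preimage_mul_left ha, measure_preimage_add_right, hs, mul_zero]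

lemma map_aff_ac {a : ℝ} (ha : a ≠ 0) (b : ℝ) {ρ : Measure ℝ} (h : ρ ≪ volume) :
    ρ.map (fun y => a * y + b) ≪ volume := by
  refine Measure.AbsolutelyContinuous.mk (fun s hs h0 => ?_)
  rw [Measure.map_apply (by fun_prop) hs]
  exact h (aff_null ha b h0)

lemma map_aff_sing {a : ℝ} (ha : a ≠ 0) (b : ℝ) {ρ : Measure ℝ} (h : ρ ⟂ₘ volume) :
    ρ.map (fun y => a * y + b) ⟂ₘ volume := by
  obtain ⟨s, hs, h1, h2⟩ := h
  refine ⟨(fun y => a⁻¹ * y + (-(a⁻¹ * b))) ⁻¹' s, ?_, ?_, ?_⟩
  · exact (by fun_prop : Measurable (fun y : ℝ => a⁻¹ * y + (-(a⁻¹ * b)))) hs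
  · rw [Measure.map_apply (by fun_prop)
      ((by fun_prop : Measurable (fun y : ℝ => a⁻¹ * y + (-(a⁻¹ * b)))) hs)]
    have h3 : (fun y => a * y + b) ⁻¹' ((fun y => a⁻¹ * y + (-(a⁻¹ * b))) ⁻¹' s) = s := by
      ext y
      simp only [mem_preimage]
      have : a⁻¹ * (a * y + b) + -(a⁻¹ * b) = y := by field_simp; ring
      rw [this]
    rw [h3, h1]
  · rw [← preimage_compl]
    exact aff_null (inv_ne_zero ha) _ h2

/-- Singularity is invariant under scaling. -/
lemma sing_scale {ι : Type} [Countable ι] {a : ι → ℝ} (ha : Summable a) {c : ℝ} (hc : c ≠ 0)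
    (h : law a ⟂ₘ volume) : law (fun i => c * a i) ⟂ₘ volume := by
  rw [law_smul ha c]
  simpa using map_aff_sing hc 0 h

/-- The self-similarity operator. -/
noncomputable def TT (t : ℝ) (ρ : Measure ℝ) : Measure ℝ :=
  (2⁻¹ : ℝ≥0) • (ρ.map (fun y => t * y + 1) + ρ.map (fun y => t * y + (-1)))

lemma TT_add (t : ℝ) (ρ σ : Measure ℝ) : TT t (ρ + σ) = TT t ρ + TT t σ := by
  unfold TT
  rw [Measure.map_add _ _ (by fun_prop), Measure.map_add _ _ (by fun_prop), ← smul_add]
  congr 1
  abel

lemma TT_finite (t : ℝ) (ρ : Measure ℝ) [IsFiniteMeasure ρ] : IsFiniteMeasure (TT t ρ) := by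
  unfold TT
  infer_instance

lemma charFun_TT (t : ℝ) (ρ : Measure ℝ) [IsFiniteMeasure ρ] (x : ℝ) :
    charFun (TT t ρ) x = (Real.cos x : ℂ) * charFun ρ (t * x) := by
  unfold TT
  rw [charFun_apply_real, integral_smul_nnreal_measure, integral_add_measure]
  · rw [integral_map (by fun_prop) (by fun_prop), integral_map (by fun_prop) (by fun_prop)]
    rw [charFun_apply_real]
    have h1 : ∀ y : ℝ, Complex.exp (x * ((t * y + 1 : ℝ) : ℂ) * Complex.I)
        = Complex.exp (x * Complex.I) * Complex.exp (((t * x : ℝ) : ℂ) * y * Complex.I) := by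
      intro y
      rw [← Complex.exp_add]
      congr 1
      push_cast
      ring
    have h2 : ∀ y : ℝ, Complex.exp (x * ((t * y + (-1) : ℝ) : ℂ) * Complex.I)
        = Complex.exp (-x * Complex.I) * Complex.exp (((t * x : ℝ) : ℂ) * y * Complex.I) := by
      intro y
      rw [← Complex.exp_add]
      congr 1
      push_cast
      ring
    simp_rw [h1, h2]
    rw [integral_const_mul, integral_const_mul, ← add_mul, Complex.ofReal_cos, Complex.cos]
    rw [NNReal.smul_def]
    push_cast
    simp only [Complex.real_smul]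
    push_cast
    ring
  · refine Integrable.of_bound (by fun_prop) 1 (Eventually.of_forall (fun y => ?_))
    rw [← Complex.ofReal_mul, Complex.norm_exp_ofReal_mul_I]
  · refine Integrable.of_bound (by fun_prop) 1 (Eventually.of_forall (fun y => ?_))
    rw [← Complex.ofReal_mul, Complex.norm_exp_ofReal_mul_I]

lemma summable_geo {t : ℝ} (h0 : 0 < t) (h1 : t < 1) : Summable (fun n : ℕ => t ^ n) :=
  summable_geometric_of_lt_one h0.le h1

lemma tendsto_prod_cos {t : ℝ} (h0 : 0 < t) (h1 : t < 1) (x : ℝ) :
    Tendsto (fun n => ∏ i ∈ Finset.range n, (Real.cos (t ^ i * x) : ℂ)) atTop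
      (𝓝 (charFun (law (fun n : ℕ => t ^ n)) x)) :=
  (hasProd_charFun (summable_geo h0 h1) x).tendsto_prod_nat

lemma law_eq_TT {t : ℝ} (h0 : 0 < t) (h1 : t < 1) :
    law (fun n : ℕ => t ^ n) = TT t (law (fun n : ℕ => t ^ n)) := by
  have := law_prob (summable_geo h0 h1)
  have := TT_finite t (law (fun n : ℕ => t ^ n))
  refine Measure.ext_of_charFun ?_
  funext x
  rw [charFun_TT]
  have e1 := (tendsto_prod_cos h0 h1 x).comp (tendsto_add_atTop_nat 1)
  have e2 := (tendsto_prod_cos h0 h1 (t * x)).const_mul (Real.cos x : ℂ)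
  refine tendsto_nhds_unique e1 (e2.congr (fun n => ?_))
  simp only [Function.comp]
  rw [Finset.prod_range_succ', mul_comm]
  simp only [pow_zero, one_mul]
  congr 1
  refine Finset.prod_congr rfl (fun i _ => ?_)
  rw [pow_succ, mul_assoc]

/-- A finite measure fixed by the self-similarity operator is a multiple of the law. -/
lemma fixed_TT {t : ℝ} (h0 : 0 < t) (h1 : t < 1) (σ : Measure ℝ) [IsFiniteMeasure σ]
    (h : σ = TT t σ) : ∀ x, charFun σ x = charFun (law (fun n : ℕ => t ^ n)) x * charFun σ 0 := by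
  intro x
  have h2 : ∀ n : ℕ, charFun σ x
      = (∏ i ∈ Finset.range n, (Real.cos (t ^ i * x) : ℂ)) * charFun σ (t ^ n * x) := by
    intro n
    induction n with
    | zero => simp
    | succ n ih =>
      rw [ih, Finset.prod_range_succ, mul_assoc]
      congr 1
      conv_lhs => rw [h, charFun_TT]
      rw [pow_succ]
      congr 2
      ring
  have h3 : Tendsto (fun n : ℕ => charFun σ (t ^ n * x)) atTop (𝓝 (charFun σ 0)) := by
    have h4 : Continuous (charFun σ) := by
      have h5 : charFun σ = fun x : ℝ => ∫ y : ℝ, Complex.exp ((x : ℂ) * (y : ℂ) * Complex.I) ∂σ := by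
        funext x
        exact charFun_apply_real x
      rw [h5]
      refine continuous_of_dominated (bound := fun _ => 1) ?_ ?_ (integrable_const _) ?_
      · intro x
        fun_prop
      · intro x
        refine Eventually.of_forall (fun y => ?_)
        rw [← Complex.ofReal_mul, Complex.norm_exp_ofReal_mul_I]
      · refine Eventually.of_forall (fun y => ?_)
        fun_prop
    refine (h4.tendsto 0).comp ?_
    have h6 : Tendsto (fun n : ℕ => t ^ n * x) atTop (𝓝 (0 * x)) :=
      (tendsto_pow_atTop_nhds_zero_of_lt_one h0.le h1).mul_const x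
    rwa [zero_mul] at h6
  have h7 := (tendsto_prod_cos h0 h1 x).mul h3
  exact tendsto_nhds_unique (tendsto_const_nhds.congr h2) h7

/-- Pure type. -/
theorem pure_type {t : ℝ} (h0 : 0 < t) (h1 : t < 1) :
    law (fun n : ℕ => t ^ n) ≪ volume ∨ law (fun n : ℕ => t ^ n) ⟂ₘ volume := by
  have hP := law_prob (summable_geo h0 h1)
  set ν := law (fun n : ℕ => t ^ n) with hν
  set σ := ν.singularPart volume with hσ
  set α := (volume : Measure ℝ).withDensity (ν.rnDeriv volume) with hα
  have hdec : ν = σ + α := Measure.haveLebesgueDecomposition_add ν volume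
  have hac : α ≪ volume := withDensity_absolutelyContinuous _ _
  have hsi : σ ⟂ₘ volume := Measure.mutuallySingular_singularPart _ _
  have hfα : IsFiniteMeasure α := isFiniteMeasure_of_le ν (by
    conv_rhs => rw [hdec]
    exact Measure.le_add_left le_rfl)
  have hTα : TT t α ≪ volume := by
    unfold TT
    exact (Measure.AbsolutelyContinuous.add_left (map_aff_ac h0.ne' 1 hac)
      (map_aff_ac h0.ne' (-1) hac)).smul_left _
  have hTσ : TT t σ ⟂ₘ volume := by
    unfold TT
    exact ((map_aff_sing h0.ne' 1 hsi).add_left (map_aff_sing h0.ne' (-1) hsi)).smul_nnreal _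
  have hfT := TT_finite t σ
  have hfT2 := TT_finite t α
  have hfix : σ = TT t σ := by
    have e1 : ν = TT t σ + TT t α := by
      rw [← TT_add, ← hdec]
      exact law_eq_TT h0 h1
    have e2 : σ = (TT t σ + TT t α).singularPart volume := by
      rw [← e1]
    rw [Measure.singularPart_add, Measure.singularPart_eq_zero_of_ac hTα, add_zero,
      Measure.singularPart_eq_self.2 hTσ] at e2
    exact e2
  have hch := fixed_TT h0 h1 σ hfix
  have hmass : charFun σ 0 = ((σ.real univ : ℝ) : ℂ) := charFun_zero σ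
  by_cases hz : σ = 0
  · left
    rw [hdec, hz, zero_add]
    exact hac
  · right
    have hpos : 0 < σ.real univ := by
      rw [Measure.real, ENNReal.toReal_pos_iff]
      refine ⟨?_, measure_lt_top _ _⟩
      rw [pos_iff_ne_zero]
      intro h
      exact hz (Measure.measure_univ_eq_zero.1 h)
    have e3 : σ = (σ univ).toNNReal • ν := by
      refine Measure.ext_of_charFun ?_
      funext x
      rw [hch x, hmass]
      have : charFun ((σ univ).toNNReal • ν) x = ((σ univ).toNNReal : ℝ) • charFun ν x := by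
        rw [charFun_apply_real, charFun_apply_real, integral_smul_nnreal_measure]
        rfl
      rw [this, Complex.real_smul, mul_comm]
      rfl
    have e4 : ν = ((σ univ).toNNReal)⁻¹ • σ := by
      have hne : (σ univ).toNNReal ≠ 0 := by
        intro h
        have : σ.real univ = 0 := by
          rw [Measure.real]
          change ((σ univ).toNNReal : ℝ) = 0
          rw [h]
          rfl
        linarith
      have e5 : ((σ univ).toNNReal)⁻¹ • σ = ((σ univ).toNNReal)⁻¹ • ((σ univ).toNNReal • ν) :=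
        congrArg (fun m => ((σ univ).toNNReal)⁻¹ • m) e3
      rw [e5, smul_smul, inv_mul_cancel₀ hne, one_smul]
    rw [e4]
    exact hsi.smul_nnreal _

end Pool.Agent.H91.BC
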