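import Pool.Agent.H91.BC.Dec

/-! From qualitative to uniform quantitative absolute continuity near one. -/

set_option autoImplicit false
open MeasureTheory ProbabilityTheory Filter Topology Set
open scoped ENNReal NNReal

namespace Pool.Agent.H91.BC

lemma not_sing_of_ac {ρ : Measure ℝ} [IsProbabilityMeasure ρ] (h : ρ ≪ volume) :
    ∃ n, ¬ Conc ρ n := by
  by_contra hcon
  have h1 : ∀ n, Conc ρ n := fun n => by
    by_contra h2
    exact hcon ⟨n, h2⟩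
  exact not_both h (sing_of_conc h1)

lemma isOpen_conc (n : ℕ) : IsOpen {t : ℝ | t ∈ Ioo (0 : ℝ) 1 ∧ Conc (nu t) n} := by
  rw [isOpen_iff_mem_nhds]
  rintro p ⟨hp, U, hU, h2, h3⟩
  have h4 := law_open_lsc (B := Ioo (0 : ℝ) 1) (a := fun t (k : ℕ) => t ^ k) isOpen_Ioo
    (fun k => (continuous_pow k).continuousOn)
    (geo_LD (f := fun t : ℝ => t) isOpen_Ioo continuousOn_id (fun t ht => ht)) hU hp h3
  filter_upwards [h4] with q hq
  exact ⟨hq.1, U, hU, h2, hq.2⟩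

/-- Baire: uniform non-concentration on an interval. -/
lemma unif_interval (h : P1) : ∃ n : ℕ, ∃ a b : ℝ, 1 / 2 ≤ a ∧ a < b ∧ b ≤ 1 ∧
    ∀ t ∈ Ioo a b, nu t ≪ volume ∧ ¬ Conc (nu t) n := by
  obtain ⟨t₀, ht, h⟩ := h
  set O : Set ℝ := Ioo (max t₀ (1 / 2)) 1 with hO
  have hOne : O.Nonempty := nonempty_Ioo.2 (max_lt ht (by norm_num))
  have hO' : ∀ t ∈ O, t₀ < t ∧ 1 / 2 < t ∧ 0 < t ∧ t < 1 := by
    rintro t ⟨h1, h2⟩
    rw [max_lt_iff] at h1
    exact ⟨h1.1, h1.2, by linarith [h1.2], h2⟩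
  have hac : ∀ t ∈ O, nu t ≪ volume := fun t ht => h t (hO' t ht).1 (hO' t ht).2.2.1 (hO' t ht).2.2.2
  by_contra hcon
  have h1 : ∀ n : ℕ, O ⊆ closure ({t : ℝ | t ∈ Ioo (0 : ℝ) 1 ∧ Conc (nu t) n} ∩ O) := by
    intro n x hx
    rw [mem_closure_iff_nhds]
    intro W hW
    by_contra hem
    apply hcon
    have h2 : W ∩ O ∈ 𝓝 x := inter_mem hW (isOpen_Ioo.mem_nhds hx)
    obtain ⟨ε, hε, h3⟩ := Metric.mem_nhds_iff.1 h2
    rw [Real.ball_eq_Ioo] at h3
    refine ⟨n, x - ε / 2, x + ε / 2, ?_, by linarith, ?_, ?_⟩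
    · have h4 : x - ε / 2 ∈ Ioo (x - ε) (x + ε) := ⟨by linarith, by linarith⟩
      exact (hO' _ (h3 h4).2).2.1.le
    · have h4 : x + ε / 2 ∈ Ioo (x - ε) (x + ε) := ⟨by linarith, by linarith⟩
      exact (hO' _ (h3 h4).2).2.2.2.le
    · rintro t ⟨h4, h5⟩
      have h6 : t ∈ Ioo (x - ε) (x + ε) := ⟨by linarith, by linarith⟩
      have h7 := h3 h6
      refine ⟨hac t h7.2, fun h8 => hem ⟨t, h7.1, ⟨⟨(hO' t h7.2).2.2.1, (hO' t h7.2).2.2.2⟩, h8⟩,
        h7.2⟩⟩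
  have h2 : ∀ n : ℕ, IsMeagre (O \ ({t : ℝ | t ∈ Ioo (0 : ℝ) 1 ∧ Conc (nu t) n} ∩ O)) :=
    fun n => meagre_diff ((isOpen_conc n).inter isOpen_Ioo).isGδ (h1 n)
  have h3 : IsMeagre O := by
    refine (isMeagre_iUnion h2).mono ?_
    intro t ht
    have := nu_prob (hO' t ht).2.2.1 (hO' t ht).2.2.2
    obtain ⟨n, hn⟩ := not_sing_of_ac (hac t ht)
    refine mem_iUnion.2 ⟨n, ht, fun h4 => hn h4.1.2⟩
  exact not_isMeagre_of_isOpen isOpen_Ioo hOne h3

/-- A law which is absolutely continuous and not concentrated at level n decomposes. -/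
lemma dec_of_nonconc {ρ : Measure ℝ} [IsProbabilityMeasure ρ] (h : ρ ≪ volume) {n : ℕ}
    (hn : ¬ Conc ρ n) : Dec ρ (2 ^ (n + 1)) (1 - (2⁻¹ : ℝ≥0∞) ^ n) := by
  set f := ρ.rnDeriv volume with hf
  have hfm : Measurable f := Measure.measurable_rnDeriv _ _
  have hρ : (volume : Measure ℝ).withDensity f = ρ := Measure.withDensity_rnDeriv_eq _ _ h
  set N : Set ℝ := {x | (2 : ℝ≥0∞) ^ (n + 1) ≤ f x} with hN
  have hNm : MeasurableSet N := measurableSet_le measurable_const hfm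
  have hint : ∫⁻ x, f x = 1 := by
    have h1 : ρ univ = 1 := measure_univ
    rw [← hρ, withDensity_apply _ MeasurableSet.univ, Measure.restrict_univ] at h1
    exact h1
  have hvol : volume N ≤ (2⁻¹ : ℝ≥0∞) ^ (n + 1) := by
    have h1 := mul_meas_ge_le_lintegral (μ := volume) hfm ((2 : ℝ≥0∞) ^ (n + 1))
    rw [hint] at h1
    have h2 : (2 : ℝ≥0∞) ^ (n + 1) ≠ 0 := by positivity
    have h3 : (2 : ℝ≥0∞) ^ (n + 1) ≠ ∞ := ENNReal.pow_ne_top (by norm_num)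
    have h4 := (ENNReal.mul_le_iff_le_inv h2 h3).1 h1
    rw [mul_one] at h4
    rw [← ENNReal.inv_pow]
    exact h4
  have hlt : (2⁻¹ : ℝ≥0∞) ^ (n + 1) < (2⁻¹ : ℝ≥0∞) ^ n := by
    rw [pow_succ]
    have h2 : (2⁻¹ : ℝ≥0∞) ^ n ≠ 0 := by
      refine pow_ne_zero _ ?_
      simp
    have h3 : (2⁻¹ : ℝ≥0∞) ^ n ≠ ∞ := ENNReal.pow_ne_top (by simp)
    calc (2⁻¹ : ℝ≥0∞) ^ n * 2⁻¹ < (2⁻¹ : ℝ≥0∞) ^ n * 1 := by
          rw [ENNReal.mul_lt_mul_iff_right h2 h3]
          exact ENNReal.inv_lt_one.2 (by norm_num)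
      _ = (2⁻¹ : ℝ≥0∞) ^ n := mul_one _
  obtain ⟨U, hNU, hU, hUv⟩ := Set.exists_isOpen_lt_of_lt N _ (lt_of_le_of_lt hvol hlt)
  have hρU : ρ U ≤ 1 - (2⁻¹ : ℝ≥0∞) ^ n := by
    by_contra h1
    exact hn ⟨U, hU, hUv, not_le.1 h1⟩
  refine ⟨ρ.restrict Nᶜ, ρ.restrict N, ?_, ?_, ?_⟩
  · rw [add_comm]
    exact (Measure.restrict_add_restrict_compl hNm).symm
  · refine Measure.le_iff.2 (fun s hs => ?_)
    rw [Measure.restrict_apply hs, ← hρ, withDensity_apply _ (hs.inter hNm.compl)]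
    simp only [Measure.smul_apply, smul_eq_mul]
    calc ∫⁻ x in s ∩ Nᶜ, f x ≤ ∫⁻ _x in s ∩ Nᶜ, (2 : ℝ≥0∞) ^ (n + 1) := by
          refine setLIntegral_mono measurable_const (fun x hx => ?_)
          have hx2 : ¬ (2 : ℝ≥0∞) ^ (n + 1) ≤ f x := hx.2
          exact (not_le.1 hx2).le
      _ = 2 ^ (n + 1) * volume (s ∩ Nᶜ) := by rw [setLIntegral_const]
      _ ≤ 2 ^ (n + 1) * volume s := by gcongr; exact inter_subset_left
  · rw [Measure.restrict_apply MeasurableSet.univ, univ_inter]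
    exact (measure_mono hNU).trans hρU

/-- Uniform quantitative form. -/
def P6 : Prop := ∃ t₀ c K : ℝ, t₀ < 1 ∧ 0 < c ∧ ∀ t : ℝ, t₀ < t → 0 < t → t < 1 →
  ∀ s : Set ℝ, nu t s ≤ ENNReal.ofReal K * volume s + ENNReal.ofReal (Real.exp (-c / (1 - t)))

theorem P6_of_P1 (h : P1) : P6 := by
  obtain ⟨n, a, b, ha, hab, hb, hI⟩ := unif_interval h
  set m : ℝ := (a + b) / 2 with hm
  have ham : a < m := by rw [hm]; linarith
  have hmb : m < b := by rw [hm]; linarith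
  have hm0 : 0 < m := by linarith
  have hm1 : m < 1 := by linarith
  set e : ℝ := (1 / 2) ^ n with he
  have he0 : 0 < e := by positivity
  have he1 : e ≤ 1 := pow_le_one₀ (by norm_num) (by norm_num)
  have hlog : 0 < Real.log (1 / m) := Real.log_pos (by rw [lt_div_iff₀ hm0]; linarith)
  refine ⟨max (a / m) (1 / 2), e * Real.log (1 / m) / 2, 2 * 2 ^ (n + 1) * 2 ^ n, ?_, ?_, ?_⟩
  · exact max_lt (by rw [div_lt_one hm0]; exact ham) (by norm_num)
  · positivity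
  intro t ht h0 h1 s
  rw [max_lt_iff] at ht
  obtain ⟨k, hk1, hk2⟩ := exists_nat_pow_near_of_lt_one hm0 hm1.le h0 h1
  have hlow : a < t ^ (k + 1) := by
    have h2 : a < m * t := by
      have := ht.1
      rw [div_lt_iff₀ hm0] at this
      linarith
    have h3 : m * t ≤ t ^ k * t := mul_le_mul_of_nonneg_right hk2 h0.le
    rw [pow_succ]
    linarith
  have hmem : t ^ (k + 1) ∈ Ioo a b := ⟨hlow, by linarith⟩
  obtain ⟨hac, hnc⟩ := hI _ hmem
  have hp0 : 0 < t ^ (k + 1) := by linarith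
  have hp1 : t ^ (k + 1) < 1 := by linarith
  have hprob := nu_prob hp0 hp1
  have hdec := dec_of_nonconc hac hnc
  have hd2 : ∀ i : Fin (k + 1), Dec ((nu (t ^ (k + 1))).map (fun y => t ^ (i : ℕ) * y))
      (2 * 2 ^ (n + 1)) (1 - (2⁻¹ : ℝ≥0∞) ^ n) := by
    intro i
    refine hdec.scale ?_
    have h2 : t ^ (k + 1) ≤ t ^ (i : ℕ) := pow_le_pow_of_le_one h0.le h1.le (by omega)
    linarith
  have hpi : ∀ i : Fin (k + 1),
      IsProbabilityMeasure ((nu (t ^ (k + 1))).map (fun y => t ^ (i : ℕ) * y)) :=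
    fun i => Measure.isProbabilityMeasure_map (by fun_prop)
  have hcancel : (2 : ℝ≥0∞) ^ n * (2⁻¹ : ℝ≥0∞) ^ n = 1 := by
    rw [← mul_pow, ENNReal.mul_inv_cancel (by norm_num) (by norm_num), one_pow]
  have hC : (2 * 2 ^ (n + 1) : ℝ≥0∞) + (2 * 2 ^ (n + 1) * 2 ^ n) * (1 - (2⁻¹ : ℝ≥0∞) ^ n)
      ≤ 2 * 2 ^ (n + 1) * 2 ^ n := by
    have htop : (2 * 2 ^ (n + 1) * 2 ^ n : ℝ≥0∞) ≠ ∞ := by
      refine ENNReal.mul_ne_top (ENNReal.mul_ne_top (by norm_num) ?_) ?_ <;>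
        exact ENNReal.pow_ne_top (by norm_num)
    rw [ENNReal.mul_sub (fun _ _ => htop), mul_one, mul_assoc _ ((2 : ℝ≥0∞) ^ n) _, hcancel, mul_one]
    rw [add_tsub_cancel_of_le]
    calc (2 * 2 ^ (n + 1) : ℝ≥0∞) = 2 * 2 ^ (n + 1) * 1 := (mul_one _).symm
      _ ≤ 2 * 2 ^ (n + 1) * 2 ^ n := by
        gcongr
        exact one_le_pow₀ (by norm_num)
  have hfin := Dec_convs hC (k + 1) _ hpi hd2
  rw [← nu_eq_convs h0 h1 (by omega)] at hfin
  refine (hfin.bound s).trans (add_le_add (le_of_eq ?_) ?_)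
  · congr 1
    rw [ENNReal.ofReal_mul (by positivity), ENNReal.ofReal_mul (by positivity),
      ENNReal.ofReal_pow (by norm_num), ENNReal.ofReal_pow (by norm_num)]
    simp
  · have h2 : (1 - (2⁻¹ : ℝ≥0∞) ^ n) = ENNReal.ofReal (1 - e) := by
      rw [ENNReal.ofReal_sub _ he0.le, he, ENNReal.ofReal_pow (by norm_num)]
      simp
    rw [h2, ← ENNReal.ofReal_pow (by linarith)]
    refine ENNReal.ofReal_le_ofReal ?_
    have h3 : (1 - e) ^ (k + 1) ≤ Real.exp (-e * (k + 1 : ℕ)) := by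
      have h4 : 1 - e ≤ Real.exp (-e) := by
        have := Real.add_one_le_exp (-e)
        linarith
      calc (1 - e) ^ (k + 1) ≤ (Real.exp (-e)) ^ (k + 1) :=
            pow_le_pow_left₀ (by linarith) h4 _
        _ = Real.exp (-e * (k + 1 : ℕ)) := by rw [← Real.exp_nat_mul]; ring_nf
    refine h3.trans (Real.exp_le_exp.2 ?_)
    have hlt : Real.log (1 / m) < (k + 1 : ℕ) * Real.log (1 / t) := by
      have h5 : Real.log (t ^ (k + 1)) < Real.log m := Real.log_lt_log hp0 hk1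
      rw [Real.log_pow] at h5
      rw [one_div, Real.log_inv, one_div, Real.log_inv]
      linarith
    have hlt2 : Real.log (1 / t) ≤ 2 * (1 - t) := by
      have h6 := Real.log_le_sub_one_of_pos (show 0 < 1 / t by positivity)
      have h7 : 1 / t - 1 ≤ 2 * (1 - t) := by
        have h8 : 1 / t - 1 = (1 - t) * (1 / t) := by field_simp
        rw [h8]
        have h9 : 1 / t ≤ 2 := by
          rw [div_le_iff₀ h0]
          linarith [ht.2]
        nlinarith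
      linarith
    have h1t : 0 < 1 - t := by linarith
    have hk0 : (0 : ℝ) < (k + 1 : ℕ) := by positivity
    have h10 : Real.log (1 / m) ≤ (k + 1 : ℕ) * (2 * (1 - t)) :=
      hlt.le.trans (mul_le_mul_of_nonneg_left hlt2 hk0.le)
    have h11 : Real.log (1 / m) / 2 / (1 - t) ≤ (k + 1 : ℕ) := by
      rw [div_div, div_le_iff₀ (by positivity)]
      exact h10
    have h12 : -(e * Real.log (1 / m) / 2) / (1 - t) = -e * (Real.log (1 / m) / 2 / (1 - t)) := by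
      ring
    rw [h12]
    nlinarith

theorem P1_of_P6 (h : P6) : P1 := by
  obtain ⟨t₀, c, K, ht, hc, h⟩ := h
  refine ⟨t₀, ht, fun t h1 h2 h3 => ?_⟩
  rcases pure_type h2 h3 with h4 | h4
  · exact h4
  · exfalso
    have hp := nu_prob h2 h3
    obtain ⟨s, hs, e1, e2⟩ := h4
    have e3 := h t h1 h2 h3 sᶜ
    have e4 : nu t sᶜ = 1 := by
      rw [prob_compl_eq_one_iff hs]
      exact e1
    rw [e4, e2, mul_zero, zero_add] at e3
    have e5 : Real.exp (-c / (1 - t)) < 1 := by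
      rw [Real.exp_lt_one_iff]
      exact div_neg_of_neg_of_pos (by linarith) (by linarith)
    have e6 : ENNReal.ofReal (Real.exp (-c / (1 - t))) < 1 := by
      rw [← ENNReal.ofReal_one]
      exact (ENNReal.ofReal_lt_ofReal_iff one_pos).2 e5
    exact absurd e3 (not_le.2 e6)

end Pool.Agent.H91.BC
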