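import Pool.Agent.H91.BC.Binom
import Pool.Agent.H91.BC.Unif

/-! Total variation smoothness of convolutions of laws that overlap with their translates. -/

set_option autoImplicit false
open MeasureTheory ProbabilityTheory Filter Topology Set
open scoped ENNReal NNReal

namespace Pool.Agent.H91.BC

lemma II_measurable {f : ℝ → ℝ} (hf : Measurable f) (w : ℝ) (m : ℕ) : Measurable (II f w m) := by
  induction m with
  | zero =>
    simp only [II]
    exact (hf.comp (measurable_add_const w)).sub hf
  | succ m ih =>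
    simp only [II]
    exact (ih.add (ih.comp (measurable_add_const w))).div_const 2

lemma II_shift (f : ℝ → ℝ) (w : ℝ) (m : ℕ) (x y : ℝ) :
    II f w m (x + y) = II (fun z => f (x + z)) w m y := by
  induction m generalizing y with
  | zero => simp only [II]; rw [add_assoc]
  | succ m ih =>
    simp only [II]
    rw [ih y, add_assoc, ih (y + w)]

lemma II_le_two {f : ℝ → ℝ} (hf : ∀ x, |f x| ≤ 1) (w : ℝ) (m : ℕ) (x : ℝ) :
    |II f w m x| ≤ 2 := by
  refine (II_bound f hf w m x).trans ?_
  have h1 : 1 ≤ √((m : ℝ) + 1) := by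
    rw [Real.one_le_sqrt]
    linarith [Nat.cast_nonneg (α := ℝ) m]
  rw [div_le_iff₀ (by linarith)]
  linarith

lemma integrable_bdd {ρ : Measure ℝ} [IsFiniteMeasure ρ] {F : ℝ → ℝ} (hF : Measurable F) {C : ℝ}
    (hC : ∀ x, |F x| ≤ C) : Integrable F ρ :=
  Integrable.of_bound hF.aestronglyMeasurable C (Eventually.of_forall (fun x => by
    rw [Real.norm_eq_abs]; exact hC x))

/-- Half of the mass is an average of a measure and of its translate by w. -/
def DD (ρ : Measure ℝ) (w : ℝ) : Prop :=
  ∃ κ τ : Measure ℝ, κ univ = 2⁻¹ ∧ τ univ = 2⁻¹ ∧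
    ρ = (2⁻¹ : ℝ≥0) • (κ + κ.map (fun x => x + w)) + τ

theorem convs_bound (w : ℝ) : ∀ (k : ℕ) (ρ : Fin k → Measure ℝ),
    (∀ i, IsProbabilityMeasure (ρ i)) → (∀ i, DD (ρ i) w) →
    ∀ (m : ℕ) (f : ℝ → ℝ), Measurable f → (∀ x, |f x| ≤ 1) →
    |∫ x, II f w m x ∂(convs k ρ)| ≤ 2 * (1 / √((m : ℝ) + 1 + k / 4)) := by
  intro k
  induction k with
  | zero =>
    intro ρ _ _ m f _ hf
    have h1 : convs 0 ρ = Measure.dirac 0 := rfl
    rw [h1, integral_dirac]
    have := II_bound f hf w m 0
    simpa [div_eq_mul_inv] using this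
  | succ k ih =>
    intro ρ hp hd m f hfm hf
    have hp0 := hp 0
    set R := convs k (fun i => ρ i.succ) with hR
    have hpR : IsProbabilityMeasure R := convs_prob k (fun i => ρ i.succ) (fun i => hp i.succ)
    have h1 : convs (k + 1) ρ = (ρ 0) ∗ R := rfl
    obtain ⟨κ, τ, hκ, hτ, hdec⟩ := hd 0
    have hfκ : IsFiniteMeasure κ := ⟨by rw [hκ]; simp⟩
    have hfτ : IsFiniteMeasure τ := ⟨by rw [hτ]; simp⟩
    set G : ℕ → ℝ := fun m => 2 * (1 / √((m : ℝ) + 1 + k / 4)) with hG
    set Φ : ℕ → ℝ → ℝ := fun m x => ∫ y, II f w m (x + y) ∂(R) with hΦ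
    have hΦm : ∀ m, Measurable (Φ m) := by
      intro m
      have e1 : Measurable (fun p : ℝ × ℝ => II f w m (p.1 + p.2)) :=
        (II_measurable hfm w m).comp (measurable_fst.add measurable_snd)
      exact (e1.stronglyMeasurable.integral_prod_right).measurable
    have hΦb : ∀ m x, |Φ m x| ≤ G m := by
      intro m x
      have e1 : Φ m x = ∫ y, II (fun z => f (x + z)) w m y ∂(R) := by
        simp only [hΦ]
        congr 1
        funext y
        exact II_shift f w m x y
      rw [e1]
      exact ih (fun i => ρ i.succ) (fun i => hp i.succ) (fun i => hd i.succ) m _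
        (hfm.comp (measurable_const_add x)) (fun z => hf _)
    have hΦr : ∀ m x, Φ m x + Φ m (x + w) = 2 * Φ (m + 1) x := by
      intro m x
      simp only [hΦ]
      have i1 : Integrable (fun y => II f w m (x + y)) R :=
        integrable_bdd ((II_measurable hfm w m).comp (measurable_const_add x))
          (fun y => II_le_two hf w m _)
      have i2 : Integrable (fun y => II f w m (x + w + y)) R :=
        integrable_bdd ((II_measurable hfm w m).comp (measurable_const_add (x + w)))
          (fun y => II_le_two hf w m _)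
      rw [← integral_add i1 i2, ← integral_const_mul]
      congr 1
      funext y
      simp only [II]
      rw [show x + w + y = x + y + w by ring]
      ring
    have hint : ∫ x, II f w m x ∂((ρ 0) ∗ R) = ∫ x, Φ m x ∂(ρ 0) := by
      rw [integral_conv]
      exact integrable_bdd (II_measurable hfm w m) (fun y => II_le_two hf w m _)
    rw [h1, hint, hdec]
    have j1 : Integrable (Φ m) κ := integrable_bdd (hΦm m) (hΦb m)
    have j2 : Integrable (Φ m) (κ.map (fun x => x + w)) := integrable_bdd (hΦm m) (hΦb m)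
    have j3 : Integrable (Φ m) τ := integrable_bdd (hΦm m) (hΦb m)
    have j4 : Integrable (fun x => Φ m (x + w)) κ :=
      integrable_bdd ((hΦm m).comp (measurable_add_const w)) (fun x => hΦb m _)
    rw [integral_add_measure ((j1.add_measure j2).smul_measure_nnreal) j3,
      integral_smul_nnreal_measure, integral_add_measure j1 j2,
      integral_map (by fun_prop) (hΦm m).aestronglyMeasurable, ← integral_add j1 j4]
    have h5 : ∫ x, (Φ m x + Φ m (x + w)) ∂κ = 2 * ∫ x, Φ (m + 1) x ∂κ := by
      rw [← integral_const_mul]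
      congr 1
      funext x
      exact hΦr m x
    rw [h5]
    have hκr : κ.real univ = 1 / 2 := by rw [Measure.real, hκ]; simp
    have hτr : τ.real univ = 1 / 2 := by rw [Measure.real, hτ]; simp
    have h6 : |∫ x, Φ (m + 1) x ∂κ| ≤ G (m + 1) * (1 / 2) := by
      rw [← hκr, ← Real.norm_eq_abs]
      exact norm_integral_le_of_norm_le_const (Eventually.of_forall (fun x => by
        rw [Real.norm_eq_abs]; exact hΦb (m + 1) x))
    have h7 : |∫ x, Φ m x ∂τ| ≤ G m * (1 / 2) := by
      rw [← hτr, ← Real.norm_eq_abs]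
      exact norm_integral_le_of_norm_le_const (Eventually.of_forall (fun x => by
        rw [Real.norm_eq_abs]; exact hΦb m x))
    have h8 : ((2⁻¹ : ℝ≥0) • (2 * ∫ x, Φ (m + 1) x ∂κ) : ℝ) = ∫ x, Φ (m + 1) x ∂κ := by
      rw [NNReal.smul_def]
      push_cast
      simp only [smul_eq_mul]
      ring
    rw [h8]
    refine (abs_add_le _ _).trans ((add_le_add h6 h7).trans ?_)
    have h9 := rec_ineq (a := (m : ℝ) + 1 + k / 4) (by
      have : (0 : ℝ) ≤ k / 4 := by positivity
      linarith [Nat.cast_nonneg (α := ℝ) m])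
    simp only [hG]
    push_cast
    have e1 : (m : ℝ) + 1 + 1 + k / 4 = (m : ℝ) + 1 + k / 4 + 1 := by ring
    have e2 : (m : ℝ) + 1 + ((k : ℝ) + 1) / 4 = (m : ℝ) + 1 + k / 4 + 1 / 4 := by ring
    rw [e1, e2]
    linarith

/-- Translation bound in total variation. -/
def TVb (ρ : Measure ℝ) (w c : ℝ) : Prop :=
  ∀ f : ℝ → ℝ, Measurable f → (∀ x, |f x| ≤ 1) → |∫ x, (f (x + w) - f x) ∂ρ| ≤ c

lemma TVb_convs {w : ℝ} {k : ℕ} (hk : 1 ≤ k) (ρ : Fin k → Measure ℝ)
    (hp : ∀ i, IsProbabilityMeasure (ρ i)) (hd : ∀ i, DD (ρ i) w) :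
    TVb (convs k ρ) w (4 / √(k : ℝ)) := by
  intro f hfm hf
  have h1 := convs_bound w k ρ hp hd 0 f hfm hf
  refine h1.trans ?_
  have hk0 : (0 : ℝ) < k := by exact_mod_cast hk
  have h2 : √((k : ℝ)) / 2 ≤ √(((0 : ℕ) : ℝ) + 1 + k / 4) := by
    rw [show √(k : ℝ) / 2 = √((k : ℝ) / 4) by
      rw [Real.sqrt_div hk0.le, show (4 : ℝ) = 2 ^ 2 by norm_num, Real.sqrt_sq (by norm_num)]]
    refine Real.sqrt_le_sqrt ?_
    push_cast
    linarith
  have h3 : 0 < √(k : ℝ) := Real.sqrt_pos.2 hk0
  calc 2 * (1 / √(((0 : ℕ) : ℝ) + 1 + k / 4)) ≤ 2 * (1 / (√(k : ℝ) / 2)) := by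
        gcongr
    _ = 4 / √(k : ℝ) := by field_simp; norm_num

lemma TVb_add {ρ : Measure ℝ} [IsFiniteMeasure ρ] {v w c d : ℝ} (h1 : TVb ρ v c)
    (h2 : TVb ρ w d) : TVb ρ (v + w) (c + d) := by
  intro f hfm hf
  have e1 := h1 (fun x => f (x + w)) (hfm.comp (measurable_add_const w)) (fun x => hf _)
  have e2 := h2 f hfm hf
  have i1 : Integrable (fun x => f (x + v + w) - f (x + w)) ρ :=
    integrable_bdd (C := 2) (((hfm.comp (measurable_add_const w)).comp
      (measurable_add_const v)).sub (hfm.comp (measurable_add_const w))) (fun x => by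
        refine (abs_sub _ _).trans ?_
        have := hf (x + v + w)
        have := hf (x + w)
        linarith)
  have i2 : Integrable (fun x => f (x + w) - f x) ρ :=
    integrable_bdd (C := 2) ((hfm.comp (measurable_add_const w)).sub hfm) (fun x => by
        refine (abs_sub _ _).trans ?_
        have := hf x
        have := hf (x + w)
        linarith)
  have e3 : ∫ x, (f (x + (v + w)) - f x) ∂ρ
      = ∫ x, (f (x + v + w) - f (x + w)) ∂ρ + ∫ x, (f (x + w) - f x) ∂ρ := by
    rw [← integral_add i1 i2]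
    congr 1
    funext x
    rw [add_assoc]
    ring
  rw [e3]
  exact (abs_add_le _ _).trans (add_le_add e1 e2)

lemma TVb_nsmul {ρ : Measure ℝ} [IsFiniteMeasure ρ] {w c : ℝ} (h : TVb ρ w c) (n : ℕ) :
    TVb ρ (n * w) (n * c) := by
  induction n with
  | zero =>
    intro f _ _
    simp
  | succ n ih =>
    have := TVb_add ih h
    push_cast
    rw [add_mul, add_mul, one_mul, one_mul]
    exact this

end Pool.Agent.H91.BC
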