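import Pool.Agent.H91.BC.Overlap

/-! Uniform smoothness of the Bernoulli convolutions near one. -/

set_option autoImplicit false
open MeasureTheory ProbabilityTheory Filter Topology Set
open scoped ENNReal NNReal

namespace Pool.Agent.H91.BC

/-- Baire category on the interval of absolutely continuous parameters. -/
lemma baire_interval (h : P1) (V : ℕ → Set ℝ) (hV : ∀ n, IsOpen (V n))
    (hex : ∀ t ∈ Ioo (0 : ℝ) 1, nu t ≪ volume → ∃ n, t ∉ V n) :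
    ∃ n : ℕ, ∃ a b : ℝ, 1 / 2 ≤ a ∧ a < b ∧ b ≤ 1 ∧ ∀ t ∈ Ioo a b, nu t ≪ volume ∧ t ∉ V n := by
  obtain ⟨t₀, ht, h⟩ := h
  set O : Set ℝ := Ioo (max t₀ (1 / 2)) 1 with hO
  have hOne : O.Nonempty := nonempty_Ioo.2 (max_lt ht (by norm_num))
  have hO' : ∀ t ∈ O, t₀ < t ∧ 1 / 2 < t ∧ 0 < t ∧ t < 1 := by
    rintro t ⟨h1, h2⟩
    rw [max_lt_iff] at h1
    exact ⟨h1.1, h1.2, by linarith [h1.2], h2⟩
  have hac : ∀ t ∈ O, nu t ≪ volume := fun t ht => h t (hO' t ht).1 (hO' t ht).2.2.1 (hO' t ht).2.2.2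
  by_contra hcon
  have h1 : ∀ n : ℕ, O ⊆ closure (V n ∩ O) := by
    intro n x hx
    rw [mem_closure_iff_nhds]
    intro W hW
    by_contra hem
    apply hcon
    have h2 : W ∩ O ∈ 𝓝 x := inter_mem hW (isOpen_Ioo.mem_nhds hx)
    obtain ⟨ε, hε, h3⟩ := Metric.mem_nhds_iff.1 h2
    rw [Real.ball_eq_Ioo] at h3
    refine ⟨n, x - ε / 2, x + ε / 2, ?_, by linarith, ?_, ?_⟩
    · have h4 : x - ε / 2 ∈ Ioo (x - ε) (x + ε) := ⟨by linarith, by linarith⟩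
      exact (hO' _ (h3 h4).2).2.1.le
    · have h4 : x + ε / 2 ∈ Ioo (x - ε) (x + ε) := ⟨by linarith, by linarith⟩
      exact (hO' _ (h3 h4).2).2.2.2.le
    · rintro t ⟨h4, h5⟩
      have h6 : t ∈ Ioo (x - ε) (x + ε) := ⟨by linarith, by linarith⟩
      have h7 := h3 h6
      exact ⟨hac t h7.2, fun h8 => hem ⟨t, h7.1, h8, h7.2⟩⟩
  have h2 : ∀ n : ℕ, IsMeagre (O \ (V n ∩ O)) :=
    fun n => meagre_diff ((hV n).inter isOpen_Ioo).isGδ (h1 n)
  have h3 : IsMeagre O := by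
    refine (isMeagre_iUnion h2).mono ?_
    intro t ht
    obtain ⟨n, hn⟩ := hex t ⟨(hO' t ht).2.2.1, (hO' t ht).2.2.2⟩ (hac t ht)
    exact mem_iUnion.2 ⟨n, ht, fun h4 => hn h4.1⟩
  exact not_isMeagre_of_isOpen isOpen_Ioo hOne h3

/-- Every parameter near one has a power in a given interval. -/
lemma near_k {a b : ℝ} (ha : 1 / 2 ≤ a) (hab : a < b) (hb : b ≤ 1) :
    ∃ t₀ c : ℝ, t₀ < 1 ∧ 0 < c ∧ 1 / 2 ≤ t₀ ∧ ∀ t : ℝ, t₀ < t → t < 1 →
      ∃ k : ℕ, 1 ≤ k ∧ t ^ k ∈ Ioo a b ∧ c ≤ k * (1 - t) := by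
  set m : ℝ := (a + b) / 2 with hm
  have ham : a < m := by rw [hm]; linarith
  have hmb : m < b := by rw [hm]; linarith
  have hm0 : 0 < m := by linarith
  have hm1 : m < 1 := by linarith
  have hlog : 0 < Real.log (1 / m) := Real.log_pos (by rw [lt_div_iff₀ hm0]; linarith)
  refine ⟨max (a / m) (1 / 2), Real.log (1 / m) / 2, ?_, by positivity, le_max_right _ _, ?_⟩
  · exact max_lt (by rw [div_lt_one hm0]; exact ham) (by norm_num)
  intro t ht h1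
  rw [max_lt_iff] at ht
  have h0 : 0 < t := by linarith [ht.2]
  obtain ⟨k, hk1, hk2⟩ := exists_nat_pow_near_of_lt_one hm0 hm1.le h0 h1
  have hlow : a < t ^ (k + 1) := by
    have h2 : a < m * t := by
      have := ht.1
      rw [div_lt_iff₀ hm0] at this
      linarith
    have h3 : m * t ≤ t ^ k * t := mul_le_mul_of_nonneg_right hk2 h0.le
    rw [pow_succ]
    linarith
  have hp0 : 0 < t ^ (k + 1) := by linarith
  refine ⟨k + 1, by omega, ⟨hlow, by linarith⟩, ?_⟩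
  have hlt : Real.log (1 / m) < (k + 1 : ℕ) * Real.log (1 / t) := by
    have h5 : Real.log (t ^ (k + 1)) < Real.log m := Real.log_lt_log hp0 hk1
    rw [Real.log_pow] at h5
    rw [one_div, Real.log_inv, one_div, Real.log_inv]
    linarith
  have hlt2 : Real.log (1 / t) ≤ 2 * (1 - t) := by
    have h6 := Real.log_le_sub_one_of_pos (show 0 < 1 / t by positivity)
    have h7 : 1 / t - 1 ≤ 2 * (1 - t) := by
      have h8 : 1 / t - 1 = (1 - t) * (1 / t) := by field_simp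
      rw [h8]
      have h9 : 1 / t ≤ 2 := by
        rw [div_le_iff₀ h0]
        linarith [ht.2]
      nlinarith
    linarith
  have hk0 : (0 : ℝ) < (k + 1 : ℕ) := by positivity
  have h10 : Real.log (1 / m) ≤ (k + 1 : ℕ) * (2 * (1 - t)) :=
    hlt.le.trans (mul_le_mul_of_nonneg_left hlt2 hk0.le)
  linarith

lemma cont_lint {h : ℝ → ℝ≥0} (hc : Continuous h) (h1 : ∀ x, h x ≤ 1) {t : ℝ}
    (ht : t ∈ Ioo (0 : ℝ) 1) : ContinuousAt (fun t => ∫⁻ x, (h x : ℝ≥0∞) ∂(nu t)) t := by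
  set P := Measure.infinitePi (fun _ : ℕ => (PMF.uniformOfFintype Bool).toMeasure) with hP
  have hm : Measurable (fun x => (h x : ℝ≥0∞)) := hc.measurable.coe_nnreal_ennreal
  have e1 : ∀ s ∈ Ioo (0 : ℝ) 1, ∫⁻ x, (h x : ℝ≥0∞) ∂(nu s)
      = ∫⁻ ω, (h (ser (fun n : ℕ => s ^ n) ω) : ℝ≥0∞) ∂P := by
    intro s hs
    unfold nu law
    rw [lintegral_map hm (measurable_ser (summable_geo hs.1 hs.2))]
  have hev : ∀ᶠ s in 𝓝 t, s ∈ Ioo (0 : ℝ) 1 := isOpen_Ioo.mem_nhds ht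
  have hLD := geo_LD (f := fun t : ℝ => t) (B := Ioo (0 : ℝ) 1) isOpen_Ioo continuousOn_id
    (fun t ht => ht)
  have h2 : Tendsto (fun s => ∫⁻ ω, (h (ser (fun n : ℕ => s ^ n) ω) : ℝ≥0∞) ∂P) (𝓝 t)
      (𝓝 (∫⁻ ω, (h (ser (fun n : ℕ => t ^ n) ω) : ℝ≥0∞) ∂P)) := by
    refine tendsto_lintegral_filter_of_dominated_convergence (fun _ => 1) ?_ ?_ ?_ ?_
    · filter_upwards [hev] with s hs
      exact hm.comp (measurable_ser (summable_geo hs.1 hs.2))
    · refine Eventually.of_forall (fun s => Eventually.of_forall (fun ω => ?_))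
      exact_mod_cast h1 _
    · simp
    · refine Eventually.of_forall (fun ω => ?_)
      have h3 := hLD.continuousAt (B := Ioo (0 : ℝ) 1) (a := fun t (k : ℕ) => t ^ k) isOpen_Ioo
        (fun k => (continuous_pow k).continuousOn) ht ω
      exact ((ENNReal.continuous_coe.comp hc).tendsto _).comp h3.tendsto
  change Tendsto (fun t => ∫⁻ x, (h x : ℝ≥0∞) ∂(nu t)) (𝓝 t) (𝓝 (∫⁻ x, (h x : ℝ≥0∞) ∂(nu t)))
  rw [e1 t ht]
  refine h2.congr' ?_
  filter_upwards [hev] with s hs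
  exact (e1 s hs).symm

lemma isOpen_EC (n : ℕ) : IsOpen {t : ℝ | t ∈ Ioo (0 : ℝ) 1 ∧
    ¬ ∀ w : ℝ, |w| ≤ 1 / ((n : ℝ) + 1) → EC (nu t) w 2⁻¹} := by
  rw [isOpen_iff_mem_nhds]
  rintro t ⟨ht, hn⟩
  simp only [not_forall] at hn
  obtain ⟨w, hw, hn⟩ := hn
  unfold EC at hn
  simp only [not_forall] at hn
  obtain ⟨h, hc, h1, hlt⟩ := hn
  rw [not_le] at hlt
  have c1 := cont_lint hc h1 ht
  have c2 := cont_lint (h := fun x => h (x - w)) (hc.comp (continuous_sub_right w))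
    (fun x => h1 _) ht
  have c3 : ContinuousAt (fun t => ∫⁻ x, (h (x - w) : ℝ≥0∞) ∂(nu t) + 2⁻¹) t :=
    c2.add continuousAt_const
  filter_upwards [c3.tendsto.eventually_lt c1.tendsto hlt, isOpen_Ioo.mem_nhds ht] with s hs hs2
  refine ⟨hs2, fun hcon => ?_⟩
  exact absurd (hcon w hw h hc h1) (not_le.2 hs)

/-- Uniform smoothness in total variation near one. -/
theorem smooth_near (h : P1) : ∃ t₀ w₁ C : ℝ, t₀ < 1 ∧ 0 < w₁ ∧ 1 / 2 ≤ t₀ ∧ 0 < C ∧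
    ∀ t : ℝ, t₀ < t → t < 1 → ∀ w : ℝ, |w| ≤ w₁ → TVb (nu t) w (C * √(1 - t)) := by
  obtain ⟨n, a, b, ha, hab, hb, hI⟩ := baire_interval h _ isOpen_EC (fun t ht hac => by
    have := nu_prob ht.1 ht.2
    obtain ⟨n, hn⟩ := EC_of_ac hac
    exact ⟨n, fun h2 => h2.2 hn⟩)
  obtain ⟨t₀, c, ht₀, hc, ht2, hk⟩ := near_k ha hab hb
  have hcs : 0 < √c := Real.sqrt_pos.2 hc
  refine ⟨t₀, 1 / ((n : ℝ) + 1) / 2, 4 / √c, ht₀, by positivity, ht2, by positivity, ?_⟩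
  intro t ht h1 w hw
  obtain ⟨k, hk1, hkI, hkc⟩ := hk t ht h1
  have h0 : 0 < t := by linarith
  have hp0 : 0 < t ^ k := pow_pos h0 k
  have hp1 : t ^ k < 1 := pow_lt_one₀ h0.le h1 (by omega)
  have hprob := nu_prob hp0 hp1
  obtain ⟨hac, hV⟩ := hI _ hkI
  have hEC : ∀ w : ℝ, |w| ≤ 1 / ((n : ℝ) + 1) → EC (nu (t ^ k)) w 2⁻¹ := by
    by_contra hcon
    exact hV ⟨⟨hp0, hp1⟩, hcon⟩
  have hpi : ∀ i : Fin k,
      IsProbabilityMeasure ((nu (t ^ k)).map (fun y => t ^ (i : ℕ) * y)) :=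
    fun i => Measure.isProbabilityMeasure_map (by fun_prop)
  have hd : ∀ i : Fin k, DD ((nu (t ^ k)).map (fun y => t ^ (i : ℕ) * y)) w := by
    intro i
    have hti : 1 / 2 ≤ t ^ (i : ℕ) := by
      have h2 : t ^ k ≤ t ^ (i : ℕ) := pow_le_pow_of_le_one h0.le h1.le i.2.le
      linarith [hkI.1]
    have hti0 : 0 < t ^ (i : ℕ) := by linarith
    refine DD_of_EO ?_ ?_
    · simpa using map_aff_ac hti0.ne' 0 hac
    · have hw' : |w / t ^ (i : ℕ)| ≤ 1 / ((n : ℝ) + 1) := by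
        rw [abs_div, abs_of_pos hti0, div_le_iff₀ hti0]
        have : 0 ≤ 1 / ((n : ℝ) + 1) := by positivity
        nlinarith
      have hEO := EO_of_EC (hEC _ hw')
      intro A hA
      rw [Measure.map_apply (by fun_prop) hA,
        Measure.map_apply (by fun_prop) ((measurable_sub_const w) hA)]
      have e1 := hEO _ ((measurable_const_mul (t ^ (i : ℕ))) hA)
      refine e1.trans (le_of_eq ?_)
      congr 2
      ext x
      simp only [mem_preimage]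
      rw [mul_sub, mul_div_cancel₀ _ hti0.ne']
  have hfin := TVb_convs hk1 _ hpi hd
  rw [← nu_eq_convs h0 h1 hk1] at hfin
  intro f hfm hf
  refine (hfin f hfm hf).trans ?_
  have h1t : 0 < 1 - t := by linarith
  have hk0 : (0 : ℝ) < k := by exact_mod_cast hk1
  have hks : 0 < √(k : ℝ) := Real.sqrt_pos.2 hk0
  rw [div_mul_eq_mul_div, div_le_div_iff₀ hks hcs]
  have h3 : √c ≤ √(1 - t) * √(k : ℝ) := by
    rw [← Real.sqrt_mul h1t.le]
    refine Real.sqrt_le_sqrt ?_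
    linarith
  linarith

end Pool.Agent.H91.BC
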