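import Pool.Agent.H91.BC.Clt

/-! The central limit theorem in total variation. -/

set_option autoImplicit false
open MeasureTheory ProbabilityTheory Filter Topology Set
open scoped ENNReal NNReal

namespace Pool.Agent.H91.BC

/-- Absolutely continuous laws are smooth in total variation. -/
lemma TVb_of_ac {ρ : Measure ℝ} [IsProbabilityMeasure ρ] (h : ρ ≪ volume) {ε : ℝ} (hε : 0 < ε) :
    ∃ δ > 0, ∀ u : ℝ, |u| ≤ δ → TVb ρ u ε := by
  set F : ℝ → ℝ := fun x => (ρ.rnDeriv volume x).toReal with hF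
  have hFi : Integrable F := Measure.integrable_toReal_rnDeriv
  obtain ⟨δ, hδ, hδ2⟩ := L1trans hFi hε
  refine ⟨δ, hδ, fun u hu f hfm hf => ?_⟩
  have hb := hδ2 (-u) (by rwa [abs_neg])
  have e1 : ∀ g : ℝ → ℝ, ∫ x, g x ∂ρ = ∫ x, F x * g x := by
    intro g
    have := integral_rnDeriv_smul h (f := g)
    rw [← this]
    rfl
  have i0 : Integrable (fun x => F x * f x) := by
    refine hFi.mul_bdd (c := 1) hfm.aestronglyMeasurable (Eventually.of_forall (fun x => ?_))
    rw [Real.norm_eq_abs]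
    exact hf x
  have i1 : Integrable (fun x => F x * f (x + u)) := by
    refine hFi.mul_bdd (c := 1) (hfm.comp (measurable_add_const u)).aestronglyMeasurable
      (Eventually.of_forall (fun x => ?_))
    rw [Real.norm_eq_abs]
    exact hf _
  have i2 : Integrable (fun x => F (x + -u) * f x) := by
    have := i1.comp_add_right (-u)
    simpa using this
  rw [e1]
  have e2 : ∫ x, F x * (f (x + u) - f x) = ∫ x, (F (x + -u) - F x) * f x := by
    have e3 : ∫ x, F x * f (x + u) = ∫ x, F (x + -u) * f x := by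
      rw [← integral_add_right_eq_self (μ := (volume : Measure ℝ)) (fun x => F x * f (x + u)) (-u)]
      simp
    calc ∫ x, F x * (f (x + u) - f x) = ∫ x, (F x * f (x + u) - F x * f x) := by
          congr 1; funext x; ring
      _ = (∫ x, F (x + -u) * f x) - ∫ x, F x * f x := by rw [integral_sub i1 i0, e3]
      _ = ∫ x, (F (x + -u) - F x) * f x := by
          rw [← integral_sub i2 i0]
          congr 1; funext x; ring
  rw [e2, ← Real.norm_eq_abs]
  have e4 : ‖∫ x, (F (x + -u) - F x) * f x‖ₑ ≤ ENNReal.ofReal ε := by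
    refine (enorm_integral_le_lintegral_enorm _).trans (le_trans (lintegral_mono (fun x => ?_)) hb)
    rw [enorm_mul]
    have : ‖f x‖ₑ ≤ 1 := by
      rw [← ofReal_norm, Real.norm_eq_abs, ← ENNReal.ofReal_one]
      exact ENNReal.ofReal_le_ofReal (hf x)
    calc ‖F (x + -u) - F x‖ₑ * ‖f x‖ₑ ≤ ‖F (x + -u) - F x‖ₑ * 1 := by gcongr
      _ = _ := mul_one _
  rw [← ofReal_norm, ENNReal.ofReal_le_ofReal_iff hε.le] at e4
  exact e4

/-- The uniform law on an interval. -/
noncomputable def UU (δ : ℝ) : Measure ℝ := (ENNReal.ofReal δ)⁻¹ • volume.restrict (Icc 0 δ)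

lemma UU_prob {δ : ℝ} (hδ : 0 < δ) : IsProbabilityMeasure (UU δ) := by
  refine ⟨?_⟩
  unfold UU
  rw [Measure.smul_apply, Measure.restrict_apply MeasurableSet.univ, univ_inter, Real.volume_Icc,
    sub_zero, smul_eq_mul]
  exact ENNReal.inv_mul_cancel (by simpa using hδ) ENNReal.ofReal_ne_top

/-- Density of the smoothed law. -/
noncomputable def qq (δ : ℝ) (ρ : Measure ℝ) (y : ℝ) : ℝ≥0∞ :=
  (ENNReal.ofReal δ)⁻¹ * ρ (Icc (y - δ) y)

lemma measurable_qq {δ : ℝ} {ρ : Measure ℝ} [SFinite ρ] : Measurable (qq δ ρ) := by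
  unfold qq
  refine Measurable.const_mul ?_ _
  have h1 : MeasurableSet {p : ℝ × ℝ | p.1 - δ ≤ p.2 ∧ p.2 ≤ p.1} := by
    exact (measurableSet_le (measurable_fst.sub_const δ) measurable_snd).inter
      (measurableSet_le measurable_snd measurable_fst)
  have h2 := measurable_measure_prodMk_left (ν := ρ) h1
  exact h2

lemma conv_UU {δ : ℝ} (hδ : 0 < δ) {ρ : Measure ℝ} [SFinite ρ] {A : Set ℝ}
    (hA : MeasurableSet A) : (ρ ∗ UU δ) A = ∫⁻ y in A, qq δ ρ y := by
  have hne : (ENNReal.ofReal δ)⁻¹ ≠ ∞ := by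
    rw [ENNReal.inv_ne_top]
    simpa using hδ
  have hfinU : SFinite (UU δ) := by unfold UU; infer_instance
  rw [← lintegral_indicator_one hA, Measure.lintegral_conv (measurable_one.indicator hA)]
  have e1 : ∀ x : ℝ, ∫⁻ u, A.indicator (1 : ℝ → ℝ≥0∞) (x + u) ∂(UU δ)
      = ∫⁻ y, (ENNReal.ofReal δ)⁻¹ * (A.indicator 1 y * (Icc (y - δ) y).indicator 1 x) := by
    intro x
    unfold UU
    rw [lintegral_smul_measure, smul_eq_mul, ← lintegral_indicator measurableSet_Icc,
      ← lintegral_const_mul']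
    · rw [← lintegral_add_right_eq_self (μ := (volume : Measure ℝ))
        (fun y => (ENNReal.ofReal δ)⁻¹ * (A.indicator 1 y * (Icc (y - δ) y).indicator 1 x)) x]
      refine lintegral_congr (fun u => ?_)
      congr 1
      by_cases hu : u ∈ Icc (0 : ℝ) δ
      · have hx : x ∈ Icc (u + x - δ) (u + x) := ⟨by linarith [hu.2], by linarith [hu.1]⟩
        rw [indicator_of_mem hu, indicator_of_mem hx, add_comm u x]
        simp
      · have hx : x ∉ Icc (u + x - δ) (u + x) := by
          intro h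
          exact hu ⟨by linarith [h.2], by linarith [h.1]⟩
        rw [indicator_of_notMem hu, indicator_of_notMem hx, mul_zero]
    · exact hne
  simp_rw [e1]
  rw [lintegral_lintegral_swap]
  · rw [← lintegral_indicator hA]
    refine lintegral_congr (fun y => ?_)
    rw [lintegral_const_mul']
    · by_cases hy : y ∈ A
      · rw [indicator_of_mem hy, indicator_of_mem hy]
        unfold qq
        simp only [Pi.one_apply, one_mul]
        rw [lintegral_indicator_one measurableSet_Icc]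
      · rw [indicator_of_notMem hy, indicator_of_notMem hy]
        simp
    · exact hne
  · refine Measurable.aemeasurable ?_
    have h1 : MeasurableSet {p : ℝ × ℝ | p.2 - δ ≤ p.1 ∧ p.1 ≤ p.2} :=
      (measurableSet_le (measurable_snd.sub_const δ) measurable_fst).inter
        (measurableSet_le measurable_fst measurable_snd)
    have h2 : Measurable (fun p : ℝ × ℝ => (ENNReal.ofReal δ)⁻¹ *
        (A.indicator (1 : ℝ → ℝ≥0∞) p.2 *
          {p : ℝ × ℝ | p.2 - δ ≤ p.1 ∧ p.1 ≤ p.2}.indicator (1 : ℝ × ℝ → ℝ≥0∞) p)) :=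
      (((measurable_one.indicator hA).comp measurable_snd).mul
        (measurable_one.indicator h1)).const_mul _
    exact h2

/-- The gap between two smoothed laws. -/
noncomputable def gap (δ : ℝ) (γ ρ : Measure ℝ) : ℝ≥0∞ := ∫⁻ y, (qq δ γ y - qq δ ρ y)

lemma conv_gap {δ : ℝ} (hδ : 0 < δ) {γ ρ : Measure ℝ} [IsProbabilityMeasure γ]
    [IsProbabilityMeasure ρ] {A : Set ℝ} (hA : MeasurableSet A) :
    (γ ∗ UU δ) A ≤ (ρ ∗ UU δ) A + gap δ γ ρ := by
  rw [conv_UU hδ hA, conv_UU hδ hA]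
  calc ∫⁻ y in A, qq δ γ y ≤ ∫⁻ y in A, (qq δ ρ y + (qq δ γ y - qq δ ρ y)) :=
        lintegral_mono (fun y => le_add_tsub)
    _ = (∫⁻ y in A, qq δ ρ y) + ∫⁻ y in A, (qq δ γ y - qq δ ρ y) := by
        rw [lintegral_add_left measurable_qq]
    _ ≤ (∫⁻ y in A, qq δ ρ y) + gap δ γ ρ := by
        gcongr
        exact setLIntegral_le_lintegral _ _

/-- Two-sided version for real valued measures. -/
lemma conv_gap_real {δ : ℝ} (hδ : 0 < δ) {γ ρ : Measure ℝ} [IsProbabilityMeasure γ]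
    [IsProbabilityMeasure ρ] {c : ℝ} (hc : gap δ γ ρ ≤ ENNReal.ofReal c) (hc0 : 0 ≤ c) {A : Set ℝ}
    (hA : MeasurableSet A) : |(ρ ∗ UU δ).real A - (γ ∗ UU δ).real A| ≤ c := by
  have := UU_prob hδ
  have key : ∀ B : Set ℝ, MeasurableSet B → (γ ∗ UU δ).real B ≤ (ρ ∗ UU δ).real B + c := by
    intro B hB
    have h1 := (conv_gap hδ (γ := γ) (ρ := ρ) hB).trans (add_le_add le_rfl hc)
    have h2 : ((γ ∗ UU δ) B).toReal ≤ ((ρ ∗ UU δ) B + ENNReal.ofReal c).toReal :=
      ENNReal.toReal_mono (by finiteness) h1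
    rw [ENNReal.toReal_add (measure_ne_top _ _) ENNReal.ofReal_ne_top,
      ENNReal.toReal_ofReal hc0] at h2
    exact h2
  have h1 := key A hA
  have h2 := key Aᶜ hA.compl
  rw [probReal_compl_eq_one_sub hA, probReal_compl_eq_one_sub hA] at h2
  rw [abs_le]
  constructor <;> linarith

lemma gap_tendsto {δ : ℝ} (hδ : 0 < δ) {ρ : ℕ → ProbabilityMeasure ℝ}
    {γ : ProbabilityMeasure ℝ} (hγ : (γ : Measure ℝ) ≪ volume)
    (h : Tendsto ρ atTop (𝓝 γ)) :
    Tendsto (fun n => gap δ γ (ρ n)) atTop (𝓝 0) := by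
  have hU := UU_prob hδ
  have hne : (ENNReal.ofReal δ)⁻¹ ≠ ∞ := by
    rw [ENNReal.inv_ne_top]
    simpa using hδ
  have h1 : ∀ y, Tendsto (fun n => qq δ (ρ n : Measure ℝ) y) atTop (𝓝 (qq δ (γ : Measure ℝ) y)) := by
    intro y
    unfold qq
    refine ENNReal.Tendsto.const_mul ?_ (Or.inr hne)
    refine ProbabilityMeasure.tendsto_measure_of_null_frontier_of_tendsto' h ?_
    refine hγ ?_
    have h2 : frontier (Icc (y - δ) y) ⊆ {y - δ, y} := by
      rw [frontier_Icc (by linarith)]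
    exact measure_mono_null h2 (Set.Countable.measure_zero (by simp) _)
  have h3 : ∫⁻ y, qq δ (γ : Measure ℝ) y ≠ ∞ := by
    have h4 := conv_UU hδ (ρ := (γ : Measure ℝ)) MeasurableSet.univ
    rw [Measure.restrict_univ] at h4
    rw [← h4]
    exact measure_ne_top _ _
  have h5 : Tendsto (fun n => ∫⁻ y, (qq δ (γ : Measure ℝ) y - qq δ (ρ n : Measure ℝ) y)) atTop
      (𝓝 (∫⁻ _y : ℝ, 0)) := by
    refine tendsto_lintegral_of_dominated_convergence (qq δ (γ : Measure ℝ)) (fun n => ?_)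
      (fun n => Eventually.of_forall (fun y => tsub_le_self)) h3 (Eventually.of_forall (fun y => ?_))
    · exact measurable_qq.sub measurable_qq
    · have h6 := ENNReal.Tendsto.sub (tendsto_const_nhds (x := qq δ (γ : Measure ℝ) y)
        (f := atTop)) (h1 y) (Or.inl (by
          unfold qq
          exact ENNReal.mul_ne_top hne (measure_ne_top _ _)))
      rwa [tsub_self] at h6
  simpa [gap] using h5

/-- Smoothing changes the law by at most the translation bound. -/
lemma conv_close {δ c : ℝ} (hδ : 0 < δ) {ρ : Measure ℝ} [IsProbabilityMeasure ρ]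
    (h : ∀ u : ℝ, 0 ≤ u → u ≤ δ → TVb ρ u c) {A : Set ℝ} (hA : MeasurableSet A) :
    |(ρ ∗ UU δ).real A - ρ.real A| ≤ c := by
  have hU := UU_prob hδ
  set f : ℝ → ℝ := A.indicator 1 with hf
  have hfm : Measurable f := measurable_one.indicator hA
  have hf1 : ∀ x, |f x| ≤ 1 := by
    intro x
    rw [hf]
    by_cases hx : x ∈ A
    · rw [indicator_of_mem hx]; simp
    · rw [indicator_of_notMem hx]; simp
  have e1 : (ρ ∗ UU δ).real A = ∫ u, ∫ x, f (x + u) ∂ρ ∂(UU δ) := by
    rw [← integral_indicator_one hA, Measure.conv_comm, integral_conv]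
    · congr 1
      funext u
      congr 1
      funext x
      rw [add_comm]
    · exact integrable_bdd hfm hf1
  have e2 : ρ.real A = ∫ _u, (∫ x, f x ∂ρ) ∂(UU δ) := by
    rw [integral_const, probReal_univ, one_smul, hf, integral_indicator_one hA]
  have hm1 : Measurable (fun u => ∫ x, f (x + u) ∂ρ) := by
    have : Measurable (fun p : ℝ × ℝ => f (p.2 + p.1)) :=
      hfm.comp (measurable_snd.add measurable_fst)
    exact (this.stronglyMeasurable.integral_prod_right).measurable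
  have i1 : Integrable (fun u => ∫ x, f (x + u) ∂ρ) (UU δ) := by
    refine integrable_bdd (C := 1) hm1 (fun u => ?_)
    rw [← Real.norm_eq_abs]
    have := norm_integral_le_of_norm_le_const (μ := ρ) (f := fun x => f (x + u)) (C := 1)
      (Eventually.of_forall (fun x => by rw [Real.norm_eq_abs]; exact hf1 _))
    simpa using this
  rw [e1, e2, ← integral_sub i1 (integrable_const _), ← Real.norm_eq_abs]
  have e3 : ∀ᵐ u ∂(UU δ), ‖(∫ x, f (x + u) ∂ρ) - ∫ x, f x ∂ρ‖ ≤ c := by
    have h1 : ∀ᵐ u ∂(volume.restrict (Icc 0 δ)), u ∈ Icc (0 : ℝ) δ :=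
      ae_restrict_mem measurableSet_Icc
    have h2 : ∀ᵐ u ∂(UU δ), u ∈ Icc (0 : ℝ) δ := by
      unfold UU
      exact Measure.ae_smul_measure h1 _
    filter_upwards [h2] with u hu
    have h3 := h u hu.1 hu.2 f hfm hf1
    have i2 : Integrable (fun x => f (x + u)) ρ :=
      integrable_bdd (hfm.comp (measurable_add_const u)) (fun x => hf1 _)
    rw [integral_sub i2 (integrable_bdd hfm hf1)] at h3
    rw [Real.norm_eq_abs]
    exact h3
  have := norm_integral_le_of_norm_le_const e3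
  simpa using this


/-- Translation bound for a scaled law. -/
lemma TVb_scale {ρ : Measure ℝ} {s : ℝ} (hs : 0 < s) {u c : ℝ} (h : TVb ρ (u / s) c) :
    TVb (ρ.map (fun y => s * y)) u c := by
  intro f hfm hf
  have m0 : Measurable (fun x => f (x + u) - f x) := (hfm.comp (measurable_add_const u)).sub hfm
  rw [integral_map (by fun_prop) m0.aestronglyMeasurable]
  have h1 := h (fun y => f (s * y)) (hfm.comp (measurable_const_mul s)) (fun y => hf _)
  refine le_trans (le_of_eq ?_) h1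
  congr 2
  funext y
  rw [mul_add, mul_div_cancel₀ _ hs.ne']

/-- A bound for all translations from a bound for small ones. -/
lemma TVb_all {ρ : Measure ℝ} [IsFiniteMeasure ρ] {w₁ c : ℝ} (hw : 0 < w₁) (hc : 0 ≤ c)
    (h : ∀ w, |w| ≤ w₁ → TVb ρ w c) (v : ℝ) (hv : 0 ≤ v) : TVb ρ v ((v / w₁ + 1) * c) := by
  obtain ⟨n, hn⟩ := exists_nat_ge (v / w₁)
  set N := ⌈v / w₁⌉₊ with hN
  have h0 : 0 ≤ v / w₁ := div_nonneg hv hw.le
  by_cases hN0 : N = 0
  · have hv0 : v = 0 := by
      have h1 := Nat.le_ceil (v / w₁)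
      rw [← hN, hN0, Nat.cast_zero] at h1
      have h2 : v / w₁ = 0 := le_antisymm h1 h0
      rcases div_eq_zero_iff.1 h2 with h3 | h3
      · exact h3
      · exact absurd h3 hw.ne'
    intro f _ _
    rw [hv0]
    simp
    exact hc
  · have hNpos : (0 : ℝ) < N := by exact_mod_cast Nat.pos_of_ne_zero hN0
    have h1 : v / w₁ ≤ N := Nat.le_ceil _
    have h2 : (N : ℝ) < v / w₁ + 1 := Nat.ceil_lt_add_one h0
    have h3 : |v / N| ≤ w₁ := by
      rw [abs_of_nonneg (div_nonneg hv hNpos.le), div_le_iff₀ hNpos]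
      rw [div_le_iff₀ hw] at h1
      linarith
    have h4 := TVb_nsmul (h _ h3) N
    rw [mul_div_cancel₀ _ hNpos.ne'] at h4
    intro f hfm hf
    refine (h4 f hfm hf).trans ?_
    exact mul_le_mul_of_nonneg_right h2.le hc

/-- The central limit theorem in total variation. -/
def P7 : Prop := ∀ ε : ℝ, 0 < ε → ∃ t₀ : ℝ, t₀ < 1 ∧ ∀ t : ℝ, t₀ < t → 0 < t → t < 1 →
  ∀ A : Set ℝ, MeasurableSet A → |(zlaw t).real A - (gaussianReal 0 1).real A| ≤ ε

theorem P7_of_P1 (h : P1) : P7 := by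
  obtain ⟨s₀, w₁, C, hs₀, hw₁, hs2, hC, hsm⟩ := smooth_near h
  intro ε hε
  by_contra hcon
  have hcon' : ∀ t₀ : ℝ, t₀ < 1 → ∃ t : ℝ, t₀ < t ∧ 0 < t ∧ t < 1 ∧ ∃ A : Set ℝ,
      MeasurableSet A ∧ ε < |(zlaw t).real A - (gaussianReal 0 1).real A| := by
    intro t₀ ht₀
    by_contra h1
    apply hcon
    refine ⟨t₀, ht₀, fun t h2 h3 h4 A hA => ?_⟩
    by_contra h5
    exact h1 ⟨t, h2, h3, h4, A, hA, not_le.1 h5⟩
  have hseq : ∀ n : ℕ, ∃ t : ℝ, max (1 - 1 / ((n : ℝ) + 1)) s₀ < t ∧ 0 < t ∧ t < 1 ∧ ∃ A : Set ℝ,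
      MeasurableSet A ∧ ε < |(zlaw t).real A - (gaussianReal 0 1).real A| := by
    intro n
    refine hcon' _ (max_lt ?_ hs₀)
    have : (0 : ℝ) < 1 / ((n : ℝ) + 1) := by positivity
    linarith
  choose t ht h0 h1 A hA hbig using hseq
  have ht1 : Tendsto t atTop (𝓝 1) := by
    have g1 : Tendsto (fun n : ℕ => 1 - 1 / ((n : ℝ) + 1)) atTop (𝓝 (1 - 0)) :=
      tendsto_const_nhds.sub tendsto_one_div_add_atTop_nhds_zero_nat
    rw [sub_zero] at g1
    refine tendsto_of_tendsto_of_tendsto_of_le_of_le g1 tendsto_const_nhds (fun n => ?_)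
      (fun n => (h1 n).le)
    exact ((le_max_left _ _).trans_lt (ht n)).le
  have hweak := weak_clt h0 h1 ht1
  have hγac : (gaussianReal 0 1) ≪ (volume : Measure ℝ) :=
    gaussianReal_absolutelyContinuous 0 one_ne_zero
  obtain ⟨δ₁, hδ₁, hγs⟩ := TVb_of_ac hγac (ε := ε / 8) (by positivity)
  set δ : ℝ := min δ₁ (ε * w₁ / (8 * C)) with hδ
  have hδpos : 0 < δ := lt_min hδ₁ (by positivity)
  have hgap := gap_tendsto hδpos (γ := gpm) hγac hweak
  have hgap1 : ∀ᶠ n in atTop, gap δ (gpm : Measure ℝ) (zpm (t n) (h0 n) (h1 n) : Measure ℝ)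
      < ENNReal.ofReal (ε / 8) :=
    hgap.eventually (gt_mem_nhds (by simpa using hε))
  have hsq : ∀ᶠ n in atTop, C * √(1 - t n) < ε / 8 := by
    have g1 : Tendsto (fun n => C * √(1 - t n)) atTop (𝓝 (C * √(1 - 1))) :=
      ((Real.continuous_sqrt.tendsto _).comp (tendsto_const_nhds.sub ht1)).const_mul C
    rw [sub_self, Real.sqrt_zero, mul_zero] at g1
    exact g1.eventually (gt_mem_nhds (by positivity))
  obtain ⟨n, hn1, hn2⟩ := (hgap1.and hsq).exists
  have hpn := nu_prob (h0 n) (h1 n)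
  have hpz := zlaw_prob (h0 n) (h1 n)
  have hU := UU_prob hδpos
  have h1t : 0 < 1 - t n := by linarith [h1 n]
  have ht2 : t n ^ 2 < 1 := pow_lt_one₀ (h0 n).le (h1 n) (by norm_num)
  have hspos : 0 < √(1 - t n ^ 2) := Real.sqrt_pos.2 (by linarith)
  have hs_ge : √(1 - t n) ≤ √(1 - t n ^ 2) := by
    refine Real.sqrt_le_sqrt ?_
    nlinarith [h0 n, h1 n]
  -- smoothness of the normalised law
  have hz : ∀ u : ℝ, 0 ≤ u → u ≤ δ → TVb (zlaw (t n)) u (ε / 4) := by
    intro u hu0 hu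
    refine TVb_scale hspos ?_
    have g1 := TVb_all hw₁ (by positivity : (0 : ℝ) ≤ C * √(1 - t n))
      (hsm (t n) ((le_max_right _ _).trans_lt (ht n)) (h1 n)) (u / √(1 - t n ^ 2))
      (div_nonneg hu0 hspos.le)
    intro f hfm hf
    refine (g1 f hfm hf).trans ?_
    have g2 : u / √(1 - t n ^ 2) / w₁ * (C * √(1 - t n)) ≤ u / w₁ * C := by
      have g3 : u / √(1 - t n ^ 2) / w₁ * (C * √(1 - t n))
          = (u / w₁ * C) * (√(1 - t n) / √(1 - t n ^ 2)) := by
        field_simp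
      rw [g3]
      refine mul_le_of_le_one_right (by positivity) ?_
      rw [div_le_one hspos]
      exact hs_ge
    have g4 : u / w₁ * C ≤ ε / 8 := by
      have g5 : u ≤ ε * w₁ / (8 * C) := hu.trans (min_le_right _ _)
      rw [le_div_iff₀ (by positivity)] at g5
      rw [div_mul_eq_mul_div, div_le_iff₀ hw₁]
      linarith
    rw [add_mul, one_mul]
    linarith
  have c1 := conv_close hδpos hz (hA n)
  have c2 := conv_close hδpos (ρ := gaussianReal 0 1) (c := ε / 8)
    (fun u hu0 hu => hγs u (by rw [abs_of_nonneg hu0]; exact hu.trans (min_le_left _ _))) (hA n)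
  have c3 := conv_gap_real hδpos (γ := gaussianReal 0 1) (ρ := zlaw (t n)) (c := ε / 8) hn1.le
    (by positivity) (hA n)
  have hb := hbig n
  have c4 : |(zlaw (t n)).real (A n) - (gaussianReal 0 1).real (A n)| ≤ ε / 4 + ε / 8 + ε / 8 := by
    rw [abs_le] at c1 c2 c3 ⊢
    constructor <;> linarith [c1.1, c1.2, c2.1, c2.2, c3.1, c3.2]
  linarith

/-- Total variation distance to the Gaussian law bounded away from one. -/
def P8 : Prop := ∃ t₀ c : ℝ, t₀ < 1 ∧ c < 1 ∧ ∀ t : ℝ, t₀ < t → 0 < t → t < 1 →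
  ∀ A : Set ℝ, MeasurableSet A → (zlaw t).real A ≤ (gaussianReal 0 1).real A + c

theorem P8_of_P7 (h : P7) : P8 := by
  obtain ⟨t₀, ht₀, h1⟩ := h (1 / 2) (by norm_num)
  refine ⟨t₀, 1 / 2, ht₀, by norm_num, fun t h2 h3 h4 A hA => ?_⟩
  have := h1 t h2 h3 h4 A hA
  rw [abs_le] at this
  linarith [this.2]

theorem P1_of_P8 (h : P8) : P1 := by
  obtain ⟨t₀, c, ht₀, hc, h1⟩ := h
  refine ⟨t₀, ht₀, fun t h2 h3 h4 => ?_⟩
  rcases pure_type h3 h4 with h5 | h5
  · exact h5
  · exfalso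
    have ht2 : t ^ 2 < 1 := pow_lt_one₀ h3.le h4 (by norm_num)
    have hspos : 0 < √(1 - t ^ 2) := Real.sqrt_pos.2 (by linarith)
    have h6 : zlaw t ⟂ₘ volume := by
      have := map_aff_sing hspos.ne' 0 h5
      simpa [zlaw, nu] using this
    have hp := zlaw_prob h3 h4
    obtain ⟨s, hs, e1, e2⟩ := h6
    have e3 := h1 t h2 h3 h4 sᶜ hs.compl
    have e4 : (zlaw t).real sᶜ = 1 := by
      rw [probReal_compl_eq_one_sub hs, Measure.real, e1]
      simp
    have e5 : (gaussianReal 0 1).real sᶜ = 0 := by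
      rw [Measure.real, gaussianReal_absolutelyContinuous 0 one_ne_zero e2]
      simp
    rw [e4, e5] at e3
    linarith

end Pool.Agent.H91.BC
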